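import Mathlib
import Pool.Agent.Q180.UW.Main
import Pool.Agent.Q60.D3Q.Stm

/-!
# Project UV: statements of the lemma jobs
-/

namespace Pool.Agent.Q180.UV

open Matrix Module Polynomial Pool.Agent.H204R3.CM Pool.Agent.W437.HC Pool.Agent.W437.HD
  Pool.Agent.W437.HP Pool.Agent.W437.HR
open Pool.Agent.Q60.D3 (AV IsHom IsCM IsSimple IsIsogenousToProd Comm)
open Pool.Agent.W547.KB (CMPair CMAV threeB IsWeilForm)
open Pool.Agent.Q60.D3Q (avOf S_polx)

/-- The abelian variety `A` is of real type: a totally real field `E` acts on `A` (its generator acts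
on the homology as `φ`) and is its own centralizer in `End (A) ⊗ ℚ`; the number
`m = dim (A) / [E : ℚ]` is odd. -/
def IsReal (A : AV) : Prop :=
  ∃ (P : ℚ[X]) (φ : A.H →ₗ[ℚ] A.H) (m : ℕ), Irreducible P ∧
    (∀ μ : ℂ, aeval μ P = 0 → starRingEnd ℂ μ = μ) ∧ IsHom A A φ ∧ aeval φ P = 0 ∧
    Module.finrank ℂ A.T = P.natDegree * m ∧ Odd m ∧
    ∀ h : A.H →ₗ[ℚ] A.H, IsHom A A h → h ∘ₗ φ = φ ∘ₗ h → ∃ q : ℚ[X], h = aeval φ q

/-- JOB UVR (real type; the proof of `S_odd` in `Pool.Agent.Q182.UW.Odd` at each eigenspace). An
abelian variety of real type decomposes into pieces with the full symplectic Lie algebra.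

Proof. Let `D = DZ Z`, `L = lieM D ℂ`; `Q μ`, `V μ` from `S_lin` (`Pool.Agent.Q2.UW.Lin.lin`) for
`n = 2 m`, `ε μ = V μ * Q μ` the projection to the eigenspace `W μ` of `φ` (`μ` a root of `P`, real).
`ε μ` commutes with `L` (polynomial in `φ`), `∑ ε μ = 1`, and `ε μ` is equal to its complex conjugate.
(1) `om` is nondegenerate on `W μ`: for `x ∈ W μ` the vector `conj (D x)` is in `W μ` and
`om x (conj (D x))` is `≠ 0` (a nonzero multiple of the positive Hermitian form; see how `dag` and the
Hermitian form of the polarization are treated in `Pool.Agent.Y4.H`, `Pool.Agent.Y91.JP`).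
(2) The commutant of `L` on `W μ` consists of scalars: if `c` commutes with `L` and `c = ε c ε` for
`ε = ε μ` then `c` is in the complex span of the rational matrices `ψ` which commute with `D` and `φ`
(linear equations defined over `ℚ`, as in the proof of `Pool.Agent.Q210.UW.famu` or `span_homs`), so
`c` is a complex polynomial in `φ`, and `c = ε c ε` is a multiple of `ε`.
(3) `hπ`, `hst`, the sum: `N μ = W μ` (index type the roots of `P`, a finite set), `w μ` the
restriction of `om`, `π μ = ε μ`. It remains to show that `L` acts on `W μ` as the full symplectic Lie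
algebra: `∀ x y, ∃ X, rsN (N μ) (hst μ) X = EE (w μ) x y`.
(4) The image `G` of `L` on `W μ` (operators on `ℂ^(2 m)`, or on `W μ`) is generated by the
restrictions of the conjugates of `D`; each conjugate `D' = D.map σ` has square one, is in the symplectic
Lie algebra (trace zero), and its eigenspaces for `1`, `-1` in `W μ` have the dimension `m`. `G` is
stable under the Hermitian adjoint (or under the complex conjugation) and acts irreducibly, with
commutant the scalars. Now the steps (a)-(d) of the docstring of `Pool.Agent.Q180.UW.S_odd` apply with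
`g` replaced by the odd number `m`: (a) `D|W μ` generates `G` as an ideal because two commuting
conjugates of `D` with `trace (D D') = 0` on `W μ` would imply `4 ∣ 2 m`; if some conjugate `D'` is in
the ideal complementary to the one of `D`, we get a contradiction (the seed lemma `invol_dich`); (b)-(d)
as in `Pool.Agent.Q182.UW.Odd`. (If the library `Pool.Agent.Y91.JP` needs a Lie algebra on `ℂ^(2 g')`
with the standard form: choose a symplectic basis of `W μ`, or restate its lemmas.) -/
def S_real : Prop :=
  ∀ (g : ℕ) (Z : Matrix (Fin g) (Fin g) ℂ), Zᵀ = Z → (imM Z).PosDef →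
    ∀ (P : ℚ[X]) (φ : Matrix (Fin g ⊕ Fin g) (Fin g ⊕ Fin g) ℚ) (m : ℕ), Irreducible P →
    (∀ μ : ℂ, aeval μ P = 0 → starRingEnd ℂ μ = μ) → aeval φ P = 0 →
    cK ℂ φ * DZ Z = DZ Z * cK ℂ φ → g = P.natDegree * m → Odd m →
    (∀ ψ : Matrix (Fin g ⊕ Fin g) (Fin g ⊕ Fin g) ℚ, cK ℂ ψ * DZ Z = DZ Z * cK ℂ ψ →
      ψ * φ = φ * ψ → ∃ q : ℚ[X], ψ = aeval φ q) → HasPcs (DZ Z)

/-- JOB UVP (complete reducibility, Poincaré). Each abelian variety is isogenous to a product of simple
ones.

Proof. Induction on `Module.finrank ℚ A.H`. If `A` is simple take `n = 1` (if `A.H = 0` also `n = 0`).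
Otherwise there is a subspace `U ≠ ⊥, ⊤` such that the real span `S` of `A.per '' U` is stable under
`Complex.I`. Let `E` be the polarization, `ω v w` the rational number `Im E (per v) (per w)`, and
`U' = {w | ∀ u ∈ U, ω u w = 0}`. As `S` is a complex subspace and `Im E (I x) y = Re E x y`, `w ∈ U'` iff
`E (per u) (per w) = 0` for all `u ∈ U` (for `x ∈ S` also `I x ∈ S`), so `U ⊓ U' = ⊥` by
positivity (`per` is injective: `Pool.Agent.Q60.D3.NF.per_inj`) and `dim U + dim U' = dim A.H`
(`ω` is nondegenerate); the real span of `per '' U'` is the orthogonal complement of `S` (contained in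
it; dimensions: `per` of a rational basis is real independent, `Pool.Agent.Q60.D3.NF.li`), a complex
subspace. Let `A1` be the abelian variety with the homology `U` and the tangent space the complex
submodule `S` (`per` restricted, polarization restricted), `A2` the same for `U'`; the projections of
`A.H = U ⊕ U'` and `A.T = S ⊕ S'` are homomorphisms `A → A1`, `A → A2`, jointly bijective. Apply the
induction hypothesis to `A1` and `A2` and compose. -/
def S_pred : Prop :=
  ∀ A : AV, ∃ (n : ℕ) (B : Fin n → AV), (∀ i, IsSimple (B i)) ∧ IsIsogenousToProd A B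

/-- JOB UVC. The simple factors of an abelian variety of CM type are of CM type.

Proof. Take the Riemann normal form `g, Z, e, C` of `Y` (`Pool.Agent.Q60.D3.NF.nf`), `Comm Z` holds by
`Pool.Agent.Q280.D3C.Cmd.cmd`; the normal form `gi, Zi, ei, Ci` of `B i`. The map
`h = ei ∘ p i ∘ e⁻¹` is a surjective homomorphism from `ofZ Z` to `ofZ Zi` (surjective because the map
to the product is), given by a rational matrix `N` with `cK ℂ N * DZ Z = DZ Zi * cK ℂ N` (a
homomorphism of the period maps commutes with the Hodge operators: see `Pool.Agent.Q60.D3.HomZ` or how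
`endo_comm` is used in `Pool.Agent.Q280.D3C.Cmd`), so also for all conjugates:
`cK ℂ N * (DZ Z).map σ = (DZ Zi).map σ * cK ℂ N`. As `cK ℂ N` is surjective (it has a right inverse),
`Comm Zi` follows from `Comm Z`. Conclude by `Pool.Agent.Q180.D3.cmd` (`B i` is simple). -/
def S_cmsub : Prop :=
  ∀ (ι : Type) [Finite ι] (Y : AV) (B : ι → AV), IsIsogenousToProd Y B → IsCM Y →
    (∀ i, IsSimple (B i)) → ∀ i, IsCM (B i)

end Pool.Agent.Q180.UV
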