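import Mathlib
import Pool.Agent.Y4.K.Glob2
import Pool.Agent.Q180.WT.StmB

/-!
# Project UV: all places with a full Lie algebra

This is `Pool.Agent.Y4.K.Glob`, `Pool.Agent.Y4.K.Glob2` and `Pool.Agent.Q211.WT.Tor` with the condition
that all places are full in the place of the coprimality condition.
-/

set_option linter.unusedSectionVars false

namespace Pool.Agent.Y4.K

open Matrix Module Pool.Agent.H204R3.CM Pool.Agent.H194R3.CM Pool.Agent.W437.HC
  Pool.Agent.W437.HD Pool.Agent.W437.HQ Pool.Agent.W548.Odd Pool.Agent.TH125 Pool.Agent.Y4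
  Pool.Agent.Y4.G

open Pool.Agent.Y4.H (exists_prims LZ Ct map_smul_aut' D_mem_LZ Dσ_mem_LZ)

open scoped ComplexOrder

variable {g : ℕ} {Z : Matrix (Fin g) (Fin g) ℂ}

namespace Pol

variable (M : Pol Z)
include M

/-- All places are full: the Lie algebra acts on each of them through at least all operators of trace
zero, and (if the dimension is not one) some conjugate of the Hodge operator is not a scalar. -/
structure Ful : Prop where
  nil : ∀ ψ : Pr Z, Nil (im (LZ Z) ψ.e) ψ.e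
  two : ∀ φ : Pr Z, mu φ + mu (M.bar φ) ≠ 1 → ∃ σ : ℂ ≃+* ℂ,
    mu (M.act σ φ) ≠ 0 ∧ mu (M.bar (M.act σ φ)) ≠ 0

/-- A coprime place is full. -/

theorem nil_of_cop (ψ : Pr Z)
    (hc : ∃ σ : ℂ ≃+* ℂ, Nat.Coprime (mu (M.act σ ψ)) (mu (M.bar (M.act σ ψ)))) :
    Nil (im (LZ Z) ψ.e) ψ.e := by
  by_cases hr : mu ψ + mu (M.bar ψ) = 1
  · exact nil_rank_one _ ψ.idem (M.trace_one hr)
  obtain ⟨σ, hσ⟩ := hc
  obtain ⟨φ, hφ, hφe⟩ := M.eqv_sa (M.act σ ψ)
  have hψ : ψ = M.act σ.symm (M.act σ ψ) := by rw [M.act_symm]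
  have hsum := M.mu_act σ ψ
  have hpos := M.mu_pos ψ
  rw [← M.mu_eqv hφe, ← M.mu_eqv (M.eqv_bar hφe)] at hσ hsum
  have p1 : 0 < mu φ := by
    rw [Nat.pos_iff_ne_zero]
    intro h0
    rw [h0, Nat.coprime_zero_left] at hσ
    omega
  have p2 : 0 < mu (M.bar φ) := by
    rw [Nat.pos_iff_ne_zero]
    intro h0
    rw [h0, Nat.coprime_zero_right] at hσ
    omega
  rw [hψ]
  refine M.nil_aut (fun σ X hX => LA_aut (σ : ℂ →+* ℂ) hX) ?_ σ.symm
  refine hφe.nil le_rfl ?_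
  have hb := fun Y => M.full_place hφ p1 p2 hσ Y
  refine nil_of_blocks (P := pr φ) (Q := qr φ) ?_ (M.pr_idem φ)
    (M.qr_idem φ) ?_ ?_ (pr_add_qr' φ) (fun Y => (hb Y).1) (fun Y => (hb Y).2)
  · rintro _ ⟨X, hX, rfl⟩ _ ⟨Y, hY, rfl⟩
    rw [br_mul φ.idem (comm_LZ φ _ hX) (comm_LZ φ _ hY)]
    exact ⟨_, LA_br hX hY, rfl⟩
  · intro h0
    have h1 := M.trace_pr φ
    rw [h0, trace_zero] at h1
    have h2 : mu φ = 0 := by exact_mod_cast h1.symm
    omega
  · intro h0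
    have h1 := M.trace_qr φ
    rw [h0, trace_zero] at h1
    have h2 : mu (M.bar φ) = 0 := by exact_mod_cast h1.symm
    omega

theorem exists_DF (hc : M.Ful) {φ : Pr Z} (hr : mu φ + mu (M.bar φ) ≠ 1) :
    ∃ D ∈ LZ Z, D * D = 1 ∧
    ((2 : ℂ)⁻¹ • (1 + D)) * φ.e ≠ 0 ∧ ((2 : ℂ)⁻¹ • (1 - D)) * φ.e ≠ 0 := by
  obtain ⟨σ, hσ1, hσ2⟩ := hc.two φ hr
  have b1 := M.trace_P σ.symm (M.act σ φ)
  have b2 := M.trace_Q σ.symm (M.act σ φ)
  rw [M.act_symm] at b1 b2
  refine ⟨_, Dσ_mem_LZ σ.symm, M.Dσ_sq σ.symm, ?_, ?_⟩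
  · intro h0
    rw [h0, trace_zero] at b1
    exact hσ1 (by exact_mod_cast b1.symm)
  · intro h0
    rw [h0, trace_zero] at b2
    exact hσ2 (by exact_mod_cast b2.symm)

theorem nil_trF (hc : M.Ful) (φ ψ : Pr Z) : Nil (im (ltr (LZ Z) φ.e ψ.e) φ.e) φ.e := by
  by_cases hr : mu φ + mu (M.bar φ) = 1
  · exact nil_rank_one _ φ.idem (M.trace_one hr)
  obtain ⟨D, hD, hD2, hP, hQ⟩ := M.exists_DF hc hr
  exact nil_ltr (fun X hX Y hY => LA_br hX hY) φ.idem
    (comm_LZ φ) (hc.nil φ) (comm_LZ ψ) hD hD2 hP hQ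

/-- Two places which are not separated are linked by an intertwining matrix. -/
theorem link_TF (hc : M.Ful) {s t : Pr Z} (hs : dag Z s.e = s.e)
    (ht : dag Z t.e = t.e) (hr : mu s + mu (M.bar s) ≠ 1)
    (h1 : ∀ X ∈ LZ Z, X * s.e = 0 → ∃ lam : ℂ, X * t.e = lam • t.e)
    (h2 : ∀ X ∈ LZ Z, X * t.e = 0 → ∃ lam : ℂ, X * s.e = lam • s.e) :
    ∃ t', (t' = t ∨ t' = M.bar t) ∧ ∃ T : Matrix (Fin g ⊕ Fin g) (Fin g ⊕ Fin g) ℂ, T ≠ 0 ∧
      t'.e * T = T ∧ T * s.e = T ∧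
      ∀ X ∈ ltr (LZ Z) s.e t.e, X * T = T * X := by
  obtain ⟨S, Si, H, hR⟩ := M.herm
  have hSSi := H.SSi
  have hSiS := H.SiS
  have hce : ∀ φ : Pr Z, ∀ X ∈ LZ Z, X * φ.e = φ.e * X := fun φ X hX =>
    comm_LZ φ _ hX
  have hcj : ∀ X Y : Matrix (Fin g ⊕ Fin g) (Fin g ⊕ Fin g) ℂ,
      (S * X * Si) * (S * Y * Si) = S * (X * Y) * Si := by
    intro X Y
    calc (S * X * Si) * (S * Y * Si) = S * X * (Si * S) * Y * Si := by noncomm_ring
    _ = _ := by rw [hSiS]; noncomm_ring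
  have hlr : ∀ (φ : Pr Z) X, lr S (φ.e * Si) X = S * (X * φ.e) * Si := by
    intro φ X
    rw [lr_apply]
    noncomm_ring
  have hkey : ∀ V V' : Matrix (Fin g ⊕ Fin g) (Fin g ⊕ Fin g) ℂ, S * V * Si = S * V' * Si →
      V = V' := by
    intro V V' h
    have h3 := congrArg (fun W => Si * W * S) h
    have h4 : ∀ W : Matrix (Fin g ⊕ Fin g) (Fin g ⊕ Fin g) ℂ, Si * (S * W * Si) * S = W := by
      intro W
      calc Si * (S * W * Si) * S = (Si * S) * W * (Si * S) := by noncomm_ring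
      _ = W := by rw [hSiS, one_mul, mul_one]
    simp only [h4] at h3
    exact h3
  have htrc : ∀ X : Matrix (Fin g ⊕ Fin g) (Fin g ⊕ Fin g) ℂ, trace (S * X * Si) = trace X := by
    intro X
    rw [trace_mul_comm, ← mul_assoc, hSiS, one_mul]
  obtain ⟨K, hK⟩ : ∃ K, K = ltr (LZ Z) s.e t.e := ⟨_, rfl⟩
  obtain ⟨ε, hε⟩ : ∃ ε, ε = S * s.e * Si := ⟨_, rfl⟩
  obtain ⟨η, hη⟩ : ∃ η, η = S * t.e * Si := ⟨_, rfl⟩
  have hbrm : ∀ φ : Pr Z, ∀ X ∈ LZ Z, ∀ Y ∈ LZ Z,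
      (S * (X * φ.e) * Si) * (S * (Y * φ.e) * Si) -
      (S * (Y * φ.e) * Si) * (S * (X * φ.e) * Si) = S * ((X * Y - Y * X) * φ.e) * Si := by
    intro φ X hX Y hY
    rw [hcj, hcj, ← br_mul φ.idem (hce φ X hX) (hce φ Y hY)]
    noncomm_ring
  have hadm : ∀ φ : Pr Z, dag Z φ.e = φ.e → ∀ X ∈ LZ Z,
      S * ((Si * Siᴴ * Xᴴ * (Sᴴ * S)) * φ.e) * Si = (S * (X * φ.e) * Si)ᴴ := by
    intro φ hφ X hX
    have hX' := H.adj X hX
    have h1 := sa_conj hSSi hR (M.e_sa hφ)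
    have h2 : S * (Si * Siᴴ * Xᴴ * (Sᴴ * S)) * Si = (S * X * Si)ᴴ := by
      rw [conjTranspose_mul, conjTranspose_mul]
      calc S * (Si * Siᴴ * Xᴴ * (Sᴴ * S)) * Si = (S * Si) * Siᴴ * Xᴴ * Sᴴ * (S * Si) := by
            noncomm_ring
      _ = _ := by rw [hSSi]; noncomm_ring
    rw [hce φ _ hX', ← hcj, h2, ← h1, ← conjTranspose_mul, hcj]
  let f : Matrix (Fin g ⊕ Fin g) (Fin g ⊕ Fin g) ℂ →ₗ[ℂ]
      (Matrix (Fin g ⊕ Fin g) (Fin g ⊕ Fin g) ℂ × Matrix (Fin g ⊕ Fin g) (Fin g ⊕ Fin g) ℂ) :=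
    (lr S (s.e * Si)).prod (lr S (t.e * Si))
  have hf : ∀ X, f X = (S * (X * s.e) * Si, S * (X * t.e) * Si) := by
    intro X
    ext1
    · exact hlr s X
    · exact hlr t X
  have hKL : ∀ X ∈ K, X ∈ LZ Z := by
    intro X hX
    rw [hK] at hX
    exact hX.1
  have hK1 : ∀ X ∈ K, trace (X * s.e) = 0 := by
    intro X hX
    rw [hK] at hX
    exact hX.2.1
  have hK2 : ∀ X ∈ K, trace (X * t.e) = 0 := by
    intro X hX
    rw [hK] at hX
    exact hX.2.2
  have hKnil : Nil (im K s.e) s.e := by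
    rw [hK]
    exact M.nil_trF hc s t
  have hKnil' : Nil (im K t.e) t.e := by
    rw [hK, ltr_comm]
    exact M.nil_trF hc t s
  have hnilgen : ∀ φ : Pr Z, Nil (im K φ.e) φ.e → ∀ v l : Fin g ⊕ Fin g → ℂ,
      (S * φ.e * Si) *ᵥ v = v → l ᵥ* (S * φ.e * Si) = l → l ⬝ᵥ v = 0 →
      ∃ X ∈ K, S * (X * φ.e) * Si = vecMulVec v l := by
    intro φ hn v l hv hl hlv
    obtain ⟨X, hX, hXv⟩ := hn (Si *ᵥ v) (l ᵥ* S) (by
      nth_rewrite 2 [← hv]
      rw [mulVec_mulVec, mulVec_mulVec, ← mul_assoc, ← mul_assoc, hSiS, one_mul]) (by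
      nth_rewrite 2 [← hl]
      rw [vecMul_vecMul, vecMul_vecMul, mul_assoc (S * φ.e), hSiS, mul_one]) (by
      rw [dotProduct_mulVec, vecMul_vecMul, hSSi, vecMul_one, hlv])
    refine ⟨X, hX, ?_⟩
    rw [hXv, mul_vecMulVec, mulVec_mulVec, hSSi, one_mulVec, vecMulVec_mul, vecMul_vecMul, hSSi,
      vecMul_one]
  have hL : Link (K.map f) ε η :=
    { br := by
        rintro _ ⟨X, hX, rfl⟩ _ ⟨Y, hY, rfl⟩
        refine ⟨X * Y - Y * X, ?_, ?_⟩
        · have hX' := hKL X hX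
          rw [hK] at hY ⊢
          exact ltr_ideal (fun X hX Y hY => LA_br hX hY) (hce s) (hce t) X hX' Y hY
        · rw [hf, hf, hf]
          ext1
          · exact (hbrm s X (hKL X hX) Y (hKL Y hY)).symm
          · exact (hbrm t X (hKL X hX) Y (hKL Y hY)).symm
      ad := by
        rintro _ ⟨X, hX, rfl⟩
        have hX' := hKL X hX
        refine ⟨Si * Siᴴ * Xᴴ * (Sᴴ * S), ?_, ?_⟩
        · have a1 := hK1 X hX
          have a2 := hK2 X hX
          rw [hK]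
          refine ⟨H.adj X hX', ?_, ?_⟩
          · rw [← htrc, hadm s hs X hX', trace_conjTranspose, htrc, a1, star_zero]
          · rw [← htrc, hadm t ht X hX', trace_conjTranspose, htrc, a2, star_zero]
        · rw [hf, hf]
          ext1
          · exact hadm s hs X hX'
          · exact hadm t ht X hX'
      c1l := by
        rintro _ ⟨X, hX, rfl⟩
        rw [hf, hε]
        change (S * s.e * Si) * (S * (X * s.e) * Si) = S * (X * s.e) * Si
        rw [hcj, ← mul_assoc s.e, ← hce s X (hKL X hX), mul_assoc X, Pr.idem]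
      c1r := by
        rintro _ ⟨X, hX, rfl⟩
        rw [hf, hε]
        change (S * (X * s.e) * Si) * (S * s.e * Si) = S * (X * s.e) * Si
        rw [hcj, mul_assoc X, Pr.idem]
      c2l := by
        rintro _ ⟨X, hX, rfl⟩
        rw [hf, hη]
        change (S * t.e * Si) * (S * (X * t.e) * Si) = S * (X * t.e) * Si
        rw [hcj, ← mul_assoc t.e, ← hce t X (hKL X hX), mul_assoc X, Pr.idem]
      c2r := by
        rintro _ ⟨X, hX, rfl⟩
        rw [hf, hη]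
        change (S * (X * t.e) * Si) * (S * t.e * Si) = S * (X * t.e) * Si
        rw [hcj, mul_assoc X, Pr.idem]
      tr1 := by
        rintro _ ⟨X, hX, rfl⟩
        rw [hf]
        change trace (S * (X * s.e) * Si) = 0
        rw [htrc, hK1 X hX]
      tr2 := by
        rintro _ ⟨X, hX, rfl⟩
        rw [hf]
        change trace (S * (X * t.e) * Si) = 0
        rw [htrc, hK2 X hX]
      nil1 := by
        intro v l hv hl hlv
        rw [hε] at hv hl
        obtain ⟨X, hX, hXv⟩ := hnilgen s hKnil v l hv hl hlv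
        refine ⟨S * (X * t.e) * Si, X, hX, ?_⟩
        rw [hf, hXv]
      nil2 := by
        intro v l hv hl hlv
        rw [hη] at hv hl
        obtain ⟨X, hX, hXv⟩ := hnilgen t hKnil' v l hv hl hlv
        refine ⟨S * (X * s.e) * Si, X, hX, ?_⟩
        rw [hf, hXv]
      inj1 := by
        rintro _ ⟨X, hX, rfl⟩ h0
        rw [hf] at h0 ⊢
        change S * (X * s.e) * Si = 0 at h0
        change S * (X * t.e) * Si = 0
        have h3 : X * s.e = 0 := hkey _ _ (by rw [h0, mul_zero, zero_mul])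
        obtain ⟨lam, hlam⟩ := h1 X (hKL X hX) h3
        have h4 := hK2 X hX
        rw [hlam, trace_smul, smul_eq_mul] at h4
        rw [hlam, (mul_eq_zero.1 h4).resolve_right (M.trace_ne t), zero_smul, mul_zero,
          zero_mul]
      inj2 := by
        rintro _ ⟨X, hX, rfl⟩ h0
        rw [hf] at h0 ⊢
        change S * (X * t.e) * Si = 0 at h0
        change S * (X * s.e) * Si = 0
        have h3 : X * t.e = 0 := hkey _ _ (by rw [h0, mul_zero, zero_mul])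
        obtain ⟨lam, hlam⟩ := h2 X (hKL X hX) h3
        have h4 := hK1 X hX
        rw [hlam, trace_smul, smul_eq_mul] at h4
        rw [hlam, (mul_eq_zero.1 h4).resolve_right (M.trace_ne s), zero_smul, mul_zero,
          zero_mul]
      ee := by rw [hε, hcj, Pr.idem]
      eH := by
        rw [hε]
        exact sa_conj hSSi hR (M.e_sa hs)
      hh := by rw [hη, hcj, Pr.idem]
      hH := by
        rw [hη]
        exact sa_conj hSSi hR (M.e_sa ht) }
  -- the first vectors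
  obtain ⟨D, hD, hD2, hP, hQ⟩ := M.exists_DF hc hr
  obtain ⟨hPP, hQQ, hQP⟩ := proj_facts hD2
  obtain ⟨P, hPd⟩ : ∃ P, P = (2 : ℂ)⁻¹ • (1 + D) := ⟨_, rfl⟩
  obtain ⟨Q, hQd⟩ : ∃ Q, Q = (2 : ℂ)⁻¹ • (1 - D) := ⟨_, rfl⟩
  rw [← hPd] at hP hPP hQP
  rw [← hQd] at hQ hQQ hQP
  have hPe := comm_half hPd (hce s D hD)
  have hQe := comm_half' hQd (hce s D hD)
  obtain ⟨w, _, hw, _, hw1⟩ := exists_pair (ε := P * s.e) (by
    rw [mul_assoc, ← mul_assoc s.e, ← hPe, mul_assoc P s.e, Pr.idem, ← mul_assoc,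
      hPP]) hP
  obtain ⟨_, k, _, hk, hk1⟩ := exists_pair (ε := Q * s.e) (by
    rw [mul_assoc, ← mul_assoc s.e, ← hQe, mul_assoc Q s.e, Pr.idem, ← mul_assoc,
      hQQ]) hQ
  have hw0 : w ≠ 0 := by
    rintro rfl
    rw [dotProduct_zero] at hw1
    exact zero_ne_one hw1
  have hk0 : k ≠ 0 := by
    rintro rfl
    rw [zero_dotProduct] at hk1
    exact zero_ne_one hk1
  have hsw : s.e *ᵥ w = w := by
    rw [← hw, mulVec_mulVec, ← mul_assoc, ← hPe, mul_assoc, Pr.idem]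
  have hsk : k ᵥ* s.e = k := by
    rw [← hk, vecMul_vecMul, mul_assoc, Pr.idem]
  have hkw : k ⬝ᵥ w = 0 := by
    rw [← hw, ← hk, ← dotProduct_mulVec, mulVec_mulVec]
    have h3 : Q * s.e * (P * s.e) = 0 := by
      rw [mul_assoc, ← mul_assoc s.e, ← hPe, mul_assoc P s.e, Pr.idem, ← mul_assoc,
        hQP, zero_mul]
    rw [h3, zero_mulVec, dotProduct_zero]
  have hinjS : ∀ v : Fin g ⊕ Fin g → ℂ, S *ᵥ v = 0 → v = 0 := by
    intro v hv
    have h3 := congrArg (fun z => Si *ᵥ z) hv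
    simp only [mulVec_mulVec, mulVec_zero] at h3
    rw [hSiS, one_mulVec] at h3
    exact h3
  have hinjSi : ∀ v : Fin g ⊕ Fin g → ℂ, v ᵥ* Si = 0 → v = 0 := by
    intro v hv
    have h3 := congrArg (fun z => z ᵥ* S) hv
    simp only [vecMul_vecMul, zero_vecMul] at h3
    rw [hSiS, vecMul_one] at h3
    exact h3
  have hηne : η ≠ 0 := by
    intro h0
    apply t.ne
    exact hkey _ _ (by rw [← hη, h0, mul_zero, zero_mul])
  have hmain := hL.main (l := k ᵥ* Si) (w0 := S *ᵥ w)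
    (by
      rw [hε, vecMul_vecMul, ← mul_assoc, ← mul_assoc, hSiS, one_mul, ← vecMul_vecMul, hsk])
    (by
      rw [hε, mulVec_mulVec, mul_assoc, hSiS, mul_one, ← mulVec_mulVec, hsw])
    (by rw [dotProduct_mulVec, vecMul_vecMul, hSiS, vecMul_one, hkw])
    (fun h0 => hw0 (hinjS w h0)) (fun h0 => hk0 (hinjSi k h0)) hηne
  rcases hmain with ⟨T, hT0, hT1, hT2, hT⟩ | ⟨T, hT0, hT1, hT2, hT⟩
  · refine ⟨t, Or.inl rfl, Si * T * S, ?_, ?_, ?_, ?_⟩
    · intro h0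
      apply hT0
      have h3 : S * (Si * T * S) * Si = T := by
        calc S * (Si * T * S) * Si = (S * Si) * T * (S * Si) := by noncomm_ring
        _ = T := by rw [hSSi, one_mul, mul_one]
      rw [← h3, h0, mul_zero, zero_mul]
    · have h3 : t.e * Si * T = Si * T := by
        nth_rewrite 2 [← hT1]
        rw [hη, ← mul_assoc, ← mul_assoc, ← mul_assoc, hSiS, one_mul]
      calc t.e * (Si * T * S) = t.e * Si * T * S := by noncomm_ring
      _ = _ := by rw [h3]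
    · have h3 : T * S * s.e = T * S := by
        nth_rewrite 2 [← hT2]
        rw [hε, mul_assoc, mul_assoc, mul_assoc, mul_assoc, hSiS, mul_one]
      calc Si * T * S * s.e = Si * (T * S * s.e) := by noncomm_ring
      _ = _ := by rw [h3]; noncomm_ring
    · intro X hX
      rw [← hK] at hX
      have h3 := hT _ ⟨X, hX, rfl⟩
      rw [hf] at h3
      change S * (X * t.e) * Si * T = T * (S * (X * s.e) * Si) at h3
      have h4 : t.e * Si * T = Si * T := by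
        nth_rewrite 2 [← hT1]
        rw [hη, ← mul_assoc, ← mul_assoc, ← mul_assoc, hSiS, one_mul]
      have h5 : T * S * s.e = T * S := by
        nth_rewrite 2 [← hT2]
        rw [hε, mul_assoc, mul_assoc, mul_assoc, mul_assoc, hSiS, mul_one]
      calc X * (Si * T * S) = X * (Si * T) * S := by noncomm_ring
      _ = X * (t.e * Si * T) * S := by rw [h4]
      _ = (Si * S) * X * (t.e * Si * T) * S := by rw [hSiS, one_mul]
      _ = Si * (S * (X * t.e) * Si * T) * S := by noncomm_ring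
      _ = Si * (T * (S * (X * s.e) * Si)) * S := by rw [h3]
      _ = Si * T * S * (X * s.e) * (Si * S) := by noncomm_ring
      _ = Si * (T * S * s.e) * X := by rw [hSiS, hce s X (hKL X hX)]; noncomm_ring
      _ = Si * T * S * X := by rw [h5]; noncomm_ring
  · have hST : Sᵀ * Siᵀ = 1 := by rw [← transpose_mul, hSiS, transpose_one]
    have hTS : Siᵀ * Sᵀ = 1 := by rw [← transpose_mul, hSSi, transpose_one]
    have h4 : t.eᵀ * Sᵀ * T = Sᵀ * T := by
      nth_rewrite 2 [← hT1]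
      rw [hη, transpose_mul, transpose_mul, ← mul_assoc, ← mul_assoc, ← mul_assoc, hST, one_mul]
    have h5 : T * S * s.e = T * S := by
      nth_rewrite 2 [← hT2]
      rw [hε, mul_assoc, mul_assoc, mul_assoc, mul_assoc, hSiS, mul_one]
    refine ⟨M.bar t, Or.inr rfl, Om g ℂ * Sᵀ * T * S, ?_, ?_, ?_, ?_⟩
    · intro h0
      apply hT0
      have h3 : Siᵀ * (-(Om g ℂ) * (Om g ℂ * Sᵀ * T * S)) * Si = T := by
        calc Siᵀ * (-(Om g ℂ) * (Om g ℂ * Sᵀ * T * S)) * Si =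
            -(Siᵀ * ((Om g ℂ * Om g ℂ) * Sᵀ * T * (S * Si))) := by noncomm_ring
        _ = (Siᵀ * Sᵀ) * T := by rw [Om_sq, hSSi]; noncomm_ring
        _ = T := by rw [hTS, one_mul]
      rw [← h3, h0, mul_zero, mul_zero, zero_mul]
    · calc (M.bar t).e * (Om g ℂ * Sᵀ * T * S) =
          ((M.bar t).e * Om g ℂ) * Sᵀ * T * S := by noncomm_ring
      _ = Om g ℂ * (t.eᵀ * Sᵀ * T) * S := by rw [← M.Om_eT]; noncomm_ring
      _ = _ := by rw [h4]; noncomm_ring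
    · calc Om g ℂ * Sᵀ * T * S * s.e = Om g ℂ * Sᵀ * (T * S * s.e) := by noncomm_ring
      _ = _ := by rw [h5]; noncomm_ring
    · intro X hX
      rw [← hK] at hX
      have hXL := hKL X hX
      have h3 := hT _ ⟨X, hX, rfl⟩
      rw [hf] at h3
      change -(S * (X * t.e) * Si)ᵀ * T = T * (S * (X * s.e) * Si) at h3
      rw [transpose_mul, transpose_mul] at h3
      have h6 : X * Om g ℂ = -(Om g ℂ * Xᵀ) := by rw [M.Om_LT hXL, neg_neg]
      calc X * (Om g ℂ * Sᵀ * T * S) = (X * Om g ℂ) * (Sᵀ * T) * S := by noncomm_ring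
      _ = -(Om g ℂ * Xᵀ) * (t.eᵀ * Sᵀ * T) * S := by rw [h6, h4]
      _ = -(Om g ℂ * (t.e * X)ᵀ * Sᵀ * T * S) := by rw [transpose_mul]; noncomm_ring
      _ = -(Om g ℂ * (X * t.e)ᵀ * Sᵀ * T * S) := by rw [← hce t X hXL]
      _ = Om g ℂ * (Sᵀ * Siᵀ) * (-((X * t.e)ᵀ * Sᵀ) * T) * S := by rw [hST]; noncomm_ring
      _ = Om g ℂ * Sᵀ * (-(Siᵀ * ((X * t.e)ᵀ * Sᵀ)) * T) * S := by noncomm_ring
      _ = Om g ℂ * Sᵀ * (T * (S * (X * s.e) * Si)) * S := by rw [h3]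
      _ = Om g ℂ * Sᵀ * T * S * (X * s.e) * (Si * S) := by noncomm_ring
      _ = Om g ℂ * Sᵀ * (T * S * s.e) * X := by rw [hSiS, hce s X hXL]; noncomm_ring
      _ = Om g ℂ * Sᵀ * T * S * X := by rw [h5]; noncomm_ring

/-- **Separation** of two places. -/
theorem nil_krF (hc : M.Ful) (hsep : M.Sep) {s t : Pr Z} (hs : dag Z s.e = s.e)
    (ht : dag Z t.e = t.e) (hts : ¬ Eqv t s) (htb : ¬ Eqv t (M.bar s)) :
    Nil (im (kr (LZ Z) t.e) s.e) s.e := by
  by_cases hr : mu s + mu (M.bar s) = 1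
  · exact nil_rank_one _ s.idem (M.trace_one hr)
  by_contra hcon
  have hbr : ∀ X ∈ LZ Z, ∀ Y ∈ LZ Z, X * Y - Y * X ∈ LZ Z :=
    fun X hX Y hY => LA_br hX hY
  have hce : ∀ φ : Pr Z, ∀ X ∈ LZ Z, X * φ.e = φ.e * X := comm_LZ
  have a2 : ∀ X ∈ LZ Z, X * t.e = 0 → ∃ lam : ℂ, X * s.e = lam • s.e := by
    intro X hX h0
    by_contra hns
    push Not at hns
    exact hcon (nil_im_of_ideal s.idem (hce s) (hc.nil s) kr_le
      (kr_ideal hbr (hce t)) (⟨hX, h0⟩ : X ∈ kr _ t.e) hns)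
  obtain ⟨D, hD, hD2, hP, hQ⟩ := M.exists_DF hc hr
  have hrt : mu t + mu (M.bar t) ≠ 1 := by
    intro hrt
    obtain ⟨X, hX, hPX, hXQ, hX0⟩ := exists_deg hbr s.idem (hce s) (hc.nil s) hD hD2 hP hQ
    obtain ⟨hPP', hQQ', hQP'⟩ := proj_facts hD2
    have h3 : X * t.e = 0 := by
      refine zero_of_rank_one t.idem (M.trace_one hrt) ?_ ?_
        (trace_deg hQP' hPX hXQ (comm_half' rfl (hce t D hD)))
      · rw [← mul_assoc, ← hce t X hX, mul_assoc, Pr.idem]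
      · rw [mul_assoc, Pr.idem]
    obtain ⟨lam, hlam⟩ := a2 X hX h3
    exact not_scalar hQP' hPX hXQ s.idem (hce s X hX) hX0 lam hlam
  have a1 : ∀ X ∈ LZ Z, X * s.e = 0 → ∃ lam : ℂ, X * t.e = lam • t.e := by
    intro X hX h0
    by_contra hns
    push Not at hns
    exact hcon (nil_swap hbr s.idem (hce s) (hc.nil s) t.idem (hce t)
      (nil_im_of_ideal t.idem (hce t) (hc.nil t) kr_le
        (kr_ideal hbr (hce s)) (⟨hX, h0⟩ : X ∈ kr _ s.e) hns) hD hD2 hP hQ)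
  obtain ⟨t', ht', T, hT0, hT1, hT2, hT⟩ := M.link_TF hc hs ht hr a1 a2
  have hK : ltr (LZ Z) s.e t'.e = ltr (LZ Z) s.e t.e := by
    rcases ht' with rfl | rfl
    · rfl
    · exact M.ltr_bar s t
  rw [← hK] at hT
  have ht's : ¬ Eqv t' s := by
    rcases ht' with rfl | rfl
    · exact hts
    · intro h
      have h1 := M.eqv_bar h
      rw [M.bar_bar] at h1
      exact htb h1
  have ht'b : ¬ Eqv t' (M.bar s) := by
    rcases ht' with rfl | rfl
    · exact htb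
    · intro h
      have h1 := M.eqv_bar h
      rw [M.bar_bar, M.bar_bar] at h1
      exact hts h1
  have hinj : ∀ X ∈ ltr (LZ Z) s.e t'.e, X * s.e = 0 → X * t'.e = 0 := by
    rintro X ⟨hX, -, hX2⟩ h0
    obtain ⟨lam, hlam⟩ : ∃ lam : ℂ, X * t'.e = lam • t'.e := by
      obtain ⟨lam, hlam⟩ := a1 X hX h0
      rcases ht' with rfl | rfl
      · exact ⟨lam, hlam⟩
      · exact ⟨-lam, M.scal_bar hX hlam⟩
    rw [hlam, trace_smul, smul_eq_mul] at hX2
    rw [hlam, (mul_eq_zero.1 hX2).resolve_right (M.trace_ne t'), zero_smul]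
  have hsemi := semi (K := ltr (LZ Z) s.e t'.e) s.idem (hce s)
    t'.idem (hce t') ltr_le (ltr_ideal hbr (hce s) (hce t')) (M.nil_trF hc s t')
    (by rw [ltr_comm]; exact M.nil_trF hc t' s) hinj s.ne hT1 hT2 hT
  have hker := M.inj_T hT0 hT2 hsemi
  have hrr : mu s + mu (M.bar s) = mu t' + mu (M.bar t') := by
    refine le_antisymm ?_ (M.surj_T hT0 hT1 hT2 hsemi)
    refine rank_cmp (T := T) s.idem t'.idem (M.trace_e s) (M.trace_e t') ?_ hker
    rw [hT2, hT1, hT2]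
  -- the weights
  have key : ∀ σ : ℂ ≃+* ℂ, ∃ χ : ℂ, (DZ Z).map (σ : ℂ →+* ℂ) * T - T * (DZ Z).map (σ : ℂ →+* ℂ) =
      χ • T ∧ ((χ = 0 ∧ mu (M.act σ.symm s) = mu (M.act σ.symm t')) ∨
      (mu (M.act σ.symm s) = 0 ∧ mu (M.bar (M.act σ.symm t')) = 0) ∨
      (mu (M.bar (M.act σ.symm s)) = 0 ∧ mu (M.act σ.symm t') = 0)) := by
    intro σ
    obtain ⟨χ, hχ⟩ := hsemi _ (Dσ_mem_LZ σ)
    refine ⟨χ, hχ, ?_⟩
    have e1 := M.trace_P σ (M.act σ.symm s)
    have e2 := M.trace_Q σ (M.act σ.symm s)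
    have e3 := M.trace_P σ (M.act σ.symm t')
    have e4 := M.trace_Q σ (M.act σ.symm t')
    rw [M.act_symm'] at e1 e2 e3 e4
    refine dich s.idem t'.idem (hce s _ (Dσ_mem_LZ σ))
      (hce t' _ (Dσ_mem_LZ σ)) (M.Dσ_sq σ) hT0 hT1 hT2 hker hχ e1 e2 e3 e4 ?_
    rw [M.mu_act, M.mu_act, hrr]
  have hall := hsep s t' ht's ht'b hrr hr (by
    intro σ
    obtain ⟨χ, -, h⟩ := key σ.symm
    rw [RingEquiv.symm_symm] at h
    rcases h with ⟨-, h⟩ | ⟨h, h'⟩ | ⟨h, h'⟩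
    · exact Or.inl h
    · right
      rw [h, h', zero_mul, mul_zero]
      exact ⟨rfl, rfl⟩
    · right
      rw [h, h', zero_mul, mul_zero]
      exact ⟨rfl, rfl⟩)
  have hcomm : ∀ σ : ℂ ≃+* ℂ, (DZ Z).map (σ : ℂ →+* ℂ) * T = T * (DZ Z).map (σ : ℂ →+* ℂ) := by
    intro σ
    obtain ⟨χ, hχ, h⟩ := key σ
    have h1 := hall σ.symm
    have h2 := M.mu_pos (M.act σ.symm s)
    have h3 := M.mu_pos (M.act σ.symm t')
    rcases h with ⟨h, -⟩ | ⟨h, h'⟩ | ⟨h, h'⟩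
    · rw [h, zero_smul, sub_eq_zero] at hχ
      exact hχ
    · exfalso
      omega
    · exfalso
      omega
  -- the intertwining matrix is in the commutant
  let CT : Submodule ℂ (Matrix (Fin g ⊕ Fin g) (Fin g ⊕ Fin g) ℂ) :=
    { carrier := {X | X * T = T * X}
      zero_mem' := by
        change 0 * T = T * 0
        rw [zero_mul, mul_zero]
      add_mem' := by
        intro X Y hX hY
        change (X + Y) * T = T * (X + Y)
        rw [add_mul, mul_add, hX, hY]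
      smul_mem' := by
        intro c X hX
        change (c • X) * T = T * (c • X)
        rw [Matrix.smul_mul, Matrix.mul_smul, hX] }
  have hLC : LZ Z ≤ CT := by
    refine LA_le_of_conj ?_ ?_
    · rintro _ ⟨Z', hZ', rfl⟩ σ
      rw [Set.mem_singleton_iff.1 hZ']
      exact hcomm σ
    · intro X hX Y hY
      change (X * Y - Y * X) * T = T * (X * Y - Y * X)
      change X * T = T * X at hX
      change Y * T = T * Y at hY
      rw [sub_mul, mul_sub, mul_assoc X, hY, ← mul_assoc X, hX, mul_assoc Y, hX, ← mul_assoc Y, hY,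
        mul_assoc, mul_assoc]
  have hTC : Ct Z T := fun X hX => (hLC hX).symm
  refine ht's (M.eqv_of_ne s t' hTC ?_).symm
  rw [hT1, hT2]
  exact hT0

section

variable {I : Type} [Fintype I] {ε : I → Pr Z}

/-- Elements supported at one place. -/
theorem nil_oneF [DecidableEq I] (F : Fam ε) (hc : M.Ful) (hsep : M.Sep) (j : I)
    (T : Finset I) (hT : ∀ i ∈ T, ¬ Eqv (ε i) (ε j) ∧ ¬ Eqv (ε i) (M.bar (ε j))) :
    Nil (im (krs (LZ Z) (fun i => (ε i).e) T) (ε j).e) (ε j).e := by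
  refine nil_krs (ε j).idem (fun X hX Y hY => LA_br hX hY)
    (comm_LZ (ε j)) (hc.nil (ε j)) _ (fun i => comm_LZ (ε i)) _ fun i hi => ?_
  exact M.nil_krF hc hsep (F.sa j) (F.sa i) (hT i hi).1 (hT i hi).2

variable {c : Matrix (Fin g ⊕ Fin g) (Fin g ⊕ Fin g) ℂ}

/-- Elements orthogonal to the Lie algebra are scalars at each place. -/
theorem scalar_placeF (F : Fam ε) (hcop : M.Ful) (hsep : M.Sep)
    (hce : ∀ d, Ct Z d → c * d = d * c)
    (hsp : cᵀ * Om g ℂ + Om g ℂ * c = 0)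
    (horth : ∀ X ∈ LZ Z, trace (c * X) = 0) (j : I) :
    ∃ lam : ℂ, c * (ε j).e = lam • (ε j).e := by
  classical
  obtain ⟨φ, hφ⟩ : ∃ φ, φ = ε j := ⟨_, rfl⟩
  rw [← hφ]
  have hcφ : ∀ ψ : Pr Z, c * ψ.e = ψ.e * c := fun ψ => hce _ ψ.mem
  refine scalar_of_nil φ.idem ?_ ?_ ?_
  · rw [← mul_assoc, ← hcφ, mul_assoc, Pr.idem]
  · rw [mul_assoc, Pr.idem]
  intro v k hv hk hkv
  obtain ⟨X, ⟨hX, hX0⟩, hXv⟩ := M.nil_oneF F hcop hsep j
    (Finset.univ.filter fun i => ¬ (Eqv (ε i) φ ∨ Eqv (ε i) (M.bar φ))) (by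
      intro i hi
      rw [Finset.mem_filter, not_or, hφ] at hi
      exact hi.2) v k (by rw [← hφ, hv]) (by rw [← hφ, hk]) hkv
  rw [← hφ] at hXv
  have hXe : ∀ ψ : Pr Z, X * ψ.e = ψ.e * X := fun ψ => comm_LZ ψ X hX
  -- symmetry
  have hsym : trace (c * X * (M.bar φ).e) = trace (c * X * φ.e) := by
    have h1 : ∀ Y : Matrix (Fin g ⊕ Fin g) (Fin g ⊕ Fin g) ℂ,
        Yᵀ * Om g ℂ + Om g ℂ * Y = 0 → Om g ℂ * Yᵀ = -(Y * Om g ℂ) := by
      intro Y hY
      have h2 : Yᵀ * Om g ℂ = -(Om g ℂ * Y) := eq_neg_of_add_eq_zero_left hY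
      have h3 : Om g ℂ * (Yᵀ * Om g ℂ) * Om g ℂ = Om g ℂ * -(Om g ℂ * Y) * Om g ℂ := by rw [h2]
      rw [mul_assoc, mul_assoc Yᵀ, Om_sq, mul_neg_one, mul_neg, mul_neg, ← mul_assoc, Om_sq,
        neg_one_mul, neg_neg] at h3
      rw [← h3, neg_neg]
    have h2 := h1 c hsp
    have h3 := M.Om_LT hX
    -- transpose
    have h5 : Om g ℂ * (c * X * φ.e)ᵀ = (M.bar φ).e * X * c * Om g ℂ := by
      rw [transpose_mul, transpose_mul, ← mul_assoc, M.Om_eT, mul_assoc, ← mul_assoc (Om g ℂ), h3,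
        neg_mul, mul_assoc X, h2]
      noncomm_ring
    have h6 : trace (Om g ℂ * (c * X * φ.e)ᵀ * -Om g ℂ) = trace (c * X * φ.e) := by
      rw [trace_mul_comm, ← mul_assoc, neg_mul, Om_sq, neg_neg, one_mul, trace_transpose]
    rw [← h6, h5, mul_assoc _ (Om g ℂ), mul_neg, Om_sq, neg_neg, mul_one, ← hXe,
      trace_mul_comm (X * (M.bar φ).e) c, ← mul_assoc]
  have hcX : ∀ d, Ct Z d → d * (c * X) = c * X * d := by
    intro d hd
    rw [← mul_assoc, ← hce d hd, mul_assoc, hd X hX, mul_assoc]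
  have hterm : ∀ i, trace (c * X * (ε i).e) =
      if Eqv (ε i) φ ∨ Eqv (ε i) (M.bar φ) then trace (c * X * φ.e) else 0 := by
    intro i
    by_cases h : Eqv (ε i) φ ∨ Eqv (ε i) (M.bar φ)
    · rw [if_pos h]
      rcases h with h | h
      · exact h.trace hcX
      · rw [h.trace hcX, hsym]
    · rw [if_neg h, mul_assoc, hX0 i (Finset.mem_filter.2 ⟨Finset.mem_univ _, h⟩), mul_zero,
        trace_zero]
  have htr : trace (c * X * φ.e) = 0 := by
    have h1 : trace (c * X) = ∑ i, trace (c * X * (ε i).e) := by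
      rw [← trace_sum, ← Finset.mul_sum, F.sum, mul_one]
    rw [horth X hX, Finset.sum_congr rfl (fun i _ => hterm i), ← Finset.sum_filter,
      Finset.sum_const, nsmul_eq_mul] at h1
    rcases mul_eq_zero.1 h1.symm with h2 | h2
    · exfalso
      have h3 := Nat.cast_eq_zero.1 h2
      rw [Finset.card_eq_zero] at h3
      have h4 : j ∈ (Finset.univ.filter fun i => Eqv (ε i) φ ∨ Eqv (ε i) (M.bar φ)) :=
        Finset.mem_filter.2 ⟨Finset.mem_univ _, Or.inl (by rw [hφ]; exact Eqv.refl _)⟩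
      rw [h3] at h4
      exact absurd h4 (Finset.notMem_empty j)
    · exact h2
  rw [mul_assoc, hXv, mul_vecMulVec, trace_vecMulVec, dotProduct_comm] at htr
  rw [← mulVec_mulVec, hv]
  exact htr

end

end Pol

end Pool.Agent.Y4.K

namespace Pool.Agent.Q180.UV

open Matrix Module Pool.Agent.H204R3.CM Pool.Agent.H194R3.CM Pool.Agent.W437.HC
  Pool.Agent.W437.HD Pool.Agent.W437.HQ Pool.Agent.W548.Odd Pool.Agent.TH125 Pool.Agent.Y4
  Pool.Agent.Y4.G

open Pool.Agent.Y4.H (LZ Ct map_smul_aut' D_mem_LZ Dσ_mem_LZ)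
open Pool.Agent.Y4.K

open scoped ComplexOrder

/-- Variant of `Pool.Agent.Q180.WT.S_memtr` for full places. -/
def S_memtr : Prop :=
  ∀ (g : ℕ) (Z : Matrix (Fin g) (Fin g) ℂ) (M : Pol Z), M.Ful → M.Sep →
    ∀ N : Matrix (Fin g ⊕ Fin g) (Fin g ⊕ Fin g) ℂ, (∀ d, Ct Z d → N * d = d * N) →
      Nᵀ * Om g ℂ + Om g ℂ * N = 0 → (∀ φ : Pr Z, trace (N * φ.e) = 0) → N ∈ LZ Z

/-- Variant of `Pool.Agent.Q180.WT.S_tor` for full places. -/
def S_tor : Prop :=
  ∀ (g : ℕ) (Z : Matrix (Fin g) (Fin g) ℂ) (M : Pol Z), M.Ful → M.Sep → ∀ σ : ℂ ≃+* ℂ,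
    ∃ X ∈ LZ Z, ∀ φ : Pr Z,
      X * φ.e = (trace ((DZ Z).map (σ : ℂ →+* ℂ) * φ.e) / trace φ.e) • φ.e

theorem memtr : S_memtr := by
  intro g Z M hcop hsep N hN hsp htr
  obtain ⟨S, Si, H, hR⟩ := M.herm
  have hSiS := H.SiS
  have hSSi := H.SSi
  have hRi := M.Si_eq H hR
  obtain ⟨I, hI, ε, f1, f2, f3⟩ := M.exists_family
  obtain ⟨N1, hN1, horth⟩ := exists_proj H N
  have hce : ∀ d, Ct Z d → (N - N1) * d = d * (N - N1) := by
    intro d hd
    rw [sub_mul, mul_sub, hN d hd, hd _ hN1]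
  have hcsp : (N - N1)ᵀ * Om g ℂ + Om g ℂ * (N - N1) = 0 := by
    have h2 := M.sp_L hN1
    rw [transpose_sub, sub_mul, mul_sub]
    have h3 : Nᵀ * Om g ℂ - N1ᵀ * Om g ℂ + (Om g ℂ * N - Om g ℂ * N1) =
        (Nᵀ * Om g ℂ + Om g ℂ * N) - (N1ᵀ * Om g ℂ + Om g ℂ * N1) := by abel
    rw [h3, hsp, h2, sub_zero]
  have hex : ∀ j, ∃ lam : ℂ, (N - N1) * (ε j).e = lam • (ε j).e := fun j =>
    M.scalar_placeF (ε := ε) ⟨f1, f2, f3⟩ hcop hsep hce hcsp horth j
  obtain ⟨c, hc⟩ : ∃ c, c = N - N1 := ⟨_, rfl⟩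
  rw [← hc] at hce hcsp horth hex
  choose lam hlam using hex
  have hdag : ∀ j, (ε j).e * dag Z c = star (lam j) • (ε j).e := by
    intro j
    have h1 := congrArg (dag Z) (hlam j)
    rw [M.dag_mul, f1 j, Pol.dag_smul, f1 j] at h1
    exact h1
  have hd : dag Z c = ∑ j, star (lam j) • (ε j).e := by
    calc dag Z c = (∑ j, (ε j).e) * dag Z c := by rw [f3, one_mul]
    _ = _ := by
      rw [Finset.sum_mul]
      exact Finset.sum_congr rfl fun j _ => hdag j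
  have h1 : trace (dag Z c * N) = 0 := by
    rw [hd, Finset.sum_mul, trace_sum]
    refine Finset.sum_eq_zero fun j _ => ?_
    rw [Matrix.smul_mul, trace_smul, trace_mul_comm, htr, smul_zero]
  have h2 : trace (dag Z c * N1) = 0 := by
    have h3 := horth _ (H.adj N1 hN1)
    have h4 : dag Z N1 = Si * Siᴴ * N1ᴴ * (Sᴴ * S) := by
      unfold dag
      rw [← hRi, ← hR]
    rw [← h4] at h3
    have h5 : trace (dag Z c * N1) = star (trace (c * dag Z N1)) := by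
      have h6 : (c * dag Z N1)ᴴ = Rm Z * N1 * Ri Z * cᴴ := by
        unfold dag
        rw [conjTranspose_mul, conjTranspose_mul, conjTranspose_mul, conjTranspose_conjTranspose,
          M.RH, M.RiH]
        noncomm_ring
      rw [← trace_conjTranspose, h6]
      unfold dag
      rw [trace_mul_comm]
      have h7 : Rm Z * N1 * Ri Z * cᴴ = (Rm Z * N1) * (Ri Z * cᴴ) := by noncomm_ring
      have h8 : N1 * (Ri Z * cᴴ * Rm Z) = N1 * (Ri Z * cᴴ) * Rm Z := by noncomm_ring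
      rw [h7, h8, mul_assoc, trace_mul_comm N1, trace_mul_comm (Rm Z * N1), mul_assoc]
    rw [h5, h3, star_zero]
  have h3 : trace (dag Z c * c) = 0 := by
    nth_rewrite 2 [hc]
    rw [mul_sub, trace_sub, h1, h2, sub_zero]
  have h4 : c = 0 := by
    have h5 : trace ((S * c * Si)ᴴ * (S * c * Si)) = 0 := by
      rw [← h3]
      unfold dag
      rw [← hRi, ← hR, conjTranspose_mul, conjTranspose_mul]
      have h6 : Siᴴ * (cᴴ * Sᴴ) * (S * c * Si) = (Siᴴ * cᴴ * (Sᴴ * S) * c) * Si := by noncomm_ring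
      have h7 : Si * Siᴴ * cᴴ * (Sᴴ * S) * c = Si * (Siᴴ * cᴴ * (Sᴴ * S) * c) := by noncomm_ring
      rw [h6, h7, trace_mul_comm]
    have h6 : S * c * Si = 0 := trace_conjTranspose_mul_self_eq_zero_iff.1 h5
    calc c = (Si * S) * c * (Si * S) := by rw [hSiS, one_mul, mul_one]
    _ = Si * (S * c * Si) * S := by noncomm_ring
    _ = 0 := by rw [h6, mul_zero, zero_mul]
  rw [h4] at hc
  rw [← sub_eq_zero.1 hc.symm] at hN1
  exact hN1

theorem tor : S_tor := by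
  intro g Z M hcop hsep σ
  obtain ⟨I, hI, ε, f1, f2, f3⟩ := M.exists_family
  obtain ⟨D, hD⟩ : ∃ D, D = (DZ Z).map (σ : ℂ →+* ℂ) := ⟨_, rfl⟩
  have hDL : D ∈ LZ Z := by
    rw [hD]
    exact Dσ_mem_LZ σ
  have hDc : ∀ d, Ct Z d → d * D = D * d := fun d hd => hd _ hDL
  rw [← hD]
  obtain ⟨w, hw⟩ : ∃ w : Pr Z → ℂ, ∀ φ, w φ = trace (D * φ.e) / trace φ.e :=
    ⟨fun φ => _, fun φ => rfl⟩
  have hwe : ∀ φ ψ : Pr Z, Eqv φ ψ → w φ = w ψ := by
    intro φ ψ h
    rw [hw, hw, h.trace hDc]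
    have h1 := h.trace (X := 1) (fun c _ => by rw [mul_one, one_mul])
    rw [one_mul, one_mul] at h1
    rw [h1]
  have hwb : ∀ φ : Pr Z, w (M.bar φ) = -w φ := by
    intro φ
    rw [hw, hw, M.trace_bar hDL, M.trace_e, M.trace_e, M.bar_bar, neg_div, add_comm]
  obtain ⟨c, hc⟩ : ∃ c, c = ∑ i, w (ε i) • (ε i).e := ⟨_, rfl⟩
  have hce : ∀ φ : Pr Z, c * φ.e = w φ • φ.e := by
    intro φ
    have h1 : φ.e = ∑ i, (ε i).e * φ.e := by rw [← Finset.sum_mul, f3, one_mul]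
    nth_rewrite 2 [h1]
    rw [hc, Finset.sum_mul, Finset.smul_sum]
    refine Finset.sum_congr rfl fun i _ => ?_
    rw [Matrix.smul_mul]
    by_cases h : Eqv (ε i) φ
    · rw [hwe _ _ h]
    · have h2 := M.eq_zero_of_not (ε := φ) (η := ε i) (fun h' => h h'.symm) φ.mem
      rw [mul_assoc, φ.idem] at h2
      rw [h2, smul_zero, smul_zero]
  have hcL : ∀ i, (ε i).e * c = w (ε i) • (ε i).e := by
    intro i
    rw [hc, Finset.mul_sum, Finset.sum_eq_single i]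
    · rw [Matrix.mul_smul, (ε i).idem]
    · intro k _ hk
      rw [Matrix.mul_smul, f2 i k (Ne.symm hk), smul_zero]
    · intro h
      exact absurd (Finset.mem_univ _) h
  have hcent : ∀ d, Ct Z d → c * d = d * c := by
    intro d hd
    have h1 : ∀ c : Matrix (Fin g ⊕ Fin g) (Fin g ⊕ Fin g) ℂ,
        c = ∑ i, ∑ k, (ε i).e * c * (ε k).e := by
      intro c
      have e1 : ∀ i, ∑ k, (ε i).e * c * (ε k).e = (ε i).e * c := fun i => by
        rw [← Finset.mul_sum, f3, mul_one]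
      rw [Finset.sum_congr rfl fun i _ => e1 i, ← Finset.sum_mul, f3, one_mul]
    rw [h1 (c * d), h1 (d * c)]
    refine Finset.sum_congr rfl fun i _ => Finset.sum_congr rfl fun k _ => ?_
    have e1 : (ε i).e * (c * d) * (ε k).e = w (ε i) • ((ε i).e * d * (ε k).e) := by
      rw [← mul_assoc, hcL, Matrix.smul_mul, Matrix.smul_mul]
    have e2 : (ε i).e * (d * c) * (ε k).e = w (ε k) • ((ε i).e * d * (ε k).e) := by
      rw [mul_assoc, mul_assoc d, hce, Matrix.mul_smul, Matrix.mul_smul, mul_assoc]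
    rw [e1, e2]
    by_cases h : Eqv (ε k) (ε i)
    · rw [hwe _ _ h]
    · rw [M.eq_zero_of_not h hd, smul_zero, smul_zero]
  have hsumb : ∑ i, (M.bar (ε i)).e = 1 := by
    have h1 : ∑ i, (M.bar (ε i)).e = -(Om g ℂ * (∑ i, (ε i).e)ᵀ * Om g ℂ) := by
      rw [transpose_sum, Finset.mul_sum, Finset.sum_mul, ← Finset.sum_neg_distrib]
      exact Finset.sum_congr rfl fun i _ => M.bar_e (ε i)
    rw [h1, f3, transpose_one, mul_one, Om_sq, neg_neg]
  have hcsp : cᵀ * Om g ℂ + Om g ℂ * c = 0 := by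
    have h1 : cᵀ * Om g ℂ = Om g ℂ * ∑ i, w (ε i) • (M.bar (ε i)).e := by
      rw [hc, transpose_sum, Finset.sum_mul, Finset.mul_sum]
      refine Finset.sum_congr rfl fun i _ => ?_
      rw [transpose_smul, Matrix.smul_mul, M.e_Om, Matrix.mul_smul]
    have h2 : ∑ i, w (ε i) • (M.bar (ε i)).e = -c := by
      have h3 : c = ∑ i, c * (M.bar (ε i)).e := by rw [← Finset.mul_sum, hsumb, mul_one]
      rw [h3, ← Finset.sum_neg_distrib]
      refine Finset.sum_congr rfl fun i _ => ?_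
      rw [hce, hwb, neg_smul, neg_neg]
    rw [h1, h2, mul_neg, neg_add_cancel]
  have hmem : D - c ∈ LZ Z := by
    refine memtr g Z M hcop hsep (D - c) ?_ ?_ ?_
    · intro d hd
      rw [sub_mul, mul_sub, hDc d hd, hcent d hd]
    · have h2 := M.sp_L hDL
      rw [transpose_sub, sub_mul, mul_sub]
      have h3 : Dᵀ * Om g ℂ - cᵀ * Om g ℂ + (Om g ℂ * D - Om g ℂ * c) =
          (Dᵀ * Om g ℂ + Om g ℂ * D) - (cᵀ * Om g ℂ + Om g ℂ * c) := by abel
      rw [h3, hcsp, h2, sub_zero]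
    · intro φ
      rw [sub_mul, trace_sub, hce, trace_smul, smul_eq_mul, hw,
        div_mul_cancel₀ _ (M.trace_ne φ), sub_self]
  refine ⟨c, ?_, fun φ => ?_⟩
  · have h1 : c = D - (D - c) := by abel
    rw [h1]
    exact Submodule.sub_mem _ hDL hmem
  · rw [hce, hw]

end Pool.Agent.Q180.UV
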