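import Mathlib
import Pool.Agent.Q180.UV.Ful
import Pool.Agent.Q180.UW.SyF

/-!
# Project UV: full places of dimension at least three are not selfconjugate; the frame
-/

set_option linter.unusedSectionVars false
set_option linter.unusedVariables false

namespace Pool.Agent.Q180.UV

open Matrix Module Pool.Agent.H204R3.CM Pool.Agent.H204R3.SP Pool.Agent.H204R3.GP
  Pool.Agent.H194R3.CM Pool.Agent.W437.HC
  Pool.Agent.W437.HD Pool.Agent.W437.HQ Pool.Agent.W548.Odd Pool.Agent.TH125 Pool.Agent.Y4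
  Pool.Agent.Y4.G Pool.Agent.Y4.K

open Pool.Agent.Y4.H (exists_prims LZ Ct map_smul_aut' D_mem_LZ Dσ_mem_LZ)
open Pool.Agent.Q180.WT (Fr pair_of rad_of)

variable {g : ℕ} {Z : Matrix (Fin g) (Fin g) ℂ}

/-- A functional which vanishes on two vectors and not on a third one. -/
theorem exists_row {B : Type*} [Fintype B] [DecidableEq B] (e : Matrix B B ℂ) (he : e * e = e)
    (h3 : 3 ≤ finrank ℂ (LinearMap.range (mulVecLin e))) (v y : B → ℂ) (hv : e *ᵥ v = v)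
    (hy : e *ᵥ y = y) :
    ∃ l x : B → ℂ, l ᵥ* e = l ∧ e *ᵥ x = x ∧ l ⬝ᵥ v = 0 ∧ l ⬝ᵥ y = 0 ∧ l ⬝ᵥ x ≠ 0 := by
  classical
  obtain ⟨x, hx, hxs⟩ : ∃ x, e *ᵥ x = x ∧ x ∉ Submodule.span ℂ ({v, y} : Set (B → ℂ)) := by
    by_contra hcon
    push Not at hcon
    have h1 : LinearMap.range (mulVecLin e) ≤ Submodule.span ℂ ({v, y} : Set (B → ℂ)) := by
      rintro _ ⟨z, rfl⟩
      exact hcon _ (by rw [mulVecLin_apply, mulVec_mulVec, he])
    have h2 := Submodule.finrank_mono h1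
    have h4 : finrank ℂ (Submodule.span ℂ ({v, y} : Set (B → ℂ))) ≤ 2 := by
      have h5 := finrank_span_finset_le_card (R := ℂ) ({v, y} : Finset (B → ℂ))
      rw [Finset.coe_insert, Finset.coe_singleton] at h5
      exact h5.trans Finset.card_le_two
    omega
  obtain ⟨f, hf1, hf2⟩ := Submodule.exists_le_ker_of_notMem hxs
  let l0 : B → ℂ := fun j => f (Pi.single j 1)
  have hl0 : ∀ u, l0 ⬝ᵥ u = f u := by
    intro u
    have h1 : u = ∑ j, u j • (Pi.single j 1 : B → ℂ) := (pi_eq_sum_univ' u)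
    conv_rhs => rw [h1, map_sum]
    refine Finset.sum_congr rfl fun j _ => ?_
    rw [map_smul, smul_eq_mul, mul_comm]
  refine ⟨l0 ᵥ* e, x, by rw [vecMul_vecMul, he], hx, ?_, ?_, ?_⟩
  · rw [← dotProduct_mulVec, hv, hl0]
    exact hf2 (Submodule.subset_span (by simp))
  · rw [← dotProduct_mulVec, hy, hl0]
    exact hf2 (Submodule.subset_span (by simp))
  · rw [← dotProduct_mulVec, hx, hl0]
    exact hf1

/-- A full place of dimension at least three is not selfconjugate. -/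
theorem not_sc (M : Pol Z) (φ : Pr Z) (hnil : Nil (im (LZ Z) φ.e) φ.e)
    (h3 : 3 ≤ mu φ + mu (M.bar φ)) : ¬ Eqv φ (M.bar φ) := by
  rintro ⟨a, b, h⟩
  have hrk : finrank ℂ (LinearMap.range (mulVecLin φ.e)) = mu φ + mu (M.bar φ) := by
    have h2 := M.trace_e φ
    rw [trace_idemM φ.idem] at h2
    exact_mod_cast h2
  -- a nonzero value of the form
  obtain ⟨v, hv, y, hy, hvy⟩ : ∃ v, φ.e *ᵥ v = v ∧ ∃ y, φ.e *ᵥ y = y ∧
      (a *ᵥ v) ⬝ᵥ (Om g ℂ *ᵥ y) ≠ 0 := by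
    by_contra hcon
    push Not at hcon
    have h1 : ∀ u, φ.e *ᵥ u = 0 := by
      intro u
      have h2 : ∀ y, (a *ᵥ (φ.e *ᵥ u)) ⬝ᵥ (Om g ℂ *ᵥ y) = 0 := by
        intro y
        have h4 := hcon (φ.e *ᵥ u) (by rw [mulVec_mulVec, φ.idem]) (φ.e *ᵥ y)
          (by rw [mulVec_mulVec, φ.idem])
        have h5 : Om g ℂ * φ.e = ((M.bar φ).e)ᵀ * Om g ℂ := by
          have h6 := M.e_Om (M.bar φ)
          rw [M.bar_bar] at h6
          exact h6.symm
        rw [mulVec_mulVec y, h5, ← mulVec_mulVec, dotProduct_mulVec, vecMul_transpose,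
          mulVec_mulVec _ _ a, h.la] at h4
        exact h4
      have h4 : a *ᵥ (φ.e *ᵥ u) = 0 := by
        have h5 : ∀ z, (a *ᵥ (φ.e *ᵥ u)) ⬝ᵥ z = 0 := by
          intro z
          have h6 := h2 (-(Om g ℂ) *ᵥ z)
          have h7 : Om g ℂ *ᵥ (-(Om g ℂ) *ᵥ z) = z := by
            rw [mulVec_mulVec, mul_neg, Om_sq, neg_neg, one_mulVec]
          rw [h7] at h6
          exact h6
        exact dotProduct_eq_zero _ h5
      have h5 := congrArg (fun z => b *ᵥ z) h4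
      simp only [mulVec_mulVec, mulVec_zero] at h5
      rw [← mul_assoc, h.ba, φ.idem] at h5
      exact h5
    have h2 : φ.e = 0 := by
      ext i j
      have h4 := congrFun (h1 (Pi.single j 1)) i
      rw [mulVec_single_one] at h4
      exact h4
    exact φ.ne h2
  obtain ⟨l, x, hl, hx, hlv, hly, hlx⟩ := exists_row φ.e φ.idem (by rw [hrk]; exact h3) v y hv hy
  obtain ⟨X, hX, hX1⟩ := hnil v l hv hl hlv
  have hXx : ∀ z, φ.e *ᵥ z = z → X *ᵥ z = (l ⬝ᵥ z) • v := by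
    intro z hz
    rw [← hz, mulVec_mulVec, hX1, vecMulVec_mulVec, hz]
    simp
  have h4 : (a *ᵥ (X *ᵥ x)) ⬝ᵥ (Om g ℂ *ᵥ y) = -((a *ᵥ x) ⬝ᵥ (Om g ℂ *ᵥ (X *ᵥ y))) := by
    rw [mulVec_mulVec, h.ca X hX, ← mulVec_mulVec, mulVec_mulVec y]
    have h5 : Om g ℂ * X = -(Xᵀ * Om g ℂ) := eq_neg_of_add_eq_zero_right (M.sp_L hX)
    rw [h5, neg_mulVec, dotProduct_neg, neg_neg, ← mulVec_mulVec, dotProduct_mulVec _ Xᵀ,
      vecMul_transpose]
  rw [hXx x hx, hXx y hy, hly, zero_smul, mulVec_zero, dotProduct_zero, neg_zero, mulVec_smul,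
    smul_dotProduct, smul_eq_mul] at h4
  rcases mul_eq_zero.1 h4 with h5 | h5
  · exact hlx h5
  · exact hvy h5

theorem hr2_of (M : Pol Z) (hful : M.Ful) (φ : Pr Z) (hb : Eqv φ (M.bar φ)) :
    mu φ + mu (M.bar φ) = 2 := by
  have h1 := M.mu_eqv hb
  have h2 := M.mu_pos φ
  by_contra h3
  exact not_sc M φ (hful.nil φ) (by omega) hb


/-- Existence. -/
theorem exists_fr (M : Pol Z) (hcop : M.Ful) : Nonempty (Fr M) := by
  classical
  obtain ⟨P, hP, ρ, Rp⟩ := M.exists_reps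
  obtain ⟨b, u, w, Dt⟩ := M.exists_dat Rp hcop.nil (hr2_of M hcop)
  have hdim : ∀ p, b p = p → finrank ℂ (LinearMap.range (mulVecLin (ρ p).e)) = 2 := by
    intro p hp
    have h1 := Dt.iso p
    rw [hp] at h1
    have h2 := M.trace_e (ρ p)
    rw [trace_idemM (ρ p).idem, hr2_of M hcop _ ⟨_, _, h1⟩] at h2
    exact_mod_cast h2
  obtain ⟨R, hR1, hR2, cls, inv, jj, ev, hinv, hjj, hj0, hci, hJ, hev, hspan⟩ :=
    exists_symp (e := fun p => (ρ p).e) (M.OmU_T Dt) (fun p => (ρ p).idem) Dt.bb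
      (pair_of M Rp Dt) (rad_of M Rp Dt) hdim
  obtain ⟨I, hI, ε, f1, f2, f3⟩ := M.exists_family
  choose r hr using fun i => Rp.surj (ε i)
  choose α β hαβ using hr
  exact ⟨{
    P := P
    ρ := ρ
    Rp := Rp
    b := b
    u := u
    w := w
    Dt := Dt
    R := R
    cls := cls
    inv := inv
    jj := jj
    ev := ev
    hinv := hinv
    hjj := hjj
    hj0 := hj0
    hci := hci
    hJ := hJ
    hev := hev
    hspan := hspan
    I := I
    ε := ε
    f3 := f3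
    r := r
    α := α
    β := β
    hαβ := hαβ }⟩

variable {M : Pol Z}

/-- The elements of the Lie algebra given by two letters. -/
theorem exists_rootLZ (F : Fr M) (hcop : M.Ful) (hsep : M.Sep) (hmem : S_memtr) (x y : F.R)
    (hxy : F.b (F.cls x) = F.cls y) (h : y ≠ F.inv x ∨ F.b (F.cls x) = F.cls x) :
    ∃ X ∈ LZ Z, (∀ c, Ct Z c → X * c = c * X) ∧
      ∀ z, X *ᵥ F.ev z = JJ F.inv F.jj y z • F.ev x + JJ F.inv F.jj x z • F.ev y := by
  obtain ⟨S, hSd⟩ : ∃ S, S = SS F.O (F.ev x) (F.ev y) := ⟨_, rfl⟩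
  have hSc : ∀ p, (F.ρ p).e * S = S * (F.ρ p).e := by
    intro p
    have e1 : S * (F.ρ p).e = ((vecMulVec (F.ev x) (F.ev y) + vecMulVec (F.ev y) (F.ev x)) *
        (F.ρ (F.b p)).eᵀ) * F.O := by
      rw [hSd]
      unfold SS
      rw [mul_assoc, F.Oρ, ← mul_assoc]
    have e2 : (F.ρ p).e * S = ((F.ρ p).e *
        (vecMulVec (F.ev x) (F.ev y) + vecMulVec (F.ev y) (F.ev x))) * F.O := by
      rw [hSd]
      unfold SS
      rw [← mul_assoc]
    rw [e1, e2]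
    congr 1
    rw [mul_add, add_mul, mul_vecMulVec,
      mul_vecMulVec, vecMulVec_mul, vecMulVec_mul, vecMul_transpose, vecMul_transpose,
      F.hv, F.hv, F.hv, F.hv, ← hxy]
    by_cases h1 : F.cls x = p
    · have h2 : F.b (F.cls x) = F.b p := by rw [h1]
      by_cases h3 : F.b (F.cls x) = p
      · have h4 : F.cls x = F.b p := by rw [← h3, F.Dt.bb]
        rw [if_pos h1, if_pos h2, if_pos h3, if_pos h4]
      · have h4 : F.cls x ≠ F.b p := fun h => h3 (by rw [h, F.Dt.bb])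
        rw [if_pos h1, if_pos h2, if_neg h3, if_neg h4, zero_vecMulVec, vecMulVec_zero]
    · have h2 : F.b (F.cls x) ≠ F.b p := fun h => h1 (by rw [← F.Dt.bb (F.cls x), h, F.Dt.bb])
      by_cases h3 : F.b (F.cls x) = p
      · have h4 : F.cls x = F.b p := by rw [← h3, F.Dt.bb]
        rw [if_neg h1, if_neg h2, if_pos h3, if_pos h4, zero_vecMulVec, vecMulVec_zero]
      · have h4 : F.cls x ≠ F.b p := fun h => h3 (by rw [h, F.Dt.bb])
        rw [if_neg h1, if_neg h2, if_neg h3, if_neg h4, zero_vecMulVec, vecMulVec_zero,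
          vecMulVec_zero, zero_vecMulVec]
  have hSsp : Sᵀ * (Om g ℂ * ∑ p, F.u p) + (Om g ℂ * ∑ p, F.u p) * S = 0 := by
    rw [hSd]
    exact SS_spOm F.OT _ _
  obtain ⟨X, hX1, hX2, hX3⟩ := M.morita F.Rp F.Dt hSc hSsp
  have hact : ∀ z, X *ᵥ F.ev z = JJ F.inv F.jj y z • F.ev x + JJ F.inv F.jj x z • F.ev y := by
    intro z
    have h1 : X *ᵥ F.ev z = S *ᵥ F.ev z := by
      rw [← F.hev z, mulVec_mulVec, mulVec_mulVec, hX3]
    rw [h1, hSd, SS_mulVec, F.hJ', F.hJ']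
  have htr : ∀ p, trace (X * (F.ρ p).e) = 0 := by
    intro p
    have h1 : trace (S * (F.ρ p).e) = (if F.cls x = p then JJ F.inv F.jj y x else 0) +
        (if F.cls y = p then JJ F.inv F.jj x y else 0) := by
      rw [hSd]
      unfold SS
      rw [trace_mul_comm, ← mul_assoc, mul_add, mul_vecMulVec, mul_vecMulVec, F.hv, F.hv, add_mul,
        vecMulVec_mul, vecMulVec_mul, trace_add, trace_vecMulVec, trace_vecMulVec]
      congr 1
      · split_ifs with h2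
        · rw [← F.hJ', dotProduct_comm, dotProduct_mulVec]
        · rw [zero_dotProduct]
      · split_ifs with h2
        · rw [← F.hJ', dotProduct_comm, dotProduct_mulVec]
        · rw [zero_dotProduct]
    rw [hX3, h1]
    rcases h with h | h
    · have h2 : JJ F.inv F.jj x y = 0 := by
        unfold JJ
        rw [if_neg h]
      have h3 : JJ F.inv F.jj y x = 0 := by rw [F.JJ_anti, h2, neg_zero]
      rw [h2, h3]
      split_ifs <;> simp
    · rw [← hxy, h, F.JJ_anti y x]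
      split_ifs <;> simp
  refine ⟨X, hmem g Z M hcop hsep X hX1 hX2 fun φ => ?_, hX1, hact⟩
  obtain ⟨p, hp⟩ := F.Rp.surj φ
  rw [← hp.trace fun c hc => (hX1 c hc).symm]
  exact htr p

/-- The system of letters. -/
noncomputable def syF (F : Fr M) (hcop : M.Ful) (hsep : M.Sep) (hmem : S_memtr) (htor : S_tor) :
    Pool.Agent.Q180.UW.Sy (Fin g ⊕ Fin g) (LZ Z : Set (Matrix (Fin g ⊕ Fin g) (Fin g ⊕ Fin g) ℂ)) where
  P := F.P
  R := F.R
  𝒜 := F.I
  b := F.b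
  cls := F.cls
  inv := F.inv
  jj := F.jj
  cl := F.r
  co := fun a z => LinearMap.proj z ∘ₗ Matrix.mulVecLin F.Co ∘ₗ Matrix.mulVecLin (F.β a)
  ev := fun a z => F.α a *ᵥ F.ev z
  wt := fun p σ => trace ((DZ Z).map (σ : ℂ →+* ℂ) * (F.ρ p).e) / trace (F.ρ p).e
  hbb := F.Dt.bb
  hinv := F.hinv
  hne := F.inv_ne
  hjj := F.hjj
  hj0 := F.hj0
  hci := F.hci
  tot := fun v => F.total v
  hev := fun a z h => F.αρ a z h
  hco := fun a z h => LinearMap.ext fun v => F.βρ a z h v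
  root := by
    intro x y hxy h
    obtain ⟨X, hX, hX1, hX2⟩ := exists_rootLZ F hcop hsep hmem x y hxy h
    refine ⟨X, hX, fun a z => ?_⟩
    rw [mulVec_mulVec, hX1 _ (F.hαβ a).ca, ← mulVec_mulVec, hX2, mulVec_add, mulVec_smul,
      mulVec_smul]
  tor := by
    intro σ
    obtain ⟨X, hX, hX1⟩ := htor g Z M hcop hsep σ
    refine ⟨X, hX, fun a z => ?_⟩
    have h1 : X * F.α a = F.α a * X := ((F.hαβ a).ca X hX).symm
    rw [mulVec_mulVec, h1, ← mulVec_mulVec]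
    have h2 : X *ᵥ F.ev z = (trace ((DZ Z).map (σ : ℂ →+* ℂ) * (F.ρ (F.cls z)).e) /
        trace (F.ρ (F.cls z)).e) • F.ev z := by
      have h3 := F.hev z
      conv_lhs => rw [← h3, mulVec_mulVec, hX1, smul_mulVec, h3]
    rw [h2, mulVec_smul]
  hwt := by
    intro p σ
    have h1 : Eqv (F.ρ (F.b p)) (M.bar (F.ρ p)) := ⟨_, _, F.Dt.iso p⟩
    have hX : (DZ Z).map (σ : ℂ →+* ℂ) ∈ LZ Z := Dσ_mem_LZ σ
    have h2 := h1.trace (X := (DZ Z).map (σ : ℂ →+* ℂ)) fun c hc => hc _ hX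
    have h3 := h1.trace (X := 1) fun c hc => by rw [mul_one, one_mul]
    rw [one_mul, one_mul] at h3
    have h4 : trace (M.bar (F.ρ p)).e = trace (F.ρ p).e := by
      rw [M.trace_e, M.trace_e, M.bar_bar, add_comm]
    rw [h2, h3, h4, M.trace_bar hX, neg_div]

/-- The bilinear form of a class. -/
theorem syF_form (F : Fr M) (hcop : M.Ful) (hsep : M.Sep) (hmem : S_memtr) (htor : S_tor)
    (p : F.P) (a a' : F.I) (y y' : Fin g ⊕ Fin g → ℂ) :
    (syF F hcop hsep hmem htor).form p a a' y y' =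
      y ⬝ᵥ (((F.β a)ᵀ * ((F.ρ p).eᵀ * F.O) * F.β a') *ᵥ y') := by
  have h3 := F.pairing p (F.β a *ᵥ y) (F.β a' *ᵥ y')
  have h4 : y ⬝ᵥ (((F.β a)ᵀ * ((F.ρ p).eᵀ * F.O) * F.β a') *ᵥ y') =
      ((F.ρ p).e *ᵥ (F.β a *ᵥ y)) ⬝ᵥ (F.O *ᵥ (F.β a' *ᵥ y')) := by
    rw [← mulVec_mulVec, ← mulVec_mulVec, ← mulVec_mulVec]
    rw [dotProduct_mulVec _ (F.β a)ᵀ, vecMul_transpose,
      dotProduct_mulVec _ (F.ρ p).eᵀ, vecMul_transpose]
  rw [h4, ← h3]
  rfl

end Pool.Agent.Q180.UV
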