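import Mathlib
import Pool.Agent.Q180.UV.FrF

/-!
# Project UV: statements of the lemmas, Lie algebra part, for full places in the place of coprime ones
-/

namespace Pool.Agent.Q180.UV

open Matrix Module Polynomial Pool.Agent.H204R3.CM Pool.Agent.H204R3.SP Pool.Agent.W437.HC
  Pool.Agent.W437.HD Pool.Agent.W437.HP Pool.Agent.W437.HR
open Pool.Agent.Q60.D3 (AV IsHom IsCM IsSimple IsIsogenousToProd cx mulF HasWeight conjF cxM ofZ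
  Comm)
open Pool.Agent.Y4.K (Pol Pr mu Eqv Iso)
open Pool.Agent.Y4.G (Nil im)
open Pool.Agent.Y4.H (LZ Ct)
open Pool.Agent.Q59.GC (Labels Letter)
open Pool.Agent.Q180.WT (PB)
open Pool.Agent.Q180.UW (Itm InC IsCMField mult Gen)

structure Fam (𝒲 : Set (ℕ × ℕ)) (𝒞 : AV → Prop) {g : ℕ} (Z : Matrix (Fin g) (Fin g) ℂ)
    (hZ : Zᵀ = Z) (hpos : (imM Z).PosDef) where
  R : Type
  [fR : Fintype R]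
  [dR : DecidableEq R]
  n : R → ℕ
  Q : ∀ r, Matrix (Fin (n r)) (Fin g ⊕ Fin g) ℂ
  V : ∀ r, Matrix (Fin g ⊕ Fin g) (Fin (n r)) ℂ
  QV : ∀ r, Q r * V r = 1
  tot : ∑ r, V r * Q r = 1
  mem : ∀ r, Ct Z (V r * Q r)
  prim : ∀ r c, Ct Z c → ∃ lam : ℂ, V r * Q r * c * (V r * Q r) = lam • (V r * Q r)
  L : ∀ r, Itm 𝒲 𝒞 (ofZ Z hZ hpos) (n r)
  hL : ∀ r (x : Fin (n r) → Fin g ⊕ Fin g → ℚ), (L r).δ x =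
    (Matrix.of fun a b : Fin (n r) => (Q r *ᵥ fun i => ((x a i : ℚ) : ℂ)) b).det
  hs : ∀ r (σ : ℂ ≃+* ℂ),
    (((L r).s σ : ℤ) : ℂ) = trace ((DZ Z).map (σ.symm : ℂ →+* ℂ) * (V r * Q r))
  num : ∀ r, n r = 1 ∨ (3 ≤ n r ∧
    (∀ σ, ∃ p q : ℕ, 0 < p ∧ 0 < q ∧ p + q = n r ∧ (L r).s σ = (p : ℤ) - q) ∧
    Nil (im (LZ Z) (V r * Q r)) (V r * Q r))

attribute [instance] Fam.fR Fam.dR

def S_famc : Prop :=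
  ∀ (𝒲 : Set (ℕ × ℕ)) (𝒞 : AV → Prop) (g : ℕ) (Z : Matrix (Fin g) (Fin g) ℂ) (hZ : Zᵀ = Z)
    (hpos : (imM Z).PosDef), Comm Z → InC 𝒞 (ofZ Z hZ hpos) → Nonempty (Fam 𝒲 𝒞 Z hZ hpos)

def S_aln : Prop :=
  ∀ (𝒲 : Set (ℕ × ℕ)) (𝒞 : AV → Prop) (ι : Type) [Fintype ι] [DecidableEq ι] (g : ι → ℕ)
    (Z : ∀ i, Matrix (Fin (g i)) (Fin (g i)) ℂ) (hZ : ∀ i, (Z i)ᵀ = Z i)
    (hpos : ∀ i, (imM (Z i)).PosDef) (Fa : ∀ i, Fam 𝒲 𝒞 (Z i) (hZ i) (hpos i))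
    (M : Pol (bigD ℂ Z)),
    M.Ful ∧ M.Sep ∧
    (∀ φ : Pr (bigD ℂ Z), ¬ Eqv φ (M.bar φ) ∧ mu φ + mu (M.bar φ) ≠ 2) ∧
    ∀ φ : Pr (bigD ℂ Z), ∃ (i : ι) (r : (Fa i).R)
      (a c : Matrix (Fin (NB g) ⊕ Fin (NB g)) (Fin (NB g) ⊕ Fin (NB g)) ℂ),
      Ct (bigD ℂ Z) a ∧ Ct (bigD ℂ Z) c ∧ c * a = φ.e ∧
      a * c = (PB Z hZ hpos i)ᵀ * ((Fa i).V r * (Fa i).Q r) * PB Z hZ hpos i

def S_kil : Prop :=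
  ∀ (g : ℕ) (Z : Matrix (Fin g) (Fin g) ℂ) (M : Pol Z), M.Ful → M.Sep →
    (∀ φ : Pr Z, ¬ Eqv φ (M.bar φ) ∧ mu φ + mu (M.bar φ) ≠ 2) →
    ∀ (𝓛 : Type) [AddCommGroup 𝓛] [Module ℂ 𝓛] (br : 𝓛 → 𝓛 → 𝓛)
      (N : Type) [AddCommGroup N] [Module ℂ N] [FiniteDimensional ℂ N] [Nontrivial N]
      (w : N →ₗ[ℂ] N →ₗ[ℂ] ℂ) (ρ : 𝓛 →ₗ[ℂ] Module.End ℂ N)
      (τ : 𝓛 →ₗ[ℂ] Matrix (Fin g ⊕ Fin g) (Fin g ⊕ Fin g) ℂ),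
      (∀ x, w x x = 0) → (∀ x, (∀ y, w x y = 0) → x = 0) →
      (∀ X Y, ρ (br X Y) = ρ X * ρ Y - ρ Y * ρ X) → (∀ X, IsSp w (ρ X)) →
      (∀ x y, ∃ X, ρ X = EE w x y) →
      (∀ X Y, τ (br X Y) = τ X * τ Y - τ Y * τ X) →
      (∀ X c, Ct Z c → τ X * c = c * τ X) → (∀ X, (τ X)ᵀ * Om g ℂ + Om g ℂ * τ X = 0) →
      (∀ W ∈ LZ Z, ∃ X, τ X = W) → ∀ δ, ρ δ * ρ δ = 1 → τ δ = DZ Z →
      ∃ X, τ X = 0 ∧ ρ X ≠ 0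

structure Two (g : Bool → ℕ) (Z : ∀ b, Matrix (Fin (g b)) (Fin (g b)) ℂ) : Prop where
  hZ : ∀ b, (Z b)ᵀ = Z b
  hpos : ∀ b, (imM (Z b)).PosDef
  pcs : HasPcs (DZ (Z true))
  cop : ∀ M : Pol (Z false), M.Ful
  sep : ∀ M : Pol (Z false), M.Sep
  nsc : ∀ (M : Pol (Z false)) (φ : Pr (Z false)),
    ¬ Eqv φ (M.bar φ) ∧ mu φ + mu (M.bar φ) ≠ 2

def S_split : Prop :=
  ∀ (g : Bool → ℕ) (Z : ∀ b, Matrix (Fin (g b)) (Fin (g b)) ℂ) (T : Two g Z),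
    (∃ (A : Type) (_ : Fintype A) (_ : DecidableEq A)
      (N : A → Submodule ℂ (Fin (g true) ⊕ Fin (g true) → ℂ))
      (w : ∀ a, N a →ₗ[ℂ] N a →ₗ[ℂ] ℂ)
      (π : ∀ a, (Fin (g true) ⊕ Fin (g true) → ℂ) →ₗ[ℂ] N a)
      (hst : ∀ a, ∀ X ∈ lieM (DZ (Z true)) ℂ, ∀ x ∈ N a, X *ᵥ x ∈ N a),
      (∀ y, y = ∑ a, (π a y : Fin (g true) ⊕ Fin (g true) → ℂ)) ∧
      (∀ a, Nontrivial (N a)) ∧ (∀ a x, w a x x = 0) ∧ (∀ a x, (∀ y, w a x y = 0) → x = 0) ∧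
      (∀ a X, IsSp (w a) (rsN (N a) (hst a) X)) ∧
      (∀ a, ∀ X ∈ lieM (DZ (Z true)) ℂ, ∀ y, (π a (X *ᵥ y) : Fin (g true) ⊕ Fin (g true) → ℂ) =
        X *ᵥ (π a y : Fin (g true) ⊕ Fin (g true) → ℂ)) ∧
      (∀ a x y, ∃ X : lieM (DZ (bigD ℂ Z)) ℂ,
        (blocksOf Z T.hZ T.hpos).bl ℂ false X.1 = 0 ∧
        rsN (N a) (hst a) ((blocksOf Z T.hZ T.hpos).blL true X) = EE (w a) x y)) ∧
    ∀ W ∈ LZ (Z false), ∃ X ∈ lieM (DZ (bigD ℂ Z)) ℂ,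
      (blocksOf Z T.hZ T.hpos).bl ℂ false X = W ∧ (blocksOf Z T.hZ T.hpos).bl ℂ true X = 0

/-- As `Pool.Agent.Q180.UW.S_exp`. -/
def S_exp : Prop :=
  ∀ (g : Bool → ℕ) (Z : ∀ b, Matrix (Fin (g b)) (Fin (g b)) ℂ) (T : Two g Z)
    (M : Pol (Z false)) (κ : Type) [Fintype κ] [DecidableEq κ]
    (c : (κ → Fin (NB g) ⊕ Fin (NB g)) → ℚ), IsH (DZ (bigD ℂ Z)) c →
    cst ℂ c ∈ Submodule.span ℂ {F : (κ → Fin (NB g) ⊕ Fin (NB g)) → ℂ |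
      ∃ (l p : ℕ) (φ : Fin l → Pr (Z false)) (n : Fin l → ℕ)
        (Q : ∀ j, Matrix (Fin (n j)) (Fin (g false) ⊕ Fin (g false)) ℂ)
        (V : ∀ j, Matrix (Fin (g false) ⊕ Fin (g false)) (Fin (n j)) ℂ)
        (e : (Σ j : Fin l, Fin (n j)) ⊕ (Fin p × Fin 2) ≃ κ)
        (C : ∀ j, Fin (n j) →
          Matrix (Fin (g false) ⊕ Fin (g false)) (Fin (g false) ⊕ Fin (g false)) ℂ)
        (G : Fin p → Matrix (Fin (NB g) ⊕ Fin (NB g)) (Fin (NB g) ⊕ Fin (NB g)) ℂ),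
        (∀ j, Q j * V j = 1) ∧ (∀ j, V j * Q j = (φ j).e) ∧ (∀ j a, Ct (Z false) (C j a)) ∧
        (∀ s (σ : ℂ ≃+* ℂ), ((DZ (bigD ℂ Z)).map σ)ᵀ * G s + G s * (DZ (bigD ℂ Z)).map σ = 0) ∧
        (∀ σ : ℂ ≃+* ℂ, ∑ j, trace ((DZ (Z false)).map (σ : ℂ →+* ℂ) * (φ j).e) = 0) ∧
        F = fun w => (∏ j, (Matrix.of fun a b : Fin (n j) =>
            (Q j * C j a * PB Z T.hZ T.hpos false) b (w (e (Sum.inl ⟨j, a⟩)))).det) *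
          ∏ s, G s (w (e (Sum.inr (s, 0)))) (w (e (Sum.inr (s, 1))))}

end Pool.Agent.Q180.UV
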