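import Mathlib
import Pool.Agent.Q180.UV.StmL
import Pool.Agent.Q222.UW.Aln

/-!
# Project UV: alignment of the places of a product
-/

set_option autoImplicit false
set_option linter.unusedSectionVars false

namespace Pool.Agent.Q180.UV.Aln

open Matrix Module Pool.Agent.H204R3.CM Pool.Agent.H194R3.CM Pool.Agent.W437.HC
  Pool.Agent.W437.HD Pool.Agent.W437.HQ Pool.Agent.W437.HP Pool.Agent.Y4
  Pool.Agent.TH125 Pool.Agent.W548.Odd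
open Pool.Agent.Y4.H (LZ Ct D_mem_LZ Dσ_mem_LZ)
open Pool.Agent.Y4.G (Nil im)
open Pool.Agent.Y4.K (Pol Pr mu Eqv Iso pr qr comm_LZ nil_rank_one)
open Pool.Agent.Q60.D3 (AV ofZ)
open Pool.Agent.Q180.WT (PB)
open Pool.Agent.Q211.WT (P_same P_off P_tot P_com P_comT inj_mul inj_inj trace_inj Ct_inj)
open Pool.Agent.Q222.UW (Ct_up Ct_dn PB_map trace_blk)

section

variable {ι : Type} [Fintype ι] [DecidableEq ι] {g : ι → ℕ}
    (Z : ∀ i, Matrix (Fin (g i)) (Fin (g i)) ℂ) (hZ : ∀ i, (Z i)ᵀ = Z i)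
    (hpos : ∀ i, (imM (Z i)).PosDef)

/-- The block idempotent is in the commutant. -/
theorem Ct_blk (M : Pol (bigD ℂ Z)) (i : ι) :
    Ct (bigD ℂ Z) ((PB Z hZ hpos i)ᵀ * PB Z hZ hpos i) := by
  have h := Ct_up Z hZ hpos M i 1 (fun X _ => by rw [Matrix.one_mul, Matrix.mul_one])
  rw [Matrix.mul_one] at h
  exact h

theorem PB_mapf (i : ι) (f : ℂ →ₗ[ℚ] ℂ)
    (X : Matrix (Fin (NB g) ⊕ Fin (NB g)) (Fin (NB g) ⊕ Fin (NB g)) ℂ) :
    PB Z hZ hpos i * X.map f * (PB Z hZ hpos i)ᵀ =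
      (PB Z hZ hpos i * X * (PB Z hZ hpos i)ᵀ).map f := by
  ext x y
  rw [Matrix.map_apply]
  simp only [PB, Matrix.mul_apply, Matrix.transpose_apply, Matrix.map_apply, cK, map_sum,
    Finset.sum_mul]
  refine Finset.sum_congr rfl fun j _ => Finset.sum_congr rfl fun k _ => ?_
  set p := (blocksOf Z hZ hpos).P i x k
  set q := (blocksOf Z hZ hpos).P i y j
  have h1 : ((p : ℚ) : ℂ) * X k j * ((q : ℚ) : ℂ) = (p * q) • X k j := by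
    rw [Rat.smul_def, Rat.cast_mul]
    ring
  rw [h1, map_smul, Rat.smul_def, Rat.cast_mul]
  ring

/-- The elements of the Lie algebra of a factor come from the Lie algebra of the product. -/
theorem LZ_up (M : Pol (bigD ℂ Z)) (i : ι) : ∀ W ∈ LZ (Z i), ∃ X ∈ LZ (bigD ℂ Z),
    PB Z hZ hpos i * X * (PB Z hZ hpos i)ᵀ = W := by
  let S : Submodule ℂ (Matrix (Fin (g i) ⊕ Fin (g i)) (Fin (g i) ⊕ Fin (g i)) ℂ) :=
    { carrier := {W | ∃ X ∈ LZ (bigD ℂ Z), PB Z hZ hpos i * X * (PB Z hZ hpos i)ᵀ = W}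
      zero_mem' := ⟨0, Submodule.zero_mem _, by rw [Matrix.mul_zero, Matrix.zero_mul]⟩
      add_mem' := by
        rintro _ _ ⟨X, hX, rfl⟩ ⟨Y, hY, rfl⟩
        exact ⟨X + Y, Submodule.add_mem _ hX hY, by rw [Matrix.mul_add, Matrix.add_mul]⟩
      smul_mem' := by
        rintro c _ ⟨X, hX, rfl⟩
        exact ⟨c • X, Submodule.smul_mem _ _ hX, by rw [Matrix.mul_smul, Matrix.smul_mul]⟩ }
  have hS : LZ (Z i) ≤ S := by
    refine LA_le ⟨?_, ?_⟩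
    · rintro _ ⟨_, rfl, rfl⟩ f
      refine ⟨(DZ (bigD ℂ Z)).map f, ?_, ?_⟩
      · exact LA_gen (D := DZ (g := NB g) '' {bigD ℂ Z}) ⟨_, rfl, rfl⟩ f
      · rw [PB_mapf, P_com, Matrix.mul_assoc, P_same, Matrix.mul_one]
    · rintro _ ⟨X, hX, rfl⟩ _ ⟨Y, hY, rfl⟩
      refine ⟨X * Y - Y * X, LA_br hX hY, ?_⟩
      have hc := Ct_blk Z hZ hpos M i
      have hx := hc X hX
      have hy := hc Y hY
      rw [Matrix.mul_sub, Matrix.sub_mul]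
      congr 1
      · calc PB Z hZ hpos i * (X * Y) * (PB Z hZ hpos i)ᵀ =
            (PB Z hZ hpos i * (PB Z hZ hpos i)ᵀ) * PB Z hZ hpos i * X * Y *
              (PB Z hZ hpos i)ᵀ := by
              rw [P_same, Matrix.one_mul]
              simp only [Matrix.mul_assoc]
        _ = PB Z hZ hpos i * (((PB Z hZ hpos i)ᵀ * PB Z hZ hpos i) * X) * Y *
              (PB Z hZ hpos i)ᵀ := by simp only [Matrix.mul_assoc]
        _ = _ := by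
              rw [hx]
              simp only [Matrix.mul_assoc]
      · calc PB Z hZ hpos i * (Y * X) * (PB Z hZ hpos i)ᵀ =
            (PB Z hZ hpos i * (PB Z hZ hpos i)ᵀ) * PB Z hZ hpos i * Y * X *
              (PB Z hZ hpos i)ᵀ := by
              rw [P_same, Matrix.one_mul]
              simp only [Matrix.mul_assoc]
        _ = PB Z hZ hpos i * (((PB Z hZ hpos i)ᵀ * PB Z hZ hpos i) * Y) * X *
              (PB Z hZ hpos i)ᵀ := by simp only [Matrix.mul_assoc]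
        _ = _ := by
              rw [hy]
              simp only [Matrix.mul_assoc]
  intro W hW
  exact hS hW

/-- Full places of a factor are full places of the product. -/
theorem nil_up (M : Pol (bigD ℂ Z)) (i : ι)
    (e : Matrix (Fin (g i) ⊕ Fin (g i)) (Fin (g i) ⊕ Fin (g i)) ℂ) (_ : Ct (Z i) e)
    (h : Nil (im (LZ (Z i)) e) e) :
    Nil (im (LZ (bigD ℂ Z)) ((PB Z hZ hpos i)ᵀ * e * PB Z hZ hpos i))
      ((PB Z hZ hpos i)ᵀ * e * PB Z hZ hpos i) := by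
  intro v l hv hl hlv
  obtain ⟨Pb, hPb⟩ : ∃ Pb, Pb = PB Z hZ hpos i := ⟨_, rfl⟩
  have hP1 : Pb * Pbᵀ = 1 := by rw [hPb]; exact P_same Z hZ hpos i
  rw [← hPb] at hv hl ⊢
  have e1 : e *ᵥ (Pb *ᵥ v) = Pb *ᵥ v := by
    have h1 := congrArg (fun z => Pb *ᵥ z) hv
    simp only [mulVec_mulVec] at h1
    rw [← Matrix.mul_assoc, ← Matrix.mul_assoc, hP1, Matrix.one_mul] at h1
    rw [mulVec_mulVec, h1]
  have e2 : Pbᵀ *ᵥ (Pb *ᵥ v) = v := by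
    rw [← e1]
    rw [mulVec_mulVec, mulVec_mulVec]
    exact hv
  have e3 : (l ᵥ* Pbᵀ) ᵥ* e = l ᵥ* Pbᵀ := by
    have h1 := congrArg (fun z => z ᵥ* Pbᵀ) hl
    simp only [vecMul_vecMul] at h1
    rw [Matrix.mul_assoc (Pbᵀ * e), hP1, Matrix.mul_one] at h1
    rw [vecMul_vecMul, h1]
  have e4 : (l ᵥ* Pbᵀ) ᵥ* Pb = l := by
    rw [← e3, vecMul_vecMul, vecMul_vecMul, ← Matrix.mul_assoc]
    exact hl
  have e5 : (l ᵥ* Pbᵀ) ⬝ᵥ (Pb *ᵥ v) = 0 := by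
    rw [dotProduct_mulVec, e4, hlv]
  obtain ⟨X, hX, hX1⟩ := h (Pb *ᵥ v) (l ᵥ* Pbᵀ) e1 e3 e5
  obtain ⟨Y, hY, hY1⟩ := LZ_up Z hZ hpos M i X hX
  rw [← hPb] at hY1
  refine ⟨Y, hY, ?_⟩
  have hc : Pbᵀ * Pb * Y = Y * (Pbᵀ * Pb) := by
    rw [hPb]
    exact Ct_blk Z hZ hpos M i Y hY
  have h6 : Y * Pbᵀ = Pbᵀ * X := by
    calc Y * Pbᵀ = Y * Pbᵀ * (Pb * Pbᵀ) := by rw [hP1, Matrix.mul_one]
    _ = (Y * (Pbᵀ * Pb)) * Pbᵀ := by simp only [Matrix.mul_assoc]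
    _ = Pbᵀ * (Pb * Y * Pbᵀ) := by
      rw [← hc]
      simp only [Matrix.mul_assoc]
    _ = _ := by rw [hY1]
  calc Y * (Pbᵀ * e * Pb) = (Y * Pbᵀ) * e * Pb := by simp only [Matrix.mul_assoc]
  _ = Pbᵀ * (X * e) * Pb := by rw [h6]; simp only [Matrix.mul_assoc]
  _ = Pbᵀ * vecMulVec (Pb *ᵥ v) (l ᵥ* Pbᵀ) * Pb := by rw [hX1]
  _ = vecMulVec v l := by rw [mul_vecMulVec, vecMulVec_mul, e2, e4]

end

section

variable {𝒲 : Set (ℕ × ℕ)} {𝒞 : AV → Prop} {ι : Type} [Fintype ι] [DecidableEq ι] {g : ι → ℕ}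
    (Z : ∀ i, Matrix (Fin (g i)) (Fin (g i)) ℂ) (hZ : ∀ i, (Z i)ᵀ = Z i)
    (hpos : ∀ i, (imM (Z i)).PosDef) (Fa : ∀ i, Fam 𝒲 𝒞 (Z i) (hZ i) (hpos i))

theorem VQ_idem (i : ι) (r : (Fa i).R) :
    ((Fa i).V r * (Fa i).Q r) * ((Fa i).V r * (Fa i).Q r) = (Fa i).V r * (Fa i).Q r := by
  calc ((Fa i).V r * (Fa i).Q r) * ((Fa i).V r * (Fa i).Q r) =
      (Fa i).V r * ((Fa i).Q r * (Fa i).V r) * (Fa i).Q r := by simp only [Matrix.mul_assoc]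
  _ = _ := by rw [(Fa i).QV, Matrix.mul_one]

theorem VQ_trace (i : ι) (r : (Fa i).R) :
    trace ((Fa i).V r * (Fa i).Q r) = ((Fa i).n r : ℂ) := by
  rw [trace_mul_comm, (Fa i).QV, trace_one, Fintype.card_fin]

theorem n_pos (i : ι) (r : (Fa i).R) : 0 < (Fa i).n r := by
  rcases (Fa i).num r with h | ⟨h, -⟩ <;> omega

/-- The primitive idempotents of the factors. -/
theorem mkE (M : Pol (bigD ℂ Z)) (i : ι) (r : (Fa i).R) : ∃ E : Pr (bigD ℂ Z),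
    E.e = (PB Z hZ hpos i)ᵀ * ((Fa i).V r * (Fa i).Q r) * PB Z hZ hpos i := by
  refine ⟨⟨(PB Z hZ hpos i)ᵀ * ((Fa i).V r * (Fa i).Q r) * PB Z hZ hpos i, ?_, ?_, ?_, ?_⟩, rfl⟩
  · exact Ct_up Z hZ hpos M i _ ((Fa i).mem r)
  · rw [inj_mul, VQ_idem]
  · intro h
    have h1 := congrArg trace h
    rw [trace_inj, trace_zero, VQ_trace] at h1
    have h2 : (Fa i).n r = 0 := by exact_mod_cast h1
    have h3 := n_pos Z hZ hpos Fa i r
    omega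
  · intro c hc
    obtain ⟨lam, hlam⟩ := (Fa i).prim r _ (Ct_dn Z hZ hpos M i c hc)
    refine ⟨lam, ?_⟩
    calc (PB Z hZ hpos i)ᵀ * ((Fa i).V r * (Fa i).Q r) * PB Z hZ hpos i * c *
          ((PB Z hZ hpos i)ᵀ * ((Fa i).V r * (Fa i).Q r) * PB Z hZ hpos i) =
        (PB Z hZ hpos i)ᵀ * ((Fa i).V r * (Fa i).Q r * (PB Z hZ hpos i * c * (PB Z hZ hpos i)ᵀ) *
          ((Fa i).V r * (Fa i).Q r)) * PB Z hZ hpos i := by simp only [Matrix.mul_assoc]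
    _ = _ := by rw [hlam, Matrix.mul_smul, Matrix.smul_mul]

theorem mu_sum (M : Pol (bigD ℂ Z)) (i : ι) (r : (Fa i).R) (E : Pr (bigD ℂ Z))
    (hE : E.e = (PB Z hZ hpos i)ᵀ * ((Fa i).V r * (Fa i).Q r) * PB Z hZ hpos i) (σ : ℂ ≃+* ℂ) :
    mu (M.act σ E) + mu (M.bar (M.act σ E)) = (Fa i).n r := by
  rw [M.mu_act]
  have h := M.trace_e E
  rw [hE, trace_inj, VQ_trace] at h
  exact_mod_cast h.symm

theorem mu_sub (M : Pol (bigD ℂ Z)) (i : ι) (r : (Fa i).R) (E : Pr (bigD ℂ Z))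
    (hE : E.e = (PB Z hZ hpos i)ᵀ * ((Fa i).V r * (Fa i).Q r) * PB Z hZ hpos i) (σ : ℂ ≃+* ℂ) :
    (mu (M.act σ E) : ℤ) - (mu (M.bar (M.act σ E)) : ℤ) = ((Fa i).L r).s σ := by
  have h1 := M.trace_pr (M.act σ E)
  have h2 := M.trace_qr (M.act σ E)
  have h3 : trace (DZ (bigD ℂ Z) * (M.act σ E).e) = (mu (M.act σ E) : ℂ) -
      (mu (M.bar (M.act σ E)) : ℂ) := by
    rw [← h1, ← h2, ← trace_sub, Pool.Agent.Y4.K.pr_sub_qr']
  rw [M.act_e, hE, trace_blk, ← (Fa i).hs, map_intCast] at h3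
  exact_mod_cast h3.symm

/-- **Alignment.** -/
theorem aln : S_aln := by
  intro 𝒲 𝒞 ι _ _ g Z hZ hpos Fa M
  have hall : ∀ φ : Pr (bigD ℂ Z), ∃ (i : ι) (r : (Fa i).R) (E : Pr (bigD ℂ Z)),
      E.e = (PB Z hZ hpos i)ᵀ * ((Fa i).V r * (Fa i).Q r) * PB Z hZ hpos i ∧ Eqv E φ := by
    intro φ
    choose E hE using fun i r => mkE Z hZ hpos Fa M i r
    have hsum : ∑ s : Σ i, (Fa i).R, (E s.1 s.2).e = 1 := by
      rw [Fintype.sum_sigma, ← P_tot Z hZ hpos]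
      refine Finset.sum_congr rfl fun i _ => ?_
      calc ∑ r, (E i r).e = ∑ r, (PB Z hZ hpos i)ᵀ * ((Fa i).V r * (Fa i).Q r) * PB Z hZ hpos i :=
            Finset.sum_congr rfl fun r _ => hE i r
      _ = (PB Z hZ hpos i)ᵀ * (∑ r, (Fa i).V r * (Fa i).Q r) * PB Z hZ hpos i := by
        rw [Matrix.mul_sum, Matrix.sum_mul]
      _ = _ := by rw [(Fa i).tot, Matrix.mul_one]
    obtain ⟨⟨i, r⟩, h⟩ := M.eqv_family (ε := fun s : Σ i, (Fa i).R => E s.1 s.2) hsum φ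
    exact ⟨i, r, E i r, hE i r, h⟩
  -- the multiplicities of the conjugates of a place
  have hmu : ∀ φ : Pr (bigD ℂ Z), ∃ (i : ι) (r : (Fa i).R), ∀ σ : ℂ ≃+* ℂ,
      mu (M.act σ φ) + mu (M.bar (M.act σ φ)) = (Fa i).n r ∧
      (mu (M.act σ φ) : ℤ) - (mu (M.bar (M.act σ φ)) : ℤ) = ((Fa i).L r).s σ := by
    intro φ
    obtain ⟨i, r, E, hE, h⟩ := hall φ
    refine ⟨i, r, fun σ => ?_⟩
    rw [← M.mu_eqv (M.eqv_act h σ), ← M.mu_eqv (M.eqv_bar (M.eqv_act h σ))]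
    exact ⟨mu_sum Z hZ hpos Fa M i r E hE σ, mu_sub Z hZ hpos Fa M i r E hE σ⟩
  have hnil : ∀ φ : Pr (bigD ℂ Z), Nil (im (LZ (bigD ℂ Z)) φ.e) φ.e := by
    intro φ
    obtain ⟨i, r, E, hE, h⟩ := hall φ
    refine h.nil le_rfl ?_
    rcases (Fa i).num r with h1 | ⟨-, -, h3⟩
    · refine nil_rank_one _ E.idem ?_
      rw [hE, trace_inj, VQ_trace, h1, Nat.cast_one]
    · rw [hE]
      exact nil_up Z hZ hpos M i _ ((Fa i).mem r) h3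
  have hpos' : ∀ φ : Pr (bigD ℂ Z), mu φ + mu (M.bar φ) ≠ 1 → ∀ σ : ℂ ≃+* ℂ,
      0 < mu (M.act σ φ) ∧ 0 < mu (M.bar (M.act σ φ)) := by
    intro φ hne σ
    obtain ⟨i, r, h⟩ := hmu φ
    have h0 := M.mu_act σ φ
    obtain ⟨h4, h5⟩ := h σ
    rcases (Fa i).num r with h1 | ⟨h3, h6, -⟩
    · exfalso
      apply hne
      omega
    · obtain ⟨p, q, hp, hq, hpq, hs⟩ := h6 σ
      rw [hs] at h5
      omega
  have h3 : ∀ φ : Pr (bigD ℂ Z), mu φ + mu (M.bar φ) ≠ 2 ∧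
      (mu φ + mu (M.bar φ) = 1 ∨ 3 ≤ mu φ + mu (M.bar φ)) := by
    intro φ
    obtain ⟨i, r, h⟩ := hmu φ
    obtain ⟨h4, h5⟩ := h (RingEquiv.refl ℂ)
    rw [M.mu_act] at h4
    rw [h4]
    rcases (Fa i).num r with h1 | ⟨h3, -⟩ <;> omega
  refine ⟨⟨hnil, fun φ hne => ⟨RingEquiv.refl ℂ, (hpos' φ hne _).1.ne', (hpos' φ hne _).2.ne'⟩⟩,
    ?_, ?_, ?_⟩
  · intro φ ψ _ _ _ hne h σ
    rcases h σ with h1 | ⟨h1, -⟩
    · exact h1
    · exfalso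
      obtain ⟨h2, h3⟩ := hpos' φ hne σ
      have h4 := Nat.mul_pos h2 h3
      omega
  · intro φ
    refine ⟨fun hb => ?_, (h3 φ).1⟩
    rcases (h3 φ).2 with h4 | h4
    · have h5 := M.mu_eqv hb
      omega
    · exact not_sc M φ (hnil φ) h4 hb
  · intro φ
    obtain ⟨i, r, E, hE, a, c, h⟩ := hall φ
    exact ⟨i, r, c, a, h.cb, h.ca, h.ab, by rw [h.ba, hE]⟩

end

end Pool.Agent.Q180.UV.Aln
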