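import Mathlib
import Pool.Agent.Q180.UW.SySum
import Pool.Agent.Q180.UV.StmL
import Pool.Agent.Q180.UW.SyP
import Pool.Agent.Q180.WT.Core

/-!
# The expansion of a Hodge tensor for two blocks
-/

set_option linter.unusedSectionVars false
set_option linter.unusedVariables false

namespace Pool.Agent.Q180.UV.Exp

open Matrix Module Pool.Agent.H204R3.CM Pool.Agent.H204R3.SP Pool.Agent.H204R3.GP
  Pool.Agent.H194R3.CM Pool.Agent.W437.HC
  Pool.Agent.W437.HD Pool.Agent.W437.HP Pool.Agent.W437.HR Pool.Agent.Y4.K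
open Pool.Agent.Y4.H (LZ Ct D_mem_LZ Dσ_mem_LZ)
open Pool.Agent.Q180.WT (Fr PB)
open Pool.Agent.Q180.UW

variable {g : Bool → ℕ} {Z : ∀ b, Matrix (Fin (g b)) (Fin (g b)) ℂ}

/-- The elements of the Lie algebra which vanish on the second block. -/
noncomputable def I0 (T : Two g Z) : Submodule ℂ (Matrix (Fin (NB g) ⊕ Fin (NB g)) (Fin (NB g) ⊕ Fin (NB g)) ℂ) :=
  lieM (DZ (bigD ℂ Z)) ℂ ⊓ LinearMap.ker ((blocksOf Z T.hZ T.hpos).bl ℂ false)

theorem I0_mem (T : Two g Z) (X : I0 T) : X.1 ∈ lieM (DZ (bigD ℂ Z)) ℂ := X.2.1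

theorem I0_bl (T : Two g Z) (X : I0 T) : (blocksOf Z T.hZ T.hpos).bl ℂ false X.1 = 0 := X.2.2

/-- The bracket. -/
noncomputable def brI (T : Two g Z) (X Y : I0 T) : I0 T :=
  ⟨X.1 * Y.1 - Y.1 * X.1, lieM_bracket _ X.2.1 Y.2.1, by
    change (blocksOf Z T.hZ T.hpos).bl ℂ false (X.1 * Y.1 - Y.1 * X.1) = 0
    rw [Blocks.bl_bracket _ X.2.1 Y.2.1, I0_bl, I0_bl, zero_mul, sub_zero]⟩

/-- The conjugates of the Hodge operator on the first block. -/
theorem exists_I0 (T : Two g Z)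
    (h2 : ∀ W ∈ LZ (Z false), ∃ X ∈ lieM (DZ (bigD ℂ Z)) ℂ,
      (blocksOf Z T.hZ T.hpos).bl ℂ false X = W ∧ (blocksOf Z T.hZ T.hpos).bl ℂ true X = 0)
    (σ : ℂ ≃+* ℂ) : ∃ X : I0 T, (blocksOf Z T.hZ T.hpos).bl ℂ true X.1 =
      (DZ (Z true)).map (σ : ℂ →+* ℂ) := by
  have hbl : ∀ i, (blocksOf Z T.hZ T.hpos).bl ℂ i ((DZ (bigD ℂ Z)).map (σ : ℂ →+* ℂ)) =
      (DZ (Z i)).map (σ : ℂ →+* ℂ) := by
    intro i
    rw [Blocks.bl_apply]
    have h3 := Pool.Agent.Q180.WT.PB_D Z T.hZ T.hpos i σ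
    have h4 := Pool.Agent.Q180.WT.PB_same Z T.hZ T.hpos i
    unfold Pool.Agent.Q180.WT.PB at h3 h4
    rw [h3, Matrix.mul_assoc, h4, Matrix.mul_one]
  have hX : (DZ (bigD ℂ Z)).map (σ : ℂ →+* ℂ) ∈ lieM (DZ (bigD ℂ Z)) ℂ :=
    map_mem_aut (D_mem _) (σ : ℂ →+* ℂ)
  obtain ⟨X', hX', e1, e2⟩ := h2 _ (Dσ_mem_LZ σ)
  refine ⟨⟨(DZ (bigD ℂ Z)).map (σ : ℂ →+* ℂ) - X', Submodule.sub_mem _ hX hX', ?_⟩, ?_⟩
  · change (blocksOf Z T.hZ T.hpos).bl ℂ false ((DZ (bigD ℂ Z)).map (σ : ℂ →+* ℂ) - X') = 0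
    rw [map_sub, hbl, e1, sub_self]
  · change (blocksOf Z T.hZ T.hpos).bl ℂ true ((DZ (bigD ℂ Z)).map (σ : ℂ →+* ℂ) - X') = _
    rw [map_sub, hbl, e2, sub_zero]

/-- The system of the first block. -/
theorem exists_sy1 (T : Two g Z)
    (h1 : ∃ (A : Type) (_ : Fintype A) (_ : DecidableEq A)
      (N : A → Submodule ℂ (Fin (g true) ⊕ Fin (g true) → ℂ))
      (w : ∀ a, N a →ₗ[ℂ] N a →ₗ[ℂ] ℂ)
      (π : ∀ a, (Fin (g true) ⊕ Fin (g true) → ℂ) →ₗ[ℂ] N a)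
      (hst : ∀ a, ∀ X ∈ lieM (DZ (Z true)) ℂ, ∀ x ∈ N a, X *ᵥ x ∈ N a),
      (∀ y, y = ∑ a, (π a y : Fin (g true) ⊕ Fin (g true) → ℂ)) ∧
      (∀ a, Nontrivial (N a)) ∧ (∀ a x, w a x x = 0) ∧ (∀ a x, (∀ y, w a x y = 0) → x = 0) ∧
      (∀ a X, IsSp (w a) (rsN (N a) (hst a) X)) ∧
      (∀ a, ∀ X ∈ lieM (DZ (Z true)) ℂ, ∀ y, (π a (X *ᵥ y) : Fin (g true) ⊕ Fin (g true) → ℂ) =
        X *ᵥ (π a y : Fin (g true) ⊕ Fin (g true) → ℂ)) ∧
      (∀ a x y, ∃ X : lieM (DZ (bigD ℂ Z)) ℂ,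
        (blocksOf Z T.hZ T.hpos).bl ℂ false X.1 = 0 ∧
        rsN (N a) (hst a) ((blocksOf Z T.hZ T.hpos).blL true X) = EE (w a) x y)) :
    ∃ S : Sy (Fin (g true) ⊕ Fin (g true))
        (Set.range fun X : I0 T => (blocksOf Z T.hZ T.hpos).bl ℂ true X.1),
      (∀ p, S.b p = p) ∧ (∀ p σ, S.wt p σ = 0) ∧
      ∀ p a a', ∃ G : Matrix (Fin (g true) ⊕ Fin (g true)) (Fin (g true) ⊕ Fin (g true)) ℂ,
        (∀ y y', S.form p a a' y y' = y ⬝ᵥ (G *ᵥ y')) ∧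
        ∀ X : I0 T, ((blocksOf Z T.hZ T.hpos).bl ℂ true X.1)ᵀ * G +
          G * (blocksOf Z T.hZ T.hpos).bl ℂ true X.1 = 0 := by
  obtain ⟨A, _, _, N, w, π, hst, hsum, hnt, halt, hnon, hsp, hπ, hful⟩ := h1
  let incl : I0 T →ₗ[ℂ] lieM (DZ (bigD ℂ Z)) ℂ := Submodule.inclusion inf_le_left
  let s : Sys (I0 T) (brI T) (N := fun a : A => ↥(N a)) :=
    { w := w
      ρ := fun a => (rsN (N a) (hst a)) ∘ₗ ((blocksOf Z T.hZ T.hpos).blL true) ∘ₗ incl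
      alt := halt
      nd := hnon
      brk := fun a X Y => by
        have e1 : incl (brI T X Y) = brL (DZ (bigD ℂ Z)) (incl X) (incl Y) := rfl
        rw [LinearMap.comp_apply, LinearMap.comp_apply, e1, Blocks.blL_brL, rsN_brL]
        rfl
      sp := fun a X => hsp a _
      full := fun a x y => by
        obtain ⟨X, hX1, hX2⟩ := hful a x y
        exact ⟨⟨X.1, X.2, hX1⟩, hX2⟩ }
  have hS := exists_syP s (((blocksOf Z T.hZ T.hpos).bl ℂ true) ∘ₗ (I0 T).subtype)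
    (fun a => (N a).subtype) (fun a => π a) hsum (fun a X u => rfl) (fun a X y => by
      apply Subtype.ext
      exact hπ a _ ((blocksOf Z T.hZ T.hpos).bl_mem X.2.1 true) y)
  exact hS

/-- **The expansion.** -/
theorem exp (hsplit : S_split) (hlab : S_lab) (hmem : S_memtr) (htor : S_tor) : S_exp := by
  classical
  intro g Z T M κ _ _ c hc
  obtain ⟨hs1, hs2⟩ := hsplit g Z T
  obtain ⟨S1, hS1b, hS1w, hS1f⟩ := exists_sy1 T hs1
  have hcop := T.cop M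
  have hsep := T.sep M
  obtain ⟨F⟩ := exists_fr M hcop
  obtain ⟨bk, hbk⟩ : ∃ bk, bk = blocksOf Z T.hZ T.hpos := ⟨_, rfl⟩
  obtain ⟨P1, hP1⟩ : ∃ P1, P1 = PB Z T.hZ T.hpos true := ⟨_, rfl⟩
  obtain ⟨P2, hP2⟩ : ∃ P2, P2 = PB Z T.hZ T.hpos false := ⟨_, rfl⟩
  have h11 : P1 * P1ᵀ = 1 := by rw [hP1]; exact Pool.Agent.Q180.WT.PB_same Z T.hZ T.hpos true
  have h22 : P2 * P2ᵀ = 1 := by rw [hP2]; exact Pool.Agent.Q180.WT.PB_same Z T.hZ T.hpos false
  have htot : P1ᵀ * P1 + P2ᵀ * P2 = 1 := by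
    have h := (blocksOf Z T.hZ T.hpos).totK (K := ℂ)
    rw [Fintype.sum_bool] at h
    rw [hP1, hP2]
    exact h
  have hadd : ∀ X ∈ (lieM (DZ (bigD ℂ Z)) ℂ : Set (Matrix (Fin (NB g) ⊕ Fin (NB g)) (Fin (NB g) ⊕ Fin (NB g)) ℂ)),
      ∀ Y ∈ (lieM (DZ (bigD ℂ Z)) ℂ : Set (Matrix (Fin (NB g) ⊕ Fin (NB g)) (Fin (NB g) ⊕ Fin (NB g)) ℂ)),
      X + Y ∈ (lieM (DZ (bigD ℂ Z)) ℂ : Set (Matrix (Fin (NB g) ⊕ Fin (NB g)) (Fin (NB g) ⊕ Fin (NB g)) ℂ)) :=
    fun X hX Y hY => (lieM (DZ (bigD ℂ Z)) ℂ).add_mem hX hY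
  have hL1 : ∀ W ∈ Set.range (fun X : I0 T => (blocksOf Z T.hZ T.hpos).bl ℂ true X.1),
      ∃ X ∈ (lieM (DZ (bigD ℂ Z)) ℂ : Set
        (Matrix (Fin (NB g) ⊕ Fin (NB g)) (Fin (NB g) ⊕ Fin (NB g)) ℂ)), X * P1ᵀ = P1ᵀ * W ∧ X * P2ᵀ = 0 := by
    rintro _ ⟨X, rfl⟩
    refine ⟨X.1, X.2.1, ?_, ?_⟩
    · rw [hP1]
      exact (blocksOf Z T.hZ T.hpos).mul_inc X.2.1 true
    · rw [hP2]
      have h := (blocksOf Z T.hZ T.hpos).mul_inc X.2.1 false
      rw [I0_bl, Matrix.mul_zero] at h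
      exact h
  have hL2 : ∀ W ∈ (LZ (Z false) :
      Set (Matrix (Fin (g false) ⊕ Fin (g false)) (Fin (g false) ⊕ Fin (g false)) ℂ)),
      ∃ X ∈ (lieM (DZ (bigD ℂ Z)) ℂ : Set
        (Matrix (Fin (NB g) ⊕ Fin (NB g)) (Fin (NB g) ⊕ Fin (NB g)) ℂ)), X * P1ᵀ = 0 ∧ X * P2ᵀ = P2ᵀ * W := by
    intro W hW
    obtain ⟨X, hX, e1, e2⟩ := hs2 W hW
    refine ⟨X, hX, ?_, ?_⟩
    · rw [hP1]
      have h := (blocksOf Z T.hZ T.hpos).mul_inc hX true
      rw [e2, Matrix.mul_zero] at h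
      exact h
    · rw [hP2]
      have h := (blocksOf Z T.hZ T.hpos).mul_inc hX false
      rw [e1] at h
      exact h
  have hD1 : ∀ σ : ℂ ≃+* ℂ, P1 * (DZ (bigD ℂ Z)).map (σ : ℂ →+* ℂ) =
      (DZ (Z true)).map (σ : ℂ →+* ℂ) * P1 := fun σ => by
    rw [hP1]
    exact Pool.Agent.Q180.WT.PB_D Z T.hZ T.hpos true σ
  have hD2 : ∀ σ : ℂ ≃+* ℂ, P2 * (DZ (bigD ℂ Z)).map (σ : ℂ →+* ℂ) =
      (DZ (Z false)).map (σ : ℂ →+* ℂ) * P2 := fun σ => by
    rw [hP2]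
    exact Pool.Agent.Q180.WT.PB_D Z T.hZ T.hpos false σ
  obtain ⟨S2, hS2⟩ : ∃ S2, S2 = syF F hcop hsep hmem htor := ⟨_, rfl⟩
  have hexp := (Sy.sum S1 (syF F hcop hsep hmem htor) P1 P2 htot hadd hL1 hL2).expand hlab κ c hc
  refine Submodule.span_mono ?_ hexp
  rintro f ⟨l, p, q, ν, n, ζ, e, α, h1, h2, rfl⟩
  have hq : ∀ j, ∃ p : F.P, q j = (Sum.inr p : S1.P ⊕ F.P) := by
    intro j
    have h3 := h1 j
    rcases hqj : (q j : S1.P ⊕ F.P) with p | p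
    · exfalso
      apply h3
      rw [hqj]
      exact congrArg Sum.inl (hS1b p)
    · exact ⟨p, rfl⟩
  choose q2 hq2 using hq
  obtain rfl : q = fun j => (Sum.inr (q2 j) : S1.P ⊕ F.P) := funext hq2
  have hζ : ∀ j (i : Fin (n j)), ∃ z : F.R, (ζ j i).1 = (Sum.inr z : S1.R ⊕ F.R) ∧
      F.cls z = q2 j := by
    intro j i
    have h3 := (ζ j i).2
    rcases hz : ((ζ j i).1 : S1.R ⊕ F.R) with z | z
    · rw [hz] at h3
      exact absurd h3 (by
        change ¬ (Sum.inl (S1.cls z) : S1.P ⊕ F.P) = Sum.inr (q2 j)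
        simp)
    · rw [hz] at h3
      exact ⟨z, rfl, Sum.inr_injective h3⟩
  choose z hz1 hz2 using hζ
  have hzinj : ∀ j i i', z j i = z j i' → i = i' := by
    intro j i i' h
    apply (ζ j).injective
    apply Subtype.ext
    rw [hz1, hz1, h]
  have hzsurj : ∀ j (y : F.R), F.cls y = q2 j → ∃ i, z j i = y := by
    intro j y hy
    obtain ⟨i, hi⟩ := (ζ j).surjective ⟨(Sum.inr y : S1.R ⊕ F.R), congrArg Sum.inr hy⟩
    refine ⟨i, Sum.inr_injective (α := S1.R) ?_⟩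
    rw [← hz1, hi]
  -- the elements of the commutant
  let γ : S1.𝒜 ⊕ F.I → Matrix (Fin (g false) ⊕ Fin (g false)) (Fin (g false) ⊕ Fin (g false)) ℂ :=
    Sum.elim (fun _ => 0) F.β
  have hγ : ∀ a, Ct (Z false) (γ a) := by
    rintro (a | a)
    · intro X hX
      change (0 : Matrix _ _ ℂ) * X = X * 0
      rw [zero_mul, mul_zero]
    · exact (F.hαβ a).cb
  have hG : ∀ s : Fin p, ∃ G : Matrix (Fin (NB g) ⊕ Fin (NB g)) (Fin (NB g) ⊕ Fin (NB g)) ℂ,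
      (∀ y y', (Sy.sum S1 (syF F hcop hsep hmem htor) P1 P2 htot hadd hL1 hL2).form (ν s)
        (α (e (Sum.inr (s, 0)))) (α (e (Sum.inr (s, 1)))) y y' = y ⬝ᵥ (G *ᵥ y')) ∧
      ∀ σ : ℂ ≃+* ℂ, ((DZ (bigD ℂ Z)).map σ)ᵀ * G + G * (DZ (bigD ℂ Z)).map σ = 0 := by
    intro s
    have hzero : ∀ σ : ℂ ≃+* ℂ, ((DZ (bigD ℂ Z)).map σ)ᵀ *
        (0 : Matrix (Fin (NB g) ⊕ Fin (NB g)) (Fin (NB g) ⊕ Fin (NB g)) ℂ) +
        0 * (DZ (bigD ℂ Z)).map σ = 0 := fun σ => by rw [mul_zero, zero_mul, add_zero]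
    rcases hν : (ν s : S1.P ⊕ F.P) with p' | p'
    · rcases h0 : (α (e (Sum.inr (s, 0))) : S1.𝒜 ⊕ F.I) with a | a
      · rcases h1' : (α (e (Sum.inr (s, 1))) : S1.𝒜 ⊕ F.I) with a' | a'
        · obtain ⟨G, hG1, hG2⟩ := hS1f p' a a'
          refine ⟨P1ᵀ * G * P1, fun y y' => ?_, fun σ => ?_⟩
          · refine (Sy.sum_form_inl S1 (syF F hcop hsep hmem htor) P1 P2 htot hadd hL1 hL2 p' _ _
              y y').trans ?_
            change S1.form p' a a' (P1 *ᵥ y) (P1 *ᵥ y') = _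
            rw [hG1, ← mulVec_mulVec, ← mulVec_mulVec, dotProduct_mulVec y, vecMul_transpose]
          · obtain ⟨X, hX⟩ := exists_I0 T hs2 σ
            have h4 := hG2 X
            rw [hX] at h4
            have h5 := hD1 σ
            have h6 := congrArg transpose h5
            rw [transpose_mul, transpose_mul] at h6
            change ((DZ (bigD ℂ Z)).map (σ : ℂ →+* ℂ))ᵀ * (P1ᵀ * G * P1) +
              (P1ᵀ * G * P1) * (DZ (bigD ℂ Z)).map (σ : ℂ →+* ℂ) = 0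
            calc _ = ((DZ (bigD ℂ Z)).map (σ : ℂ →+* ℂ))ᵀ * P1ᵀ * (G * P1) +
                  P1ᵀ * G * (P1 * (DZ (bigD ℂ Z)).map (σ : ℂ →+* ℂ)) := by
                  simp only [Matrix.mul_assoc]
              _ = P1ᵀ * ((((DZ (Z true)).map (σ : ℂ →+* ℂ))ᵀ * G +
                  G * (DZ (Z true)).map (σ : ℂ →+* ℂ)) * P1) := by
                  rw [h5, h6, Matrix.add_mul, Matrix.mul_add]
                  simp only [Matrix.mul_assoc]
              _ = 0 := by rw [h4, Matrix.zero_mul, Matrix.mul_zero]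
        · refine ⟨0, fun y y' => ?_, hzero⟩
          refine (Sy.sum_form_inl S1 (syF F hcop hsep hmem htor) P1 P2 htot hadd hL1 hL2 p' _ _
            y y').trans ?_
          rw [zero_mulVec, dotProduct_zero]
          rfl
      · refine ⟨0, fun y y' => ?_, hzero⟩
        refine (Sy.sum_form_inl S1 (syF F hcop hsep hmem htor) P1 P2 htot hadd hL1 hL2 p' _ _
          y y').trans ?_
        rw [zero_mulVec, dotProduct_zero]
        rfl
    · rcases h0 : (α (e (Sum.inr (s, 0))) : S1.𝒜 ⊕ F.I) with a | a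
      · refine ⟨0, fun y y' => ?_, hzero⟩
        refine (Sy.sum_form_inr S1 (syF F hcop hsep hmem htor) P1 P2 htot hadd hL1 hL2 p' _ _
          y y').trans ?_
        rw [zero_mulVec, dotProduct_zero]
        rfl
      · rcases h1' : (α (e (Sum.inr (s, 1))) : S1.𝒜 ⊕ F.I) with a' | a'
        · refine ⟨0, fun y y' => ?_, hzero⟩
          refine (Sy.sum_form_inr S1 (syF F hcop hsep hmem htor) P1 P2 htot hadd hL1 hL2 p' _ _
            y y').trans ?_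
          rw [zero_mulVec, dotProduct_zero]
          rfl
        · obtain ⟨G, hGd⟩ : ∃ G, G = (F.β a)ᵀ * ((F.ρ p').eᵀ * F.O) * F.β a' := ⟨_, rfl⟩
          have h4 : ∀ σ : ℂ ≃+* ℂ, ((DZ (Z false)).map (σ : ℂ →+* ℂ))ᵀ * G +
              G * (DZ (Z false)).map (σ : ℂ →+* ℂ) = 0 := by
            intro σ
            have hX : (DZ (Z false)).map (σ : ℂ →+* ℂ) ∈ lieM (DZ (Z false)) ℂ :=
              map_mem_aut (D_mem _) (σ : ℂ →+* ℂ)
            obtain ⟨X, hXd⟩ : ∃ X, X = (DZ (Z false)).map (σ : ℂ →+* ℂ) := ⟨_, rfl⟩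
            rw [← hXd] at hX ⊢
            have c0 := M.comm_lieM (F.hαβ a).cb hX
            have c1 := M.comm_lieM (F.hαβ a').cb hX
            have c2 := M.comm_lieM (F.ρ p').mem hX
            have c3 := F.hUX hX
            rw [hGd]
            obtain ⟨β0, hβ0⟩ : ∃ β0, β0 = F.β a := ⟨_, rfl⟩
            obtain ⟨β1, hβ1⟩ : ∃ β1, β1 = F.β a' := ⟨_, rfl⟩
            rw [← hβ0] at c0 ⊢
            rw [← hβ1] at c1 ⊢
            have d0 : Xᵀ * β0ᵀ = β0ᵀ * Xᵀ := by rw [← transpose_mul, ← transpose_mul, c0]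
            have d2 : Xᵀ * (F.ρ p').eᵀ = (F.ρ p').eᵀ * Xᵀ := by
              rw [← transpose_mul, ← transpose_mul, c2]
            calc Xᵀ * (β0ᵀ * ((F.ρ p').eᵀ * F.O) * β1) +
                  β0ᵀ * ((F.ρ p').eᵀ * F.O) * β1 * X =
                (Xᵀ * β0ᵀ) * ((F.ρ p').eᵀ * F.O) * β1 +
                  β0ᵀ * ((F.ρ p').eᵀ * F.O) * (β1 * X) := by noncomm_ring
              _ = β0ᵀ * (Xᵀ * (F.ρ p').eᵀ) * F.O * β1 +
                  β0ᵀ * ((F.ρ p').eᵀ * F.O) * (X * β1) := by rw [d0, c1]; noncomm_ring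
              _ = β0ᵀ * (F.ρ p').eᵀ * (Xᵀ * F.O + F.O * X) * β1 := by rw [d2]; noncomm_ring
              _ = 0 := by rw [c3, mul_zero, zero_mul]
          refine ⟨P2ᵀ * G * P2, fun y y' => ?_, fun σ => ?_⟩
          · refine (Sy.sum_form_inr S1 (syF F hcop hsep hmem htor) P1 P2 htot hadd hL1 hL2 p' _ _
              y y').trans ?_
            change (syF F hcop hsep hmem htor).form p' a a' (P2 *ᵥ y) (P2 *ᵥ y') = _
            refine (syF_form F hcop hsep hmem htor p' a a' _ _).trans ?_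
            rw [← hGd, ← mulVec_mulVec, ← mulVec_mulVec, dotProduct_mulVec y,
              vecMul_transpose]
          · have h5 := hD2 σ
            have h6 := congrArg transpose h5
            rw [transpose_mul, transpose_mul] at h6
            change ((DZ (bigD ℂ Z)).map (σ : ℂ →+* ℂ))ᵀ * (P2ᵀ * G * P2) +
              (P2ᵀ * G * P2) * (DZ (bigD ℂ Z)).map (σ : ℂ →+* ℂ) = 0
            calc _ = ((DZ (bigD ℂ Z)).map (σ : ℂ →+* ℂ))ᵀ * P2ᵀ * (G * P2) +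
                  P2ᵀ * G * (P2 * (DZ (bigD ℂ Z)).map (σ : ℂ →+* ℂ)) := by
                  simp only [Matrix.mul_assoc]
              _ = P2ᵀ * ((((DZ (Z false)).map (σ : ℂ →+* ℂ))ᵀ * G +
                  G * (DZ (Z false)).map (σ : ℂ →+* ℂ)) * P2) := by
                  rw [h5, h6, Matrix.add_mul, Matrix.mul_add]
                  simp only [Matrix.mul_assoc]
              _ = 0 := by rw [h4, Matrix.zero_mul, Matrix.mul_zero]
  choose G hG1 hG2 using hG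
  have hVQ : ∀ j, (Matrix.of fun k (i : Fin (n j)) => F.ev (z j i) k) *
      (Matrix.of fun (i : Fin (n j)) k => F.Co (z j i) k) = (F.ρ (q2 j)).e := by
    intro j
    ext k k'
    have h3 := congrFun (F.rec_sum (q2 j) ((F.ρ (q2 j)).e *ᵥ Pi.single k' 1) (by
      rw [mulVec_mulVec, Pr.idem])) k
    have h5 : ((F.ρ (q2 j)).e *ᵥ Pi.single k' 1) k = (F.ρ (q2 j)).e k k' := by
      rw [mulVec_single_one]
      rfl
    rw [← h5, h3, Finset.sum_apply, Matrix.mul_apply]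
    have h6 : ∀ y : F.R, (F.Co *ᵥ ((F.ρ (q2 j)).e *ᵥ Pi.single k' 1)) y =
        if F.cls y = q2 j then F.Co y k' else 0 := by
      intro y
      by_cases h : F.cls y = q2 j
      · rw [if_pos h, ← h, F.Coρ, mulVec_single_one]
        rfl
      · rw [if_neg h, F.Coρ0 h]
    have h7 : ∑ y : F.R, ((F.Co *ᵥ ((F.ρ (q2 j)).e *ᵥ Pi.single k' 1)) y • F.ev y) k =
        ∑ y ∈ Finset.univ.filter (fun y => F.cls y = q2 j), F.ev y k * F.Co y k' := by
      rw [Finset.sum_filter]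
      refine Finset.sum_congr rfl fun y _ => ?_
      rw [Pi.smul_apply, smul_eq_mul, h6]
      split_ifs
      · rw [mul_comm]
      · rw [zero_mul]
    rw [h7]
    refine Finset.sum_bij (fun i _ => z j i) (fun i _ => ?_) (fun i _ i' _ h => hzinj j i i' h)
      (fun y hy => ?_) (fun i _ => rfl)
    · rw [Finset.mem_filter]
      exact ⟨Finset.mem_univ _, hz2 j i⟩
    · obtain ⟨i, hi⟩ := hzsurj j y (Finset.mem_filter.1 hy).2
      exact ⟨i, Finset.mem_univ _, hi⟩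
  have hQV : ∀ j, (Matrix.of fun (i : Fin (n j)) k => F.Co (z j i) k) *
      (Matrix.of fun k (i : Fin (n j)) => F.ev (z j i) k) = 1 := by
    intro j
    ext i i'
    have h3 := F.hCoe (z j i) (z j i')
    rw [Matrix.one_apply]
    have h4 : (z j i = z j i') ↔ i = i' := ⟨hzinj j i i', fun h => by rw [h]⟩
    simp only [h4] at h3
    rw [← h3]
    rfl
  have hn : ∀ j, (n j : ℂ) = trace (F.ρ (q2 j)).e := by
    intro j
    rw [← hVQ, trace_mul_comm, hQV, trace_one, Fintype.card_fin]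
  refine ⟨l, p, fun j => F.ρ (q2 j), n, fun j => Matrix.of fun i k => F.Co (z j i) k,
    fun j => Matrix.of fun k i => F.ev (z j i) k, e,
    fun j b => γ (α (e (Sum.inl ⟨j, b⟩))), G, hQV, hVQ, fun j b => hγ _, hG2, ?_, ?_⟩
  · intro σ
    rw [← h2 σ]
    refine Finset.sum_congr rfl fun j _ => ?_
    change _ = (n j : ℂ) * (trace ((DZ (Z false)).map (σ : ℂ →+* ℂ) * (F.ρ (q2 j)).e) /
      trace (F.ρ (q2 j)).e)
    rw [hn, mul_div_cancel₀ _ (M.trace_ne _)]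
  · funext w
    congr 1
    · refine Finset.prod_congr rfl fun j _ => ?_
      congr 1
      ext x y
      rw [Matrix.of_apply, Matrix.of_apply, hz1]
      rw [← hP2]
      beta_reduce
      rcases h0 : (α (e (Sum.inl ⟨j, x⟩)) : S1.𝒜 ⊕ F.I) with a | a
      · change (0 : ℂ) = ((Matrix.of fun (i : Fin (n j)) k => F.Co (z j i) k) *
          (0 : Matrix (Fin (g false) ⊕ Fin (g false)) (Fin (g false) ⊕ Fin (g false)) ℂ) * P2) y
            (w (e (Sum.inl ⟨j, x⟩)))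
        rw [Matrix.mul_zero, Matrix.zero_mul]
        rfl
      · change (F.Co *ᵥ (F.β a *ᵥ (P2 *ᵥ Pi.single (w (e (Sum.inl ⟨j, x⟩))) 1))) (z j y) =
          ((Matrix.of fun (i : Fin (n j)) k => F.Co (z j i) k) * F.β a * P2) y
            (w (e (Sum.inl ⟨j, x⟩)))
        have h4 : ((Matrix.of fun (i : Fin (n j)) k => F.Co (z j i) k) * F.β a * P2) y
            (w (e (Sum.inl ⟨j, x⟩))) = (((Matrix.of fun (i : Fin (n j)) k => F.Co (z j i) k) *
              F.β a * P2) *ᵥ Pi.single (w (e (Sum.inl ⟨j, x⟩))) 1) y := by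
          rw [mulVec_single_one]
          rfl
        rw [h4, ← mulVec_mulVec, ← mulVec_mulVec]
        rfl
    · refine Finset.prod_congr rfl fun s _ => ?_
      rw [hG1, mulVec_single_one, single_one_dotProduct]
      rfl

end Pool.Agent.Q180.UV.Exp
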