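import Mathlib
import Pool.Agent.Q180.UV.StmL
import Pool.Agent.Q210.UW.Famc
import Pool.Agent.Q210.UW.Famu

/-!
# Project UV: the data of abelian varieties of CM type and of unitary type
-/

set_option autoImplicit false

namespace Pool.Agent.Q180.UV.Famc

open Matrix Module Polynomial Pool.Agent.H204R3.CM Pool.Agent.H204R3.SP Pool.Agent.W437.HC
  Pool.Agent.W437.HD Pool.Agent.W437.HP Pool.Agent.W437.HR
open Pool.Agent.Q60.D3 (AV IsHom IsCM IsSimple IsIsogenousToProd cx mulF HasWeight conjF cxM ofZ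
  Comm om om_smul_left om_smul_right om_swap hom_of_comm)
open Pool.Agent.Y4.K (Pol Pr mu Eqv Iso)
open Pool.Agent.Y4.G (Nil im)
open Pool.Agent.Y4.H (LZ Ct)
open Pool.Agent.Q180.UW
open Pool.Agent.Q60.D3C (CZ)
open Pool.Agent.Q237.D3C (conj_sp iso_pos iso_neg)
open Pool.Agent.Q210.UW

variable {g : ℕ} {Z : Matrix (Fin g) (Fin g) ℂ}

/-- Abelian varieties of CM type. -/
theorem famc : S_famc := by
  intro 𝒲 𝒞 g Z hZ hpos hcomm hC
  obtain ⟨C⟩ := Pool.Agent.Q237.D3C.cz g Z hZ hpos hcomm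
  exact ⟨{
    R := Fin g ⊕ Fin g
    n := fun _ => 1
    Q := qM C
    V := vM C
    QV := qv C hZ
    tot := vq_tot C hZ
    mem := fun r => ct_of_conj fun σ => by
      rw [Matrix.mul_assoc, qM_D C hZ, Matrix.mul_smul, ← Matrix.mul_assoc, D_vM, Matrix.smul_mul]
    prim := fun r c _ => by
      have h1 : qM C r * c * vM C r = ((qM C r * c * vM C r) 0 0) • (1 : Matrix (Fin 1) (Fin 1) ℂ) := by
        ext a b
        rw [Subsingleton.elim a 0, Subsingleton.elim b 0, Matrix.smul_apply, Matrix.one_apply_eq,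
          smul_eq_mul, mul_one]
      refine ⟨(qM C r * c * vM C r) 0 0, ?_⟩
      calc vM C r * qM C r * c * (vM C r * qM C r) = vM C r * (qM C r * c * vM C r) * qM C r := by
            simp only [Matrix.mul_assoc]
        _ = _ := by
            rw [h1]
            simp
    L := itmC 𝒲 𝒞 hZ hpos C hC
    hL := fun r x => rfl
    hs := fun r σ => by
      change ((cs C r σ.symm : ℤ) : ℂ) = trace ((DZ Z).map (σ.symm : ℂ →+* ℂ) * (vM C r * qM C r))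
      have h1 : (DZ Z).map (σ.symm : ℂ →+* ℂ) * (vM C r * qM C r) =
          ((cs C r σ.symm : ℤ) : ℂ) • (vM C r * qM C r) := by
        rw [← Matrix.mul_assoc, ← Matrix.smul_mul, ← D_vM C r σ.symm]
        rfl
      rw [h1, Matrix.trace_smul, Matrix.trace_mul_comm, qv C hZ, Matrix.trace_one, Fintype.card_fin,
        Nat.cast_one, smul_eq_mul, mul_one]
    num := fun r => Or.inl rfl }⟩

/-- The conditions on the action of the field `E = ℚ[x] / (P)` on `A` (as in `IsUnitary`) without the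
coprimality condition. -/
def IsUB (A : AV) (e M n : ℕ) (P : ℚ[X]) (φ : A.H →ₗ[ℚ] A.H) (C : A.T →ₗ[ℂ] A.T) : Prop :=
  Pool.Agent.Q180.UW.IsCMField e P ∧
    (∀ w, C (A.per w) = A.per (φ w)) ∧ aeval φ P = 0 ∧ 2 * Module.finrank ℂ A.T = e * n ∧
    3 ≤ n ∧ n < 2 * M ∧
    (∀ h : A.H →ₗ[ℚ] A.H, IsHom A A h → h ∘ₗ φ = φ ∘ₗ h → ∃ q : ℚ[X], h = aeval φ q) ∧
    ∀ μ : ℂ, aeval μ P = 0 → 1 ≤ mult C μ ∧ mult C μ ≤ M

/-- All places of the field are full. -/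
def IsFullAt (A : AV) (P : ℚ[X]) (φ : A.H →ₗ[ℚ] A.H) (C : A.T →ₗ[ℂ] A.T) : Prop :=
  ∀ (g : ℕ) (Z : Matrix (Fin g) (Fin g) ℂ) (e' : A.H ≃ₗ[ℚ] (Fin g ⊕ Fin g → ℚ))
    (C' : A.T ≃ₗ[ℂ] (Fin g → ℂ)), Zᵀ = Z → (imM Z).PosDef →
    (∀ w, C' (A.per w) = perOne Z (e' w)) →
    ∀ (φm : Matrix (Fin g ⊕ Fin g) (Fin g ⊕ Fin g) ℚ), (∀ w, φm *ᵥ e' w = e' (φ w)) →
    ∀ (Mp : Pol Z) (ψ : Pr Z) (μ : ℂ), aeval μ P = 0 →
    (∀ σ : ℂ ≃+* ℂ, mu (Mp.act σ ψ) = mult C (σ μ) ∧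
      mu (Mp.bar (Mp.act σ ψ)) = mult C (starRingEnd ℂ (σ μ))) →
    cK ℂ φm * ψ.e = μ • ψ.e → Nil (im (LZ Z) ψ.e) ψ.e

/-- The data of an abelian variety of unitary type whose places are full. -/
theorem famg (h1 : S_lin) (h2 : S_mul) (𝒲 : Set (ℕ × ℕ)) (𝒞 : AV → Prop) (A : AV) (g : ℕ)
    (Z : Matrix (Fin g) (Fin g) ℂ)
    (e' : A.H ≃ₗ[ℚ] (Fin g ⊕ Fin g → ℚ)) (C' : A.T ≃ₗ[ℂ] (Fin g → ℂ)) (hZ : Zᵀ = Z)
    (hpos : (imM Z).PosDef) (hper : ∀ w, C' (A.per w) = perOne Z (e' w))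
    (e M n : ℕ) (P : ℚ[X]) (φ : A.H →ₗ[ℚ] A.H) (C : A.T →ₗ[ℂ] A.T) (hW : (e, M) ∈ 𝒲)
    (hU : IsUB A e M n P φ C) (hfull : IsFullAt A P φ C) : Nonempty (Fam 𝒲 𝒞 Z hZ hpos) := by
  obtain ⟨hP, hC, hφP, hdim, hn3, hnM, hcent, hm⟩ := hU
  have hY : IsUnit (imM Z).det := hpos.isUnit.map Matrix.detMonoidHom
  have hP0 : P ≠ 0 := hP.1.ne_zero
  let N : Module.End ℚ A.H ≃ₐ[ℚ] Matrix (Fin g ⊕ Fin g) (Fin g ⊕ Fin g) ℚ :=
    (e'.conjAlgEquiv ℚ).trans LinearMap.toMatrixAlgEquiv'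
  have hN : ∀ (s : Module.End ℚ A.H) (v : Fin g ⊕ Fin g → ℚ), N s *ᵥ v = e' (s (e'.symm v)) := by
    intro s v
    have h3 : Matrix.toLinAlgEquiv' (N s) v = e' (s (e'.symm v)) := by
      change Matrix.toLinAlgEquiv' (LinearMap.toMatrixAlgEquiv' (e'.conjAlgEquiv ℚ s)) v = _
      rw [Matrix.toLinAlgEquiv'_toMatrixAlgEquiv']
      rfl
    exact h3
  have hNs : ∀ (u : Matrix (Fin g ⊕ Fin g) (Fin g ⊕ Fin g) ℚ) (w : A.H),
      (N.symm u) w = e'.symm (u *ᵥ e' w) := by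
    intro u w
    have h3 := hN (N.symm u) (e' w)
    rw [AlgEquiv.apply_symm_apply, LinearEquiv.symm_apply_apply] at h3
    rw [h3, LinearEquiv.symm_apply_apply]
  let Cm : (Fin g → ℂ) →ₗ[ℂ] (Fin g → ℂ) := (C'.toLinearMap ∘ₗ C) ∘ₗ C'.symm.toLinearMap
  have hper' : ∀ w, C'.symm (perOne Z w) = A.per (e'.symm w) := by
    intro w
    rw [LinearEquiv.symm_apply_eq, hper, LinearEquiv.apply_symm_apply]
  have hCm : ∀ w, Cm (perOne Z w) = perOne Z (N φ *ᵥ w) := by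
    intro w
    change C' (C (C'.symm (perOne Z w))) = _
    rw [hper', hC, hper, hN]
  have hmult : ∀ μ, mult Cm μ = mult C μ := fun μ => mult_transport C' C μ
  have hg : Module.finrank ℂ A.T = g := by
    rw [C'.finrank_eq, Module.finrank_fin_fun]
  have hcard : Fintype.card (Fin g ⊕ Fin g) = P.natDegree * n := by
    rw [Fintype.card_sum, Fintype.card_fin, hP.2.1, ← hdim, hg]
    ring
  have hNP : aeval (N φ) P = 0 := by
    rw [Polynomial.aeval_algHom_apply N φ P, hφP, map_zero]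
  obtain ⟨Q, V, hQV, htot⟩ := h1 (Fin g ⊕ Fin g) P (N φ) n hP.1 hNP hcard
  have hM := h2 g Z hZ hpos P (N φ) n Cm Q V hP.1 hNP hCm hQV htot
  have H : HQV P (N φ) Q V := hQV
  have hD : cK ℂ (N φ) * DZ Z = DZ Z * cK ℂ (N φ) := by
    refine Pool.Agent.W437.HQ.endo_comm hY (ψ := N φ) (M := LinearMap.toMatrix' Cm) ?_
    intro w
    rw [← Matrix.toLin'_apply (LinearMap.toMatrix' Cm), Matrix.toLin'_toMatrix', hCm]
  have hcent' : ∀ u : Matrix (Fin g ⊕ Fin g) (Fin g ⊕ Fin g) ℚ,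
      cK ℂ u * DZ Z = DZ Z * cK ℂ u → u * N φ = N φ * u → ∃ q : ℚ[X], u = aeval (N φ) q := by
    intro u hu1 hu2
    have h3 : IsHom A A (N.symm u) := by
      refine ⟨(C'.symm.toLinearMap ∘ₗ (Matrix.mulVecLin
        (Pool.Agent.W437.HQ.PZ Z * Pool.Agent.W437.HQ.cq u * r10 g))) ∘ₗ C'.toLinearMap, fun w => ?_⟩
      change C'.symm (_ *ᵥ (C' (A.per w))) = A.per ((N.symm u) w)
      rw [hper, hNs, ← hper', ← Pool.Agent.W437.HQ.endo_of_comm hY hu1 (e' w)]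
    have h4 : (N.symm u) ∘ₗ φ = φ ∘ₗ (N.symm u) := by
      apply N.injective
      change N (N.symm u * φ) = N (φ * N.symm u)
      rw [map_mul, map_mul, AlgEquiv.apply_symm_apply, hu2]
    obtain ⟨q, hq⟩ := hcent _ h3 h4
    refine ⟨q, ?_⟩
    rw [Polynomial.aeval_algHom_apply N φ q, ← hq, AlgEquiv.apply_symm_apply]
  have hroot : ∀ μ, aeval μ P = 0 → ∀ σ : ℂ ≃+* ℂ, aeval (σ μ) P = 0 := by
    intro μ hμ σ
    rw [aeval_aut, hμ, map_zero]
  have hconj : ∀ μ, aeval μ P = 0 → aeval (starRingEnd ℂ μ) P = 0 := fun μ hμ =>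
    hroot μ hμ (starRingAut (R := ℂ))
  have hle : ∀ μ, aeval μ P = 0 → mult C μ ≤ n := fun μ hμ => by
    rw [← hmult]
    exact (hM μ hμ).1
  have hcj : ∀ μ, aeval μ P = 0 → mult C (starRingEnd ℂ μ) + mult C μ = n := by
    intro μ hμ
    have h3 := (hM μ hμ).2.1
    rw [hmult, hmult] at h3
    have h4 := hle μ hμ
    omega
  have htr : ∀ μ, aeval μ P = 0 → trace (DZ Z * (V μ * Q μ)) = 2 * (mult C μ : ℂ) - n := by
    intro μ hμ
    rw [← hmult]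
    exact (hM μ hμ).2.2
  let R := {μ : ℂ // μ ∈ (P.aroots ℂ).toFinset}
  have hR : ∀ r : R, aeval r.1 P = 0 := fun r =>
    (Polynomial.mem_aroots.1 (Multiset.mem_toFinset.1 r.2)).2
  have Mp : Pol Z := ⟨hZ, hpos⟩
  have hVQ2 : ∀ r : R, V r.1 * Q r.1 * (V r.1 * Q r.1) = V r.1 * Q r.1 := by
    intro r
    rw [Matrix.mul_assoc, ← Matrix.mul_assoc (Q r.1), (H r.1 (hR r)).1, Matrix.one_mul]
  have hVQt : ∀ μ, aeval μ P = 0 → trace (V μ * Q μ) = (n : ℂ) := by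
    intro μ hμ
    rw [trace_mul_comm, (H μ hμ).1, trace_one, Fintype.card_fin]
  have hplace : ∀ r : R, ∃ ψ : Pr Z, ψ.e = V r.1 * Q r.1 := by
    intro r
    refine ⟨⟨V r.1 * Q r.1, VQ_ct H htot hD (hR r) hP0, hVQ2 r, fun h => ?_,
      fun c hc => prim H htot hD hcent' (hR r) hP0 c hc⟩, rfl⟩
    have h3 := hVQt r.1 (hR r)
    rw [h, trace_zero] at h3
    have h4 : n = 0 := by exact_mod_cast h3.symm
    omega
  have hNe : ∀ w, N φ *ᵥ e' w = e' (φ w) := by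
    intro w
    rw [hN, LinearEquiv.symm_apply_apply]
  have hnil : ∀ r : R, Nil (im (LZ Z) (V r.1 * Q r.1)) (V r.1 * Q r.1) := by
    intro r
    obtain ⟨ψ, hψ⟩ := hplace r
    rw [← hψ]
    refine hfull g Z e' C' hZ hpos hper (N φ) hNe Mp ψ r.1 (hR r) (fun σ => ?_) ?_
    · have h3 := hroot _ (hR r) σ
      have h4 := hcj _ h3
      have h5 : (Mp.act σ ψ).e = V (σ r.1) * Q (σ r.1) := by
        rw [Mp.act_e, hψ, Matrix.map_mul, ((H r.1 (hR r)).2.2.2.2 σ).1,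
          ((H r.1 (hR r)).2.2.2.2 σ).2]
      have h6 := Mp.trace_pr (Mp.act σ ψ)
      have h7 := Mp.trace_qr (Mp.act σ ψ)
      have h8 : trace (DZ Z * (Mp.act σ ψ).e) = (mu (Mp.act σ ψ) : ℂ) -
          (mu (Mp.bar (Mp.act σ ψ)) : ℂ) := by
        rw [← h6, ← h7, ← trace_sub, Pool.Agent.Y4.K.pr_sub_qr']
      have h9 := Mp.trace_e (Mp.act σ ψ)
      rw [h5, htr _ h3] at h8
      rw [h5, hVQt _ h3] at h9
      have h10 : (2 * (mult C (σ r.1) : ℤ) - n : ℤ) = (mu (Mp.act σ ψ) : ℤ) -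
          (mu (Mp.bar (Mp.act σ ψ)) : ℤ) := by exact_mod_cast h8
      have h11 : n = mu (Mp.act σ ψ) + mu (Mp.bar (Mp.act σ ψ)) := by exact_mod_cast h9
      omega
    · rw [hψ, ← Matrix.mul_assoc, (H r.1 (hR r)).2.2.2.1, Matrix.smul_mul]
  have hlin : aeval (Matrix.toLinAlgEquiv' (N φ)) P = 0 := by
    rw [Polynomial.aeval_algHom_apply Matrix.toLinAlgEquiv' (N φ) P, hNP, map_zero]
  have hdim' : 2 * Module.finrank ℂ (Fin g → ℂ) = e * n := by
    rw [Module.finrank_fin_fun, ← hdim, hg]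
  have hkind : ∀ r : R, IsU 𝒲 (ofZ Z hZ hpos) n (dF (Q r.1))
      (fun σ => 2 * (mult C (σ r.1) : ℤ) - n) := by
    intro r
    refine ⟨e, M, P, Matrix.mulVecLin (N φ), r.1, hW, hP, hom_of_comm hZ hpos hZ hpos hD, hlin,
      hdim', hR r, fun v k => dF_eig (H r.1 (hR r)).2.2.1 v k, fun σ τ hστ => by simp only [hστ],
      fun σ τ hστ => ?_, fun σ => ⟨mult C (σ r.1), rfl, (hm _ (hroot _ (hR r) σ)).2⟩, hnM⟩
    have h3 := hcj _ (hroot _ (hR r) σ)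
    simp only
    rw [hστ]
    omega
  exact ⟨{
    R := R
    n := fun _ => n
    Q := fun r => Q r.1
    V := fun r => V r.1
    QV := fun r => (H r.1 (hR r)).1
    tot := by
      rw [← htot]
      exact Finset.sum_coe_sort (P.aroots ℂ).toFinset fun μ => V μ * Q μ
    mem := fun r => VQ_ct H htot hD (hR r) hP0
    prim := fun r c hc => prim H htot hD hcent' (hR r) hP0 c hc
    L := fun r =>
      { δ := dF (Q r.1)
        s := fun σ => 2 * (mult C (σ r.1) : ℤ) - n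
        wt := fun σ => wtU H htot hpos hD hP0 htr (hR r) σ
        kind := Or.inr (hkind r) }
    hL := fun r x => rfl
    hs := fun r σ => tr_conj H htr (hR r) σ
    num := fun r => by
      refine Or.inr ⟨hn3, fun σ => ?_, ?_⟩
      · have h3 := hroot _ (hR r) σ
        have h4 := hcj _ h3
        refine ⟨mult C (σ r.1), mult C (starRingEnd ℂ (σ r.1)), (hm _ h3).1,
          (hm _ (hconj _ h3)).1, by omega, ?_⟩
        change 2 * (mult C (σ r.1) : ℤ) - n = _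
        omega
      · exact hnil r }⟩

end Pool.Agent.Q180.UV.Famc
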