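import Mathlib
import Pool.Agent.Q180.UV.Famc

/-!
# Project UV: coprime multiplicities
-/

set_option autoImplicit false

namespace Pool.Agent.Q180.UV.Famc

open Matrix Module Polynomial Pool.Agent.H204R3.CM Pool.Agent.H204R3.SP Pool.Agent.W437.HC
  Pool.Agent.W437.HD Pool.Agent.W437.HP Pool.Agent.W437.HR
open Pool.Agent.Q60.D3 (AV IsHom IsCM IsSimple IsIsogenousToProd cx mulF HasWeight conjF cxM ofZ
  Comm om om_smul_left om_smul_right om_swap hom_of_comm)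
open Pool.Agent.Y4.K (Pol Pr mu Eqv Iso)
open Pool.Agent.Y4.G (Nil im)
open Pool.Agent.Y4.H (LZ Ct)
open Pool.Agent.Q180.UW
open Pool.Agent.Q210.UW

/-- The multiplicities of conjugate embeddings. -/
theorem mult_sum (h1 : S_lin) (h2 : S_mul) (A : AV) (g : ℕ)
    (Z : Matrix (Fin g) (Fin g) ℂ)
    (e' : A.H ≃ₗ[ℚ] (Fin g ⊕ Fin g → ℚ)) (C' : A.T ≃ₗ[ℂ] (Fin g → ℂ)) (hZ : Zᵀ = Z)
    (hpos : (imM Z).PosDef) (hper : ∀ w, C' (A.per w) = perOne Z (e' w))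
    (e n : ℕ) (P : ℚ[X]) (φ : A.H →ₗ[ℚ] A.H) (C : A.T →ₗ[ℂ] A.T)
    (hP : Pool.Agent.Q180.UW.IsCMField e P) (hC : ∀ w, C (A.per w) = A.per (φ w))
    (hφP : aeval φ P = 0) (hdim : 2 * Module.finrank ℂ A.T = e * n) :
    ∀ μ, aeval μ P = 0 → mult C (starRingEnd ℂ μ) + mult C μ = n := by
  let N : Module.End ℚ A.H ≃ₐ[ℚ] Matrix (Fin g ⊕ Fin g) (Fin g ⊕ Fin g) ℚ :=
    (e'.conjAlgEquiv ℚ).trans LinearMap.toMatrixAlgEquiv'
  have hN : ∀ (s : Module.End ℚ A.H) (v : Fin g ⊕ Fin g → ℚ), N s *ᵥ v = e' (s (e'.symm v)) := by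
    intro s v
    have h3 : Matrix.toLinAlgEquiv' (N s) v = e' (s (e'.symm v)) := by
      change Matrix.toLinAlgEquiv' (LinearMap.toMatrixAlgEquiv' (e'.conjAlgEquiv ℚ s)) v = _
      rw [Matrix.toLinAlgEquiv'_toMatrixAlgEquiv']
      rfl
    exact h3
  have hNs : ∀ (u : Matrix (Fin g ⊕ Fin g) (Fin g ⊕ Fin g) ℚ) (w : A.H),
      (N.symm u) w = e'.symm (u *ᵥ e' w) := by
    intro u w
    have h3 := hN (N.symm u) (e' w)
    rw [AlgEquiv.apply_symm_apply, LinearEquiv.symm_apply_apply] at h3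
    rw [h3, LinearEquiv.symm_apply_apply]
  let Cm : (Fin g → ℂ) →ₗ[ℂ] (Fin g → ℂ) := (C'.toLinearMap ∘ₗ C) ∘ₗ C'.symm.toLinearMap
  have hper' : ∀ w, C'.symm (perOne Z w) = A.per (e'.symm w) := by
    intro w
    rw [LinearEquiv.symm_apply_eq, hper, LinearEquiv.apply_symm_apply]
  have hCm : ∀ w, Cm (perOne Z w) = perOne Z (N φ *ᵥ w) := by
    intro w
    change C' (C (C'.symm (perOne Z w))) = _
    rw [hper', hC, hper, hN]
  have hmult : ∀ μ, mult Cm μ = mult C μ := fun μ => mult_transport C' C μ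
  have hg : Module.finrank ℂ A.T = g := by
    rw [C'.finrank_eq, Module.finrank_fin_fun]
  have hcard : Fintype.card (Fin g ⊕ Fin g) = P.natDegree * n := by
    rw [Fintype.card_sum, Fintype.card_fin, hP.2.1, ← hdim, hg]
    ring
  have hNP : aeval (N φ) P = 0 := by
    rw [Polynomial.aeval_algHom_apply N φ P, hφP, map_zero]
  obtain ⟨Q, V, hQV, htot⟩ := h1 (Fin g ⊕ Fin g) P (N φ) n hP.1 hNP hcard
  have hM := h2 g Z hZ hpos P (N φ) n Cm Q V hP.1 hNP hCm hQV htot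
  have hroot : ∀ μ, aeval μ P = 0 → ∀ σ : ℂ ≃+* ℂ, aeval (σ μ) P = 0 := by
    intro μ hμ σ
    rw [aeval_aut, hμ, map_zero]
  have hconj : ∀ μ, aeval μ P = 0 → aeval (starRingEnd ℂ μ) P = 0 := fun μ hμ =>
    hroot μ hμ (starRingAut (R := ℂ))
  have hle : ∀ μ, aeval μ P = 0 → mult C μ ≤ n := fun μ hμ => by
    rw [← hmult]
    exact (hM μ hμ).1
  have hcj : ∀ μ, aeval μ P = 0 → mult C (starRingEnd ℂ μ) + mult C μ = n := by
    intro μ hμ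
    have h3 := (hM μ hμ).2.1
    rw [hmult, hmult] at h3
    have h4 := hle μ hμ
    omega
  exact hcj

/-- Abelian varieties of unitary type (with coprime multiplicities) have full places. -/
theorem full_of_coprime (h1 : S_lin) (h2 : S_mul) (A : AV) (g : ℕ)
    (Z : Matrix (Fin g) (Fin g) ℂ)
    (e' : A.H ≃ₗ[ℚ] (Fin g ⊕ Fin g → ℚ)) (C' : A.T ≃ₗ[ℂ] (Fin g → ℂ)) (hZ : Zᵀ = Z)
    (hpos : (imM Z).PosDef) (hper : ∀ w, C' (A.per w) = perOne Z (e' w))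
    (e M : ℕ) (hA : IsUnitary A e M) : ∃ (n : ℕ) (P : ℚ[X]) (φ : A.H →ₗ[ℚ] A.H)
      (C : A.T →ₗ[ℂ] A.T), IsUB A e M n P φ C ∧ IsFullAt A P φ C := by
  obtain ⟨P, φ, C, n, hP, hC, hφP, hdim, hn3, hcent, hm, μ₀, hμ₀, hcop⟩ := hA
  have hcj := mult_sum h1 h2 A g Z e' C' hZ hpos hper e n P φ C hP hC hφP hdim
  have hconj : ∀ μ, aeval μ P = 0 → aeval (starRingEnd ℂ μ) P = 0 := fun μ hμ => by
    have h3 := aeval_aut (starRingAut (R := ℂ)) μ P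
    rw [hμ, map_zero] at h3
    exact h3
  have hnM : n < 2 * M := by
    have h3 := (hm μ₀ hμ₀).2
    have h4 := (hm _ (hconj μ₀ hμ₀)).2
    have h5 := hcj μ₀ hμ₀
    by_contra hcon
    have h6 : mult C μ₀ = M := by omega
    have h7 : mult C (starRingEnd ℂ μ₀) = M := by omega
    rw [h6, h7, Nat.coprime_self] at hcop
    omega
  refine ⟨n, P, φ, C, ⟨hP, hC, hφP, hdim, hn3, hnM, hcent, hm⟩, ?_⟩
  intro g' Z' e'' C'' hZ' hpos' hper' φm hφm Mp ψ μ hμ hmu _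
  obtain ⟨σ, hσ⟩ := root_trans hP.1 hμ hμ₀
  refine Mp.nil_of_cop ψ ⟨σ, ?_⟩
  rw [(hmu σ).1, (hmu σ).2, hσ]
  exact hcop

/-- The endomorphism algebra is an imaginary quadratic field (generated by `φ`, a root of `P`), which
acts on the tangent space with the multiplicities `2`, `2`. -/
def IsWeilFour (A : AV) : Prop :=
  ∃ (P : ℚ[X]) (φ : A.H →ₗ[ℚ] A.H) (C : A.T →ₗ[ℂ] A.T), Pool.Agent.Q180.UW.IsCMField 2 P ∧
    (∀ w, C (A.per w) = A.per (φ w)) ∧ aeval φ P = 0 ∧ Module.finrank ℂ A.T = 4 ∧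
    (∀ h : A.H →ₗ[ℚ] A.H, IsHom A A h → ∃ q : ℚ[X], h = aeval φ q) ∧
    ∀ μ : ℂ, aeval μ P = 0 → mult C μ = 2

end Pool.Agent.Q180.UV.Famc
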