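import Mathlib
import Pool.Agent.Q180.UV.Core
import Pool.Agent.Q180.UW.Main
import Pool.Agent.Q180.UV.Kil
import Pool.Agent.Q180.UV.Split
import Pool.Agent.Q180.UV.Exp
import Pool.Agent.Q180.UV.Aln
import Pool.Agent.Q180.UV.Famd

/-!
# Project UV: abelian varieties isogenous to a product
-/

set_option linter.unusedSectionVars false
set_option linter.unusedVariables false

namespace Pool.Agent.Q180.UV.Close

open Pool.Agent.Q180.UW
open Matrix Module Polynomial Pool.Agent.H204R3.CM Pool.Agent.H204R3.SP Pool.Agent.W437.HC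
  Pool.Agent.W437.HD Pool.Agent.W437.HP Pool.Agent.W437.HR
open Pool.Agent.Q60.D3 (AV IsHom IsCM IsSimple HasWeight ofZ Comm S_nf IsIsogenousToProd hom_of_comm)
open Pool.Agent.Q180.UV.Core
open Pool.Agent.Q180.UV.Famc

/-- The data of a factor: the normal forms of `A` decompose into pieces with the full symplectic Lie
algebra, or they have data as in `Fam`. -/
def Dat (𝒲 : Set (ℕ × ℕ)) (𝒞 : AV → Prop) (A : AV) : Prop :=
  ∀ (g : ℕ) (Z : Matrix (Fin g) (Fin g) ℂ)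
    (e : A.H ≃ₗ[ℚ] (Fin g ⊕ Fin g → ℚ)) (C : A.T ≃ₗ[ℂ] (Fin g → ℂ)) (hZ : Zᵀ = Z)
    (hpos : (imM Z).PosDef), (∀ w, C (A.per w) = perOne Z (e w)) →
    HasPcs (DZ Z) ∨ Nonempty (Fam 𝒲 𝒞 Z hZ hpos)

/-- **The main theorem, from the lemmas.** -/
theorem close (𝒲 : Set (ℕ × ℕ)) (𝒞 : AV → Prop)
    (h𝒞 : ∀ (e M : ℕ) (B : AV), (e, M) ∈ 𝒲 → IsCM B → 2 * finrank ℂ B.T = e → 𝒞 B)
    (hnf : S_nf) (hpcs : S_pcs)
    (hdesc : S_desc) (halt : S_good_alt) (hlin : S_good_lin) (hexp : S_exp)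
    (haln : S_aln) (hwgt : Pool.Agent.Q60.D3.S_wgt) (hish : Pool.Agent.Q60.D3.S_ish)
    (hbal : S_bal)
    (ι : Type) [Finite ι] (X : AV) (A : ι → AV) (hiso : IsIsogenousToProd X A)
    (hA : ∀ i, Dat 𝒲 𝒞 (A i))
    (κ : Type) [Finite κ] (f : X.H [⋀^κ]→ₗ[ℚ] ℚ) (hf : IsHodge X.per f) : Gen 𝒲 𝒞 X κ f := by
  classical
  obtain ⟨_⟩ := nonempty_fintype ι
  obtain ⟨_⟩ := nonempty_fintype κ
  obtain ⟨p, hp, hbij⟩ := hiso
  choose g Z e C hZ hpos hC using fun i => hnf (A i)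
  choose Ct hCt using hp
  have hdat := fun i => hA i (g i) (Z i) (e i) (C i) (hZ i) (hpos i) (hC i)
  let J1 : Type := {i // HasPcs (DZ (Z i))}
  let J0 : Type := {i // ¬ HasPcs (DZ (Z i))}
  have hFa : ∀ i : J0, Nonempty (Fam 𝒲 𝒞 (Z i.1) (hZ i.1) (hpos i.1)) := fun i =>
    (hdat i.1).resolve_left i.2
  have Fa := fun i : J0 => Classical.choice (hFa i)
  have hpc : ∀ i v, e i (p i v) = 0 → p i v = 0 := by
    intro i v h
    exact (e i).injective (by rw [h, map_zero])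
  have hQ : ∀ i w, (C i) (Ct i (X.per w)) = perOne (Z i) (e i (p i w)) := by
    intro i w
    rw [hCt, hC]
  obtain ⟨a, c, hac⟩ := two_level (J1 := J1) (J0 := J0) X (fun j => g j.1) (fun j => Z j.1)
    (fun j => g j.1) (fun j => Z j.1) (fun j => hZ j.1) (fun j => hpos j.1) (fun j => hZ j.1)
    (fun j => hpos j.1) (fun j => (e j.1).toLinearMap ∘ₗ p j.1)
    (fun j => (C j.1).toLinearMap ∘ₗ Ct j.1) (fun j w => hQ j.1 w)
    (fun j => (e j.1).toLinearMap ∘ₗ p j.1)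
    (fun j => (C j.1).toLinearMap ∘ₗ Ct j.1) (fun j w => hQ j.1 w) (by
      intro v h1 h0
      apply hbij.1
      funext i
      change p i v = p i 0
      rw [map_zero]
      by_cases h : HasPcs (DZ (Z i))
      · exact hpc i v (h1 ⟨i, h⟩)
      · exact hpc i v (h0 ⟨i, h⟩)) (by
      intro t1 t0
      obtain ⟨v, hv⟩ := hbij.2 fun i => if h : HasPcs (DZ (Z i)) then (e i).symm (t1 ⟨i, h⟩)
        else (e i).symm (t0 ⟨i, h⟩)
      refine ⟨v, fun j => ?_, fun j => ?_⟩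
      · change e j.1 (p j.1 v) = _
        have h1 : p j.1 v = _ := congrFun hv j.1
        rw [h1, dif_pos j.2, LinearEquiv.apply_symm_apply]
      · change e j.1 (p j.1 v) = _
        have h1 : p j.1 v = _ := congrFun hv j.1
        rw [h1, dif_neg j.2, LinearEquiv.apply_symm_apply])
  exact core 𝒲 𝒞 (bigD ℂ fun j : J1 => Z j.1) (bigD_symm fun j : J1 => hZ j.1)
    (imM_bigD_posDef _ fun j : J1 => hpos j.1) (fun j : J0 => g j.1) (fun j => Z j.1)
    (fun j => hZ j.1) (fun j => hpos j.1) Fa X a c h𝒞 hdesc halt hlin hexp haln hwgt hish hbal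
    (hpcs J1 (fun j => g j.1) (fun j => Z j.1) (fun j => hZ j.1) (fun j => hpos j.1) fun j => j.2)
    hac κ f hf


/-- The data of the factors of the theorem of project UW. -/
theorem dat_old (𝒲 : Set (ℕ × ℕ)) (𝒞 : AV → Prop) (A : AV)
    (hA : (IsCM A ∧ 𝒞 A) ∨ (∃ e M, (e, M) ∈ 𝒲 ∧ IsUnitary A e M) ∨
      (IsSimple A ∧ (finrank ℂ A.T = 1 ∨ (finrank ℂ A.T).Prime) ∧ ¬ IsCM A ∧
        ¬ ∃ e M, IsUnitary A e M) ∨
      (Odd (finrank ℂ A.T) ∧ ∀ h : A.H →ₗ[ℚ] A.H, IsHom A A h → ∃ a : ℚ, h = a • LinearMap.id)) :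
    Dat 𝒲 𝒞 A := by
  intro g Z e C hZ hpos hC
  have hg : finrank ℂ A.T = g := by rw [C.finrank_eq, Module.finrank_fin_fun]
  have hC' : ∀ w, C.symm (perOne Z w) = A.per (e.symm w) := by
    intro w
    rw [C.symm_apply_eq, hC, e.apply_symm_apply]
  have hprime := Pool.Agent.Q275.UW.prime Pool.Agent.Q275.UW.pla Q182.UW.odd
        Pool.Agent.Q211.WT.memtr Pool.Agent.Q2.UW.lin Pool.Agent.Q144.UW.mul
  have hutr := Pool.Agent.Q222.UW.utr
  have hcmd' := Pool.Agent.Q180.D3.cmd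
  have hodd := Q182.UW.odd
  rcases hA with ⟨hcm, hin⟩ | ⟨d, M, hdM, hu⟩ | ⟨hs, hd, hncm, hnu⟩ | ⟨hd, hend⟩
  · right
    exact famc 𝒲 𝒞 g Z hZ hpos (Pool.Agent.Q280.D3C.Cmd.cmd A g Z e C hZ hpos hC hcm)
      ⟨A, e.symm.toLinearMap, hcm, hin, ⟨C.symm.toLinearMap, hC'⟩, e.symm.bijective⟩
  · right
    obtain ⟨n, P, φ, D, hU, hF⟩ := full_of_coprime Pool.Agent.Q2.UW.lin Pool.Agent.Q144.UW.mul A g Z
      e C hZ hpos hC d M hu
    exact famg Pool.Agent.Q2.UW.lin Pool.Agent.Q144.UW.mul 𝒲 𝒞 A g Z e C hZ hpos hC d M n P φ D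
      hdM hU hF
  · left
    have hd' : g ≤ 2 ∨ g.Prime := by
      rw [hg] at hd
      rcases hd with h | h
      · left
        omega
      · exact Or.inr h
    rcases hprime g Z hZ hpos hd'
      (Pool.Agent.Q176.D3.simple_transport A e C hC hs) with h | h | ⟨M, h⟩
    · exact absurd (hcmd' A g Z e C hZ hpos hC hs h) hncm
    · exact h
    · exact absurd ⟨2, M, hutr (ofZ Z hZ hpos) A e.symm C.symm hC' 2 M h⟩ hnu
  · left
    rw [hg] at hd
    refine hodd g Z hZ hpos hd fun ψ hψ => ?_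
    obtain ⟨D, hD⟩ := hom_of_comm hZ hpos hZ hpos hψ
    obtain ⟨a, ha⟩ := hend (e.symm.toLinearMap ∘ₗ (Matrix.mulVecLin ψ) ∘ₗ e.toLinearMap)
      ⟨C.symm.toLinearMap ∘ₗ D ∘ₗ C.toLinearMap, fun w => by
        change C.symm (D (C (A.per w))) = A.per (e.symm (ψ *ᵥ e w))
        rw [hC, ← hC']
        congr 1
        exact hD (e w)⟩
    refine ⟨a, ?_⟩
    have h1 : ∀ x, ψ *ᵥ x = a • x := by
      intro x
      have h2 := LinearMap.congr_fun ha (e.symm x)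
      change e.symm (ψ *ᵥ e (e.symm x)) = a • e.symm x at h2
      rw [e.apply_symm_apply, ← map_smul] at h2
      exact e.symm.injective h2
    ext i j
    have h2 := congrFun (h1 (Pi.single j 1)) i
    rw [mulVec_single_one] at h2
    rw [Matrix.smul_apply, Matrix.one_apply]
    change ψ i j = _ at h2
    rw [h2, Pi.smul_apply, Pi.single_apply]

end Pool.Agent.Q180.UV.Close
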