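import Mathlib
import Pool.Agent.Q180.UV.Close
import Pool.Agent.Q180.UV.Stm
import Pool.Agent.Q176.UV.Real

/-!
# Project UV: transport to matrices; abelian varieties of real type
-/

set_option autoImplicit false

namespace Pool.Agent.Q180.UV

open Matrix Module Polynomial Pool.Agent.H204R3.CM Pool.Agent.H204R3.SP Pool.Agent.W437.HC
  Pool.Agent.W437.HD Pool.Agent.W437.HP Pool.Agent.W437.HR
open Pool.Agent.Q60.D3 (AV IsHom IsCM IsSimple ofZ hom_of_comm)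
open Pool.Agent.Q180.UV.Close (Dat)

/-- The matrix of an endomorphism of the homology of `A` in a normal form. -/
theorem transport (A : AV) (g : ℕ) (Z : Matrix (Fin g) (Fin g) ℂ)
    (e : A.H ≃ₗ[ℚ] (Fin g ⊕ Fin g → ℚ)) (C : A.T ≃ₗ[ℂ] (Fin g → ℂ))
    (hpos : (imM Z).PosDef) (hper : ∀ w, C (A.per w) = perOne Z (e w))
    (φ : A.H →ₗ[ℚ] A.H) (hφ : IsHom A A φ) :
    ∃ φm : Matrix (Fin g ⊕ Fin g) (Fin g ⊕ Fin g) ℚ, (∀ w, φm *ᵥ e w = e (φ w)) ∧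
      (∀ q : ℚ[X], aeval φ q = 0 ↔ aeval φm q = 0) ∧ cK ℂ φm * DZ Z = DZ Z * cK ℂ φm ∧
      ((∀ h : A.H →ₗ[ℚ] A.H, IsHom A A h → h ∘ₗ φ = φ ∘ₗ h → ∃ q : ℚ[X], h = aeval φ q) →
        ∀ u : Matrix (Fin g ⊕ Fin g) (Fin g ⊕ Fin g) ℚ,
          cK ℂ u * DZ Z = DZ Z * cK ℂ u → u * φm = φm * u → ∃ q : ℚ[X], u = aeval φm q) ∧
      ((∀ h : A.H →ₗ[ℚ] A.H, IsHom A A h → ∃ q : ℚ[X], h = aeval φ q) →
        ∀ u : Matrix (Fin g ⊕ Fin g) (Fin g ⊕ Fin g) ℚ,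
          cK ℂ u * DZ Z = DZ Z * cK ℂ u → ∃ q : ℚ[X], u = aeval φm q) := by
  have hY : IsUnit (imM Z).det := hpos.isUnit.map Matrix.detMonoidHom
  obtain ⟨D, hD⟩ := hφ
  let N : Module.End ℚ A.H ≃ₐ[ℚ] Matrix (Fin g ⊕ Fin g) (Fin g ⊕ Fin g) ℚ :=
    (e.conjAlgEquiv ℚ).trans LinearMap.toMatrixAlgEquiv'
  have hN : ∀ (s : Module.End ℚ A.H) (v : Fin g ⊕ Fin g → ℚ), N s *ᵥ v = e (s (e.symm v)) := by
    intro s v
    have h3 : Matrix.toLinAlgEquiv' (N s) v = e (s (e.symm v)) := by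
      change Matrix.toLinAlgEquiv' (LinearMap.toMatrixAlgEquiv' (e.conjAlgEquiv ℚ s)) v = _
      rw [Matrix.toLinAlgEquiv'_toMatrixAlgEquiv']
      rfl
    exact h3
  have hNs : ∀ (u : Matrix (Fin g ⊕ Fin g) (Fin g ⊕ Fin g) ℚ) (w : A.H),
      (N.symm u) w = e.symm (u *ᵥ e w) := by
    intro u w
    have h3 := hN (N.symm u) (e w)
    rw [AlgEquiv.apply_symm_apply, LinearEquiv.symm_apply_apply] at h3
    rw [h3, LinearEquiv.symm_apply_apply]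
  have hper' : ∀ w, C.symm (perOne Z w) = A.per (e.symm w) := by
    intro w
    rw [LinearEquiv.symm_apply_eq, hper, LinearEquiv.apply_symm_apply]
  have hhom : ∀ u : Matrix (Fin g ⊕ Fin g) (Fin g ⊕ Fin g) ℚ, cK ℂ u * DZ Z = DZ Z * cK ℂ u →
      IsHom A A (N.symm u) := by
    intro u hu1
    refine ⟨(C.symm.toLinearMap ∘ₗ (Matrix.mulVecLin
      (Pool.Agent.W437.HQ.PZ Z * Pool.Agent.W437.HQ.cq u * r10 g))) ∘ₗ C.toLinearMap, fun w => ?_⟩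
    change C.symm (_ *ᵥ (C (A.per w))) = A.per ((N.symm u) w)
    rw [hper, hNs, ← hper', ← Pool.Agent.W437.HQ.endo_of_comm hY hu1 (e w)]
  let Cm : (Fin g → ℂ) →ₗ[ℂ] (Fin g → ℂ) := (C.toLinearMap ∘ₗ D) ∘ₗ C.symm.toLinearMap
  have hCm : ∀ w, Cm (perOne Z w) = perOne Z (N φ *ᵥ w) := by
    intro w
    change C (D (C.symm (perOne Z w))) = _
    rw [hper', hD, hper, hN]
  refine ⟨N φ, fun w => ?_, fun q => ?_, ?_, fun hcent u hu1 hu2 => ?_, fun hcent u hu1 => ?_⟩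
  · rw [hN, LinearEquiv.symm_apply_apply]
  · have h1 : aeval (N φ) q = N (aeval φ q) := Polynomial.aeval_algHom_apply N φ q
    rw [h1]
    exact ⟨fun h => by rw [h, map_zero], fun h => N.injective (h.trans (map_zero N).symm)⟩
  · refine Pool.Agent.W437.HQ.endo_comm hY (ψ := N φ) (M := LinearMap.toMatrix' Cm) ?_
    intro w
    rw [← Matrix.toLin'_apply (LinearMap.toMatrix' Cm), Matrix.toLin'_toMatrix', hCm]
  · have h4 : (N.symm u) ∘ₗ φ = φ ∘ₗ (N.symm u) := by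
      apply N.injective
      change N (N.symm u * φ) = N (φ * N.symm u)
      rw [map_mul, map_mul, AlgEquiv.apply_symm_apply, hu2]
    obtain ⟨q, hq⟩ := hcent _ (hhom u hu1) h4
    refine ⟨q, ?_⟩
    rw [Polynomial.aeval_algHom_apply N φ q, ← hq, AlgEquiv.apply_symm_apply]
  · obtain ⟨q, hq⟩ := hcent _ (hhom u hu1)
    refine ⟨q, ?_⟩
    rw [Polynomial.aeval_algHom_apply N φ q, ← hq, AlgEquiv.apply_symm_apply]

/-- The data of an abelian variety of real type. -/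
theorem dat_real (𝒲 : Set (ℕ × ℕ)) (𝒞 : AV → Prop) (A : AV) (hA : IsReal A) : Dat 𝒲 𝒞 A := by
  intro g Z e C hZ hpos hC
  left
  obtain ⟨P, φ, m, hP, hre, hφ, hφP, hdim, hm, hcent⟩ := hA
  have hg : finrank ℂ A.T = g := by rw [C.finrank_eq, Module.finrank_fin_fun]
  obtain ⟨φm, h1, h2, h3, h4, -⟩ := transport A g Z e C hpos hC φ hφ
  exact Pool.Agent.Q176.UV.real g Z hZ hpos P φm m hP hre ((h2 P).1 hφP) h3 (by rw [← hg, hdim]) hm
    (h4 hcent)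

end Pool.Agent.Q180.UV
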