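import Mathlib
import Pool.Agent.Q180.UV.Real

/-!
# Project UV: statements of the lemma jobs, second part
-/

namespace Pool.Agent.Q180.UV

open Matrix Module Polynomial Pool.Agent.H204R3.CM Pool.Agent.H204R3.SP Pool.Agent.W437.HC
  Pool.Agent.W437.HD Pool.Agent.W437.HP Pool.Agent.W437.HR
open Pool.Agent.Q60.D3 (AV IsHom IsCM IsSimple HasWeight cxM)
open Pool.Agent.Y4.K (Pol Pr mu Eqv Iso)
open Pool.Agent.Y4.G (Nil im Lie)
open Pool.Agent.Y4.H (LZ Ct)
open Pool.Agent.Q180.UW (IsCMField mult)

/-! ## Definitions on the level of abelian varieties -/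

/-- `X` belongs to the derived algebra of the Lefschetz Lie algebra of `A`: it annihilates all bilinear
Hodge forms (the divisor classes on `A × A`) and `X h` has trace zero for all endomorphisms `h`. -/
def IsDL (A : AV) (X : A.H →ₗ[ℚ] A.H) : Prop :=
  (∀ β : MultilinearMap ℚ (fun _ : Fin 2 => A.H) ℚ, HasWeight A.per (cxM β) 0 →
    ∀ v : Fin 2 → A.H, ∑ k, β (Function.update v k (X (v k))) = 0) ∧
  ∀ h : A.H →ₗ[ℚ] A.H, IsHom A A h → LinearMap.trace ℚ A.H (X ∘ₗ h) = 0

/-- The Hodge classes of codimension two on the powers of `A` are annihilated by the derived algebra of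
the Lefschetz Lie algebra. -/
def IsLef (A : AV) : Prop :=
  ∀ X : A.H →ₗ[ℚ] A.H, IsDL A X →
    ∀ c : MultilinearMap ℚ (fun _ : Fin 4 => A.H) ℚ, HasWeight A.per (cxM c) 0 →
      ∀ v : Fin 4 → A.H, ∑ k, c (Function.update v k (X (v k))) = 0

/-! ## Definitions on the level of matrices -/

/-- The complex matrices which commute with the commutant of the Lie algebra, are in the symplectic
Lie algebra, and are orthogonal to the commutant for the trace form. -/
def InS {g : ℕ} (Z : Matrix (Fin g) (Fin g) ℂ)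
    (N : Matrix (Fin g ⊕ Fin g) (Fin g ⊕ Fin g) ℂ) : Prop :=
  (∀ c, Ct Z c → N * c = c * N) ∧ Nᵀ * Om g ℂ + Om g ℂ * N = 0 ∧ ∀ c, Ct Z c → trace (N * c) = 0

/-- They are in the Lie algebra. -/
def MemTr {g : ℕ} (Z : Matrix (Fin g) (Fin g) ℂ) : Prop := ∀ N, InS Z N → N ∈ LZ Z

/-- They annihilate the Hodge tensors of degree four. -/
def Kil4 {g : ℕ} (Z : Matrix (Fin g) (Fin g) ℂ) : Prop :=
  ∀ N, InS Z N → ∀ c : (Fin 4 → Fin g ⊕ Fin g) → ℚ, IsH (DZ Z) c → act N (cst ℂ c) = 0

/-! ## The jobs -/

/-- JOB UV5 NRM (the Lie algebra is determined by the tensors of degree four).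

Proof. Let `L = LZ Z`, `Om = Om g ℂ`. The trace form is nondegenerate on `L` (`L` is stable under the
adjoint for the positive Hermitian form; see `Pool.Agent.Y4.K`, e.g. the lemma `Nd`, or `nondeg` in
`Pool.Agent.Y4.G.Cas`, or `Pool.Agent.W437`). Let `π` be the orthogonal projection of all matrices to
`L` for the trace form and `T i j k l` the coefficients of the bilinear form
`(A, B) ↦ trace (π A * B)`; after lowering the indices with `Om` this is a tensor in four variables,
`c w = ∑ b, trace (L-basis b * ..)`: e.g. `c w = ∑ s, (Om * x s) (w 0) (w 1) * (Om * y s) (w 2) (w 3)`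
for dual bases `x s`, `y s` of `L` for the trace form (the Casimir tensor, `casimir_comm` in
`Pool.Agent.Y4.G.Cas`). It does not depend on the bases, so it is fixed by all automorphisms of `ℂ`
(`L` is stable under them, `LA_aut`), hence its values are rational, and it is annihilated by `L`
(as `x s`, `y s` are in the symplectic Lie algebra and the Casimir tensor is invariant), so `IsH (DZ Z) c`.
Let `N` satisfy `InS Z N`. By `Kil4`, `N` annihilates `c`; as `N` is symplectic this means
`∑ s, ([N, x s] ⊗ y s + x s ⊗ [N, y s]) = 0`, hence `[N, X] ∈ L` for all `X ∈ L` (pair the second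
factor with the matrices `B` such that `∑ trace (y s B) x s = X`; for `B` orthogonal to `L` nothing,
in general `∑ trace (y s * B) [N, x s] = - ∑ trace ([N, y s] * B) x s ∈ L`, take `B = X ∈ L`:
`∑ trace (y s * X) x s = X`). So `ad N` is a derivation of `L`. `L` is reductive: for the trace form
`X ↦ (Y ↦ trace (N [X, Y]))`: define `f X Y = trace ([N, X] * Y)`. We look for `Y0 ∈ L` with
`[Y0, X] = [N, X]` for all `X ∈ L`: let `Y0 = π N` be the orthogonal projection of `N` to `L`; then for
`X, Y ∈ L`: `trace ([N, X] Y) = trace (N [X, Y]) = trace (Y0 [X, Y]) = trace ([Y0, X] Y)`, and both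
`[N, X]`, `[Y0, X]` are in `L`, so they are equal. Hence `z = N - Y0` commutes with `L`, it is in `Ct Z`
(`Ct Z c` means that `c` commutes with all conjugates of `DZ Z`, so with `L`), and `z` commutes with
`Ct Z` (`N` by hypothesis, `Y0 ∈ L`). Let `C0` be the centre of `L` (contained in `Ct Z`) and `L1` its
orthogonal complement in `L` for the trace form; as the trace form is nondegenerate on `L`, and
`trace ([A, B] C) = trace (A [B, C])`, `C0` is the orthogonal complement of `[L, L]` and `L1` is the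
span of the commutators (positivity: `L` and `C0` are stable under `dag`, so `L = C0 ⊕ L1`); for
`Y ∈ L1` and `c ∈ Ct Z` we have `trace (Y * c) = 0` (`trace ((A B - B A) c) = 0`). Write
`Y0 = Yc + Yd`. Then `N - Yd = z + Yc` is in `Ct Z`, and `trace ((N - Yd) * c) = 0` for all `c ∈ Ct Z`;
take `c = dag (N - Yd)` (in `Ct Z`): `trace (x * dag x) > 0` for `x ≠ 0`, so `N = Yd ∈ L`. -/
def S_nrm : Prop :=
  ∀ (g : ℕ) (Z : Matrix (Fin g) (Fin g) ℂ), Pol Z → Kil4 Z → MemTr Z

/-- JOB UV6 K4 (transport of `IsLef` to a normal form).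

Proof. The conditions on `N` in `InS` are linear equations defined over `ℚ` (the commutant `Ct Z` is
spanned by the rational matrices `ψ` with `cK ℂ ψ * DZ Z = DZ Z * cK ℂ ψ`, see `Ct_of_endo`,
`Ct_induction` in `Pool.Agent.Y4.K.Char` or `span_homs`), so `N` is a complex combination of rational
matrices `ψ` with `InS Z (cK ℂ ψ)`, and it is enough to prove `act N (cst ℂ c) = 0` for these (`act` is
linear in `N`). The endomorphism `X` of `A.H` which corresponds to `ψ` (by `e`) satisfies `IsDL A X`:
a bilinear form `β` of weight zero corresponds to a rational matrix `b` with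
`(DZ Z)ᵀ * b + b * DZ Z = 0`, so `b = Om * c` with `c` in the commutant, and
`ψᵀ * b + b * ψ = (ψᵀ * Om + Om * ψ) * c = 0`; the endomorphisms `h` of `A` correspond to rational
matrices in `Ct Z`. The tensor `c` corresponds to a multilinear form of weight zero in four variables
(`IsH` and `HasWeight .. 0`: see `Pool.Agent.Q280.D3.wgt`, `ish` and how they are used in
`Pool.Agent.Q180.UV.Core`), and the conclusion of `IsLef` for it is `act (cK ℂ ψ) (cst ℂ c) = 0`. -/
def S_k4 : Prop :=
  ∀ (A : AV) (g : ℕ) (Z : Matrix (Fin g) (Fin g) ℂ)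
    (e : A.H ≃ₗ[ℚ] (Fin g ⊕ Fin g → ℚ)) (C : A.T ≃ₗ[ℂ] (Fin g → ℂ)), Zᵀ = Z → (imM Z).PosDef →
    (∀ w, C (A.per w) = perOne Z (e w)) → IsLef A → Kil4 Z

/-- JOB UV7 MEMU (unitary type: full places).

Proof. Let `e = φ.e`, `c = vecMulVec v l` with `e v = v`, `l e = l`, `l ⬝ᵥ v = 0`. The commutant
`Ct Z` is spanned by the rational endomorphisms, so it consists of the complex polynomials in `φm`; so
`Ct Z` is commutative and each element of it is a scalar on `e` (`φ.prim`). `(M.bar φ).e ≠ e`:
`M.bar φ` is equivalent to `M.act conjEq φ` (`act_conj`), and `cK ℂ φm * (act conjEq φ).e = conj μ •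
(act conjEq φ).e`; equivalent idempotents of a commutative algebra are equal, and `conj μ ≠ μ`, so
`M.bar φ` belongs to another eigenvalue and `(M.bar φ).e * e = 0`. Let `N = c - br c`,
`br c = -(Om * cᵀ * Om)` (`Pool.Agent.Y4.K.Div`). Then `InS Z N`: `N` commutes with `Ct Z` (elements
of `Ct Z` act as the same scalar on both sides of `c`, also on `br c`); `Nᵀ * Om + Om * N = 0`;
`trace (c * x) = (scalar) * (l ⬝ᵥ v) = 0` for `x ∈ Ct Z` and `trace (br c * x) = trace (c * br x)`.
So `N ∈ LZ Z`, and `N * e = c` as `br c * e = br c * (M.bar φ).e * e = 0`. -/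
def S_memu : Prop :=
  ∀ (g : ℕ) (Z : Matrix (Fin g) (Fin g) ℂ) (_ : Pol Z) (P : ℚ[X])
    (φm : Matrix (Fin g ⊕ Fin g) (Fin g ⊕ Fin g) ℚ), Irreducible P → aeval φm P = 0 →
    (∀ μ : ℂ, aeval μ P = 0 → starRingEnd ℂ μ ≠ μ) →
    (∀ u : Matrix (Fin g ⊕ Fin g) (Fin g ⊕ Fin g) ℚ, cK ℂ u * DZ Z = DZ Z * cK ℂ u →
      ∃ q : ℚ[X], u = aeval φm q) →
    MemTr Z → ∀ (φ : Pr Z) (μ : ℂ), aeval μ P = 0 → cK ℂ φm * φ.e = μ • φ.e →
    Nil (im (LZ Z) φ.e) φ.e

/-- JOB UV8 MEMR (real type: the full symplectic Lie algebra on the eigenspaces). As `S_real`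
(`Pool.Agent.Q176.UV`), with `MemTr Z` in the place of the condition that `m` is odd.

Proof. As there, `W μ` are the eigenspaces of `φ`, `om` is nondegenerate on each, `L` acts irreducibly
on `W μ` (steps (1) to (3) of the docstring of `S_real`). For `x y ∈ W μ` we need `X ∈ L` which acts on
`W μ` as `EE x y` (symmetric product of `x` and `y`). The algebra of all matrices which commute with
`Ct Z` (the double commutant of `L`) is mapped onto `End (W μ)` (Burnside, Jacobson density, or
`span_homs`; `W μ` is a simple module of a semisimple algebra) and is stable under the involution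
`br c = -(Om * cᵀ * Om)`, which on `W μ` is the adjoint for `om` as the projection `V μ * Q μ` is fixed
by `br`. So there is `N` which commutes with `Ct Z`, acts on `W μ` as `EE x y / 2`, and
`N - br N` acts as `EE x y`, is symplectic and commutes with `Ct Z`. One can multiply `N` with the
central idempotent of `Ct Z` which belongs to `W μ` (`ce` in `Pool.Agent.Y4.K.Char`), so that it acts as
zero on the places not isomorphic to `W μ`. The trace: for `c ∈ Ct Z` we get
`trace ((N - br N) * c) = trace over the places isomorphic to W μ`, each contributes a multiple of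
`trace (EE x y | W μ) = 0`. So `InS Z (N - br N)`. (If `Ct Z` is commutative, `N = SS x y`
directly.) -/
def S_memr : Prop :=
  ∀ (g : ℕ) (Z : Matrix (Fin g) (Fin g) ℂ), Zᵀ = Z → (imM Z).PosDef →
    ∀ (P : ℚ[X]) (φ : Matrix (Fin g ⊕ Fin g) (Fin g ⊕ Fin g) ℚ), Irreducible P →
    (∀ μ : ℂ, aeval μ P = 0 → starRingEnd ℂ μ = μ) → aeval φ P = 0 →
    cK ℂ φ * DZ Z = DZ Z * cK ℂ φ →
    (∀ ψ : Matrix (Fin g ⊕ Fin g) (Fin g ⊕ Fin g) ℚ, cK ℂ ψ * DZ Z = DZ Z * cK ℂ ψ →
      ψ * φ = φ * ψ → ∃ q : ℚ[X], ψ = aeval φ q) → MemTr Z → HasPcs (DZ Z)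

/-- JOB UV9 TWO (Lie algebras of format `(2, 2)`).

Proof. Let `U = pos G P Q`, `d = dim U`. The structure `Tri` (`Lie.tri`, `Pool.Agent.Y4.G.Cas`) and the
computation in `Pool.Agent.Y4.G.Tri` (`exists_mini`, the identity in the proof of `full`) give
`4 (2 + k) = 4 d m` with `m` the rank of a minimal tripotent and `k + 2 m ≤ 4`: so `m = 1` and
`d = 2 + k ∈ {2, 3, 4}`, or `m = 2` and `d = 1`. If `d = 4` then `U` consists of all `P Y Q`. Otherwise
argue directly: `U` is a space of `2 × 2` matrices closed under `x yᴴ z + z yᴴ x`. It contains an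
invertible element: otherwise all elements of `U` have rank `≤ 1`, so they have a common kernel or a
common image of dimension one, against irreducibility. So (polar decomposition; `u` = the unitary part
is in `U`, or: a maximal tripotent) we may assume `1 ∈ U` after identifying the two eigenspaces, and
`U` is closed under `ᴴ` and squares. `d = 1`: `U = ℂ 1`, the part of degree zero `G0` consists of the
`(a, b)` with `a - b` scalar, so `G ⊆ sl_2 ⊗ 1 + 1 ⊗ gl_2`, and as the trace is zero
`G ⊆ sl_2 ⊗ 1 + 1 ⊗ sl_2`, which preserves the symmetric form `J = ε ⊗ ε`. `d = 2`: `U` is spanned by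
`1` and `s` with `s^2 = 1`, `trace s = 0`; `G0` commutes with `s ⊕ s` up to `U`, so it commutes with
`s ⊕ s` (`[b, s] + δ s ∈ U`, `[b, s]` is off-diagonal), so `G` is not irreducible. `d = 3`: `U` is the
space of the `x` with `xᵗ c = c x` for a symmetric `c` (the orthogonal complement of a traceless
matrix), and `G` preserves the alternating form `J = [[0, c], [-c, 0]]` up to a scalar, so it
preserves it as the trace is zero. -/
def S_two : Prop :=
  ∀ (B : Type) [Fintype B] [DecidableEq B] (G : Submodule ℂ (Matrix B B ℂ)) (P Q : Matrix B B ℂ),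
    Lie G P Q 2 2 → (∀ X ∈ G, trace X = 0) →
    (∀ Y, P * Y * Q ∈ G) ∨
      ∃ J : Matrix B B ℂ, J ≠ 0 ∧ (P + Q)ᵀ * J = J ∧ J * (P + Q) = J ∧
        ∀ X ∈ G, Xᵀ * J + J * X = 0

/-- JOB UV9b WT22 (hypothesis `S_two`). Balanced places of dimension four.

Proof. Let `φ` be selfadjoint without restriction (`eqv_sa`). `Lie G P Q 2 2` for the Lie algebra `G`
at the place by `M.lie_place`; all conjugates of `DZ Z` have trace zero on `φ.e` (the hypothesis on the
`mu`), so `trace X = 0` for all `X ∈ G`. In the first case of `S_two` (and for `ᴴ`, `Lie.symm`) continue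
as in the proof of `nil_all` (`Pool.Agent.Y4.K.Glob`): `nil_of_blocks`. In the second case `J` gives a
nonzero element `c` of `Ct Z` with `φ.e * c * (M.bar φ).e = c` or with the places exchanged (`Om⁻¹ J`
transported back), so `Eqv φ (M.bar φ)` by `eqv_of_ne`. -/
def S_wt22 : Prop :=
  ∀ (g : ℕ) (Z : Matrix (Fin g) (Fin g) ℂ) (M : Pol Z) (φ : Pr Z),
    (∀ σ : ℂ ≃+* ℂ, mu (M.act σ φ) = 2 ∧ mu (M.bar (M.act σ φ)) = 2) → ¬ Eqv φ (M.bar φ) →
    Nil (im (LZ Z) φ.e) φ.e

/-- JOB UV10 REAL2 (real type, relative dimension two). As `S_real` (`Pool.Agent.Q176.UV`) with `m = 2`.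

Proof. As there up to the last step: `L` acts irreducibly on `W = W μ` of dimension four, preserves the
symplectic form, contains an involution with eigenspaces of dimension two, and is stable under the
adjoint of a positive Hermitian form. We need an element of `L` which has rank one on `W` (then
continue as there). Let `U` be the part of degree one. By the identity of `Pool.Agent.Y4.G.Tri`
(`4 (2 + k) = 4 d m`, `k + 2 m ≤ 4`, see the docstring of `S_two`) either the minimal tripotent of `U`
has rank `m = 1`: done; or `m = 2`, `dim U = 1`: then `U = ℂ u`, `G0` preserves `ℂ u`; identify the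
eigenspaces by `u`: the elements of degree zero are the `(a, b)` with `a - b` scalar, so
`G ⊆ sl_2 ⊗ 1 + 1 ⊗ gl_2`, and it preserves the symplectic form `ε ⊗ s` (`s` symmetric, as `u` is
symmetric), so `G ⊆ sl_2 ⊗ 1 + 1 ⊗ so_2`, which is not irreducible. -/
def S_real2 : Prop :=
  ∀ (g : ℕ) (Z : Matrix (Fin g) (Fin g) ℂ), Zᵀ = Z → (imM Z).PosDef →
    ∀ (P : ℚ[X]) (φ : Matrix (Fin g ⊕ Fin g) (Fin g ⊕ Fin g) ℚ), Irreducible P →
    (∀ μ : ℂ, aeval μ P = 0 → starRingEnd ℂ μ = μ) → aeval φ P = 0 →
    cK ℂ φ * DZ Z = DZ Z * cK ℂ φ → g = P.natDegree * 2 →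
    (∀ ψ : Matrix (Fin g ⊕ Fin g) (Fin g ⊕ Fin g) ℚ, cK ℂ ψ * DZ Z = DZ Z * cK ℂ ψ →
      ψ * φ = φ * ψ → ∃ q : ℚ[X], ψ = aeval φ q) → HasPcs (DZ Z)

end Pool.Agent.Q180.UV
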