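import Mathlib
import Pool.Agent.Q180.UV.Close

/-!
# Project UV: the main theorem for factors with data
-/

namespace Pool.Agent.Q180.UV

open Matrix Module Pool.Agent.H204R3.CM Pool.Agent.W437.HC Pool.Agent.W437.HD
open Pool.Agent.Q60.D3 (AV IsHom IsCM IsSimple IsIsogenousToProd)
open Pool.Agent.Q180.UV.Close (Dat)
open Pool.Agent.Q180.UW (Gen bal)

/-- **The Hodge classes are generated.** -/
theorem main_dat (𝒲 : Set (ℕ × ℕ)) (𝒞 : AV → Prop)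
    (h𝒞 : ∀ (e M : ℕ) (B : AV), (e, M) ∈ 𝒲 → IsCM B → 2 * finrank ℂ B.T = e → 𝒞 B)
    (ι : Type) [Finite ι] (X : AV) (A : ι → AV) (hiso : IsIsogenousToProd X A)
    (hA : ∀ i, Dat 𝒲 𝒞 (A i))
    (κ : Type) [Finite κ] (f : X.H [⋀^κ]→ₗ[ℚ] ℚ) : IsHodge X.per f ↔ Gen 𝒲 𝒞 X κ f := by
  refine ⟨fun hf => ?_, fun hf => Pool.Agent.Q222.UW.conv 𝒲 𝒞 X κ f hf inferInstance⟩
  have hexp : S_exp := Exp.exp (Split.split (Kil.kil memtr)) Pool.Agent.Q222.UW.lab memtr tor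
  exact Close.close 𝒲 𝒞 h𝒞 Pool.Agent.Q60.D3.NF.nf Pool.Agent.Q144.UW.pcs
    Pool.Agent.Q222.UW.desc Pool.Agent.Q222.UW.good_alt Pool.Agent.Q222.UW.good_lin hexp
    Aln.aln Pool.Agent.Q280.D3.wgt Pool.Agent.Q280.D3.ish bal ι X A hiso hA κ f hf

end Pool.Agent.Q180.UV
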