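import Mathlib
import Pool.Agent.Q180.UV.Stm2
import Pool.Agent.Q180.UV.MainA

/-!
# Project UV: the data of the factors of the final theorem
-/

set_option autoImplicit false

namespace Pool.Agent.Q180.UV

open Matrix Module Polynomial Pool.Agent.H204R3.CM Pool.Agent.H204R3.SP Pool.Agent.W437.HC
  Pool.Agent.W437.HD Pool.Agent.W437.HP Pool.Agent.W437.HR
open Pool.Agent.Q60.D3 (AV IsHom IsCM IsSimple HasWeight cxM)
open Pool.Agent.Y4.K (Pol Pr mu Eqv Iso)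
open Pool.Agent.Y4.G (Nil im Lie)
open Pool.Agent.Y4.H (LZ Ct)
open Pool.Agent.Q180.UW (IsCMField mult)
open Pool.Agent.Q180.UV.Close (Dat)
open Pool.Agent.Q180.UV.Famc (IsUB IsFullAt famg)

/-- Unitary type with the codimension two condition. -/
def IsLefU (A : AV) (e M : ℕ) : Prop :=
  ∃ (P : ℚ[X]) (φ : A.H →ₗ[ℚ] A.H) (C : A.T →ₗ[ℂ] A.T) (n : ℕ), IsCMField e P ∧
    (∀ w, C (A.per w) = A.per (φ w)) ∧ aeval φ P = 0 ∧ 2 * Module.finrank ℂ A.T = e * n ∧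
    3 ≤ n ∧ n < 2 * M ∧ (∀ h : A.H →ₗ[ℚ] A.H, IsHom A A h → ∃ q : ℚ[X], h = aeval φ q) ∧
    (∀ μ : ℂ, aeval μ P = 0 → 1 ≤ mult C μ ∧ mult C μ ≤ M) ∧ IsLef A

/-- Real type with the codimension two condition. -/
def IsLefR (A : AV) : Prop :=
  ∃ (P : ℚ[X]) (φ : A.H →ₗ[ℚ] A.H), Irreducible P ∧
    (∀ μ : ℂ, aeval μ P = 0 → starRingEnd ℂ μ = μ) ∧ IsHom A A φ ∧ aeval φ P = 0 ∧
    (∀ h : A.H →ₗ[ℚ] A.H, IsHom A A h → h ∘ₗ φ = φ ∘ₗ h → ∃ q : ℚ[X], h = aeval φ q) ∧ IsLef A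

/-- Unitary type with multiplicities two. -/
def IsBal (A : AV) (e : ℕ) : Prop :=
  ∃ (P : ℚ[X]) (φ : A.H →ₗ[ℚ] A.H) (C : A.T →ₗ[ℂ] A.T), IsCMField e P ∧
    (∀ w, C (A.per w) = A.per (φ w)) ∧ aeval φ P = 0 ∧ 2 * Module.finrank ℂ A.T = e * 4 ∧
    (∀ h : A.H →ₗ[ℚ] A.H, IsHom A A h → ∃ q : ℚ[X], h = aeval φ q) ∧
    ∀ μ : ℂ, aeval μ P = 0 → mult C μ = 2

/-- Real type of relative dimension two. -/
def IsReal2 (A : AV) : Prop :=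
  ∃ (P : ℚ[X]) (φ : A.H →ₗ[ℚ] A.H), Irreducible P ∧
    (∀ μ : ℂ, aeval μ P = 0 → starRingEnd ℂ μ = μ) ∧ IsHom A A φ ∧ aeval φ P = 0 ∧
    Module.finrank ℂ A.T = P.natDegree * 2 ∧
    ∀ h : A.H →ₗ[ℚ] A.H, IsHom A A h → h ∘ₗ φ = φ ∘ₗ h → ∃ q : ℚ[X], h = aeval φ q

theorem dat_lefr (hnrm : S_nrm) (hk4 : S_k4) (hmemr : S_memr) (𝒲 : Set (ℕ × ℕ)) (𝒞 : AV → Prop)
    (A : AV) (hA : IsLefR A) : Dat 𝒲 𝒞 A := by
  intro g Z e C hZ hpos hC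
  left
  obtain ⟨P, φ, hP, hre, hφ, hφP, hcent, hlef⟩ := hA
  obtain ⟨φm, h1, h2, h3, h4, -⟩ := transport A g Z e C hpos hC φ hφ
  exact hmemr g Z hZ hpos P φm hP hre ((h2 P).1 hφP) h3 (h4 hcent)
    (hnrm g Z ⟨hZ, hpos⟩ (hk4 A g Z e C hZ hpos hC hlef))

theorem dat_real2 (hreal2 : S_real2) (𝒲 : Set (ℕ × ℕ)) (𝒞 : AV → Prop)
    (A : AV) (hA : IsReal2 A) : Dat 𝒲 𝒞 A := by
  intro g Z e C hZ hpos hC
  left
  obtain ⟨P, φ, hP, hre, hφ, hφP, hdim, hcent⟩ := hA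
  have hg : finrank ℂ A.T = g := by rw [C.finrank_eq, Module.finrank_fin_fun]
  obtain ⟨φm, h1, h2, h3, h4, -⟩ := transport A g Z e C hpos hC φ hφ
  exact hreal2 g Z hZ hpos P φm hP hre ((h2 P).1 hφP) h3 (by rw [← hg, hdim]) (h4 hcent)

/-- The matrix of `φ` is determined. -/
theorem eq_of_mulVec {g : ℕ} {A : AV} (e : A.H ≃ₗ[ℚ] (Fin g ⊕ Fin g → ℚ)) {φ : A.H →ₗ[ℚ] A.H}
    {a b : Matrix (Fin g ⊕ Fin g) (Fin g ⊕ Fin g) ℚ} (ha : ∀ w, a *ᵥ e w = e (φ w))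
    (hb : ∀ w, b *ᵥ e w = e (φ w)) : a = b := by
  ext i j
  have h1 := congrFun ((ha (e.symm (Pi.single j 1))).trans (hb (e.symm (Pi.single j 1))).symm) i
  rw [e.apply_symm_apply, mulVec_single_one, mulVec_single_one] at h1
  exact h1

theorem full_of_lef (hnrm : S_nrm) (hk4 : S_k4) (hmemu : S_memu) {A : AV} {e : ℕ}
    {P : ℚ[X]} {φ : A.H →ₗ[ℚ] A.H} {C : A.T →ₗ[ℂ] A.T} (hP : IsCMField e P)
    (hC : ∀ w, C (A.per w) = A.per (φ w)) (hφP : aeval φ P = 0)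
    (hend : ∀ h : A.H →ₗ[ℚ] A.H, IsHom A A h → ∃ q : ℚ[X], h = aeval φ q) (hlef : IsLef A) :
    IsFullAt A P φ C := by
  intro g Z e' C' hZ hpos hper φm hφm Mp ψ μ hμ _ heig
  obtain ⟨φ', h1, h2, h3, -, h5⟩ := transport A g Z e' C' hpos hper φ ⟨C, hC⟩
  obtain rfl := eq_of_mulVec e' h1 hφm
  exact hmemu g Z Mp P φ' hP.1 ((h2 P).1 hφP) (fun ν hν => (hP.2.2.choose_spec ν hν).1) (h5 hend)
    (hnrm g Z Mp (hk4 A g Z e' C' hZ hpos hper hlef)) ψ μ hμ heig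

theorem dat_lefu (hnrm : S_nrm) (hk4 : S_k4) (hmemu : S_memu) (𝒲 : Set (ℕ × ℕ)) (𝒞 : AV → Prop)
    (A : AV) (d M : ℕ) (hW : (d, M) ∈ 𝒲) (hA : IsLefU A d M) : Dat 𝒲 𝒞 A := by
  intro g Z e C hZ hpos hC
  right
  obtain ⟨P, φ, D, n, hP, hD, hφP, hdim, hn, hnM, hend, hm, hlef⟩ := hA
  exact famg Pool.Agent.Q2.UW.lin Pool.Agent.Q144.UW.mul 𝒲 𝒞 A g Z e C hZ hpos hC d M n P φ D
    hW ⟨hP, hD, hφP, hdim, hn, hnM, fun h hh _ => hend h hh, hm⟩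
    (full_of_lef hnrm hk4 hmemu hP hD hφP hend hlef)

/-- A place is not selfconjugate if the commutant is generated by a generator of a CM field. -/
theorem nsc_cm {g : ℕ} {Z : Matrix (Fin g) (Fin g) ℂ} (M : Pol Z)
    {φm : Matrix (Fin g ⊕ Fin g) (Fin g ⊕ Fin g) ℚ}
    (hend : ∀ u : Matrix (Fin g ⊕ Fin g) (Fin g ⊕ Fin g) ℚ, cK ℂ u * DZ Z = DZ Z * cK ℂ u →
      ∃ q : ℚ[X], u = aeval φm q) (ψ : Pr Z) {μ : ℂ} (hμ : starRingEnd ℂ μ ≠ μ)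
    (heig : cK ℂ φm * ψ.e = μ • ψ.e) : ¬ Eqv ψ (M.bar ψ) := by
  intro hE
  have hcom : ∀ c, Ct Z c → c * cK ℂ φm = cK ℂ φm * c := by
    intro c hc
    refine M.Ct_induction (p := fun c => c * cK ℂ φm = cK ℂ φm * c) ?_ ?_ ?_ ?_ c hc
    · intro u N hN
      have h1 := Pool.Agent.W437.HQ.endo_comm M.isUnit hN
      obtain ⟨q, rfl⟩ := hend u h1
      have h2 : aeval φm q * φm = φm * aeval φm q := by
        have h3 : aeval φm (q * X) = aeval φm (X * q) := by rw [mul_comm]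
        rwa [map_mul, map_mul, Polynomial.aeval_X] at h3
      have h4 := congrArg (fun X => X.map (algebraMap ℚ ℂ)) h2
      simp only [Matrix.map_mul] at h4
      exact h4
    · rw [zero_mul, mul_zero]
    · intro X Y hX hY
      rw [add_mul, mul_add, hX, hY]
    · intro r X hX
      rw [Matrix.smul_mul, Matrix.mul_smul, hX]
  have h1 := (M.act_conj ψ).trans hE.symm
  obtain ⟨a, b, h⟩ := h1
  have h2 : cK ℂ φm * (M.act Pool.Agent.Y4.conjEq ψ).e =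
      starRingEnd ℂ μ • (M.act Pool.Agent.Y4.conjEq ψ).e := by
    rw [M.act_e]
    have h3 := congrArg (fun X => X.map (Pool.Agent.Y4.conjEq : ℂ → ℂ)) heig
    simp only [Matrix.map_mul, Pool.Agent.Q60.D3.cK_map] at h3
    have h4 : (μ • ψ.e).map (Pool.Agent.Y4.conjEq : ℂ → ℂ) =
        starRingEnd ℂ μ • ψ.e.map (Pool.Agent.Y4.conjEq : ℂ → ℂ) := by
      ext i j
      simp [Pool.Agent.Y4.conjEq]
    exact h3.trans h4
  have h3 : starRingEnd ℂ μ • a = μ • a := by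
    have h4 : cK ℂ φm * a = μ • a := by
      rw [← h.la, ← Matrix.mul_assoc, heig, Matrix.smul_mul]
    have h5 : a * cK ℂ φm = starRingEnd ℂ μ • a := by
      rw [← h.ra, Matrix.mul_assoc, hcom _ (M.act Pool.Agent.Y4.conjEq ψ).mem, h2,
        Matrix.mul_smul]
    rw [← h5, hcom a h.ca, h4]
  have h4 : (starRingEnd ℂ μ - μ) • a = 0 := by rw [sub_smul, h3, sub_self]
  rcases smul_eq_zero.1 h4 with h5 | h5
  · exact hμ (sub_eq_zero.1 h5)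
  · have h6 := h.ab
    rw [h5, Matrix.zero_mul] at h6
    exact ψ.ne h6.symm

theorem full_of_bal (hwt : S_wt22) {A : AV} {e : ℕ}
    {P : ℚ[X]} {φ : A.H →ₗ[ℚ] A.H} {C : A.T →ₗ[ℂ] A.T} (hP : IsCMField e P)
    (hC : ∀ w, C (A.per w) = A.per (φ w)) (_ : aeval φ P = 0)
    (hend : ∀ h : A.H →ₗ[ℚ] A.H, IsHom A A h → ∃ q : ℚ[X], h = aeval φ q)
    (hm : ∀ μ : ℂ, aeval μ P = 0 → mult C μ = 2) : IsFullAt A P φ C := by
  intro g Z e' C' hZ hpos hper φm hφm Mp ψ μ hμ hmu heig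
  obtain ⟨φ', h1, -, -, -, h5⟩ := transport A g Z e' C' hpos hper φ ⟨C, hC⟩
  obtain rfl := eq_of_mulVec e' h1 hφm
  have hroot : ∀ σ : ℂ ≃+* ℂ, aeval (σ μ) P = 0 := by
    intro σ
    have h3 := Pool.Agent.Q210.UW.aeval_aut σ μ P
    rw [h3, hμ, map_zero]
  refine hwt g Z Mp ψ (fun σ => ?_) (nsc_cm Mp (h5 hend) ψ (hP.2.2.choose_spec μ hμ).1 heig)
  have h3 := hmu σ
  rw [hm _ (hroot σ)] at h3
  refine ⟨h3.1, h3.2.trans (hm _ ?_)⟩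
  have h4 := Pool.Agent.Q210.UW.aeval_aut (starRingAut (R := ℂ)) (σ μ) P
  rw [hroot σ, map_zero] at h4
  exact h4

theorem dat_bal (hwt : S_wt22) (𝒲 : Set (ℕ × ℕ)) (𝒞 : AV → Prop)
    (A : AV) (d : ℕ) (hW : (d, 3) ∈ 𝒲) (hA : IsBal A d) : Dat 𝒲 𝒞 A := by
  intro g Z e C hZ hpos hC
  right
  obtain ⟨P, φ, D, hP, hD, hφP, hdim, hend, hm⟩ := hA
  exact famg Pool.Agent.Q2.UW.lin Pool.Agent.Q144.UW.mul 𝒲 𝒞 A g Z e C hZ hpos hC d 3 4 P φ D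
    hW ⟨hP, hD, hφP, hdim, by norm_num, by norm_num, fun h hh _ => hend h hh, fun μ hμ => by
      rw [hm μ hμ]; norm_num⟩
    (full_of_bal hwt hP hD hφP hend hm)

end Pool.Agent.Q180.UV
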